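import Pool.Agent.Lib.MP_5cc0c1_al.Wr

/-!
# MP_5cc0c1_al : general facts on `V ⋊ T`
-/

namespace Pool.Agent.Lib.MP_5cc0c1_al

open scoped commutatorElement

variable {T V : Type} [Group T] [Finite T] [AddCommGroup V] [Finite V] [DistribMulAction T V]

omit [Finite V] in
private theorem mem_of_nsmul_mem (p : ℕ) [hp : Fact p.Prime] (M : AddSubgroup V) (v : V)
    (hv : p • v = 0) (k : ℕ) (hk : ¬ p ∣ k) (h : k • v ∈ M) : v ∈ M := by
  have hco : Nat.Coprime p k := (Nat.Prime.coprime_iff_not_dvd hp.out).mpr hk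
  have hb := Nat.gcd_eq_gcd_ab p k
  rw [hco.gcd_eq_one] at hb
  have : v = (Nat.gcdA p k) • ((p : ℤ) • v) + (Nat.gcdB p k) • ((k : ℤ) • v) := by
    rw [smul_smul, smul_smul, ← add_smul, mul_comm (Nat.gcdA p k), mul_comm (Nat.gcdB p k), ← hb]
    simp
  rw [this]
  refine M.add_mem ?_ (M.zsmul_mem ?_ _)
  · rw [natCast_zsmul, hv, smul_zero]; exact M.zero_mem
  · rw [natCast_zsmul]; exact h

/-- If `H` fixes no nonzero vector then `V` is generated by the `h • v - v`. -/
theorem coinv_top (p : ℕ) [Fact p.Prime] (hpV : ∀ v : V, p • v = 0) (hpT : ¬ p ∣ Nat.card T)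
    (H : Subgroup T) (hfix : ∀ v : V, (∀ h ∈ H, h • v = v) → v = 0) :
    AddSubgroup.closure {x : V | ∃ h ∈ H, ∃ v : V, x = h • v - v} = ⊤ := by
  classical
  have : Fintype H := Fintype.ofFinite H
  rw [eq_top_iff]
  intro v _
  set C := AddSubgroup.closure {x : V | ∃ h ∈ H, ∃ v : V, x = h • v - v} with hC
  have h1 : ∑ h : H, (h : T) • v = 0 := by
    apply hfix
    intro g hg
    rw [Finset.smul_sum]
    simp only [smul_smul]
    exact Equiv.sum_comp (Equiv.mulLeft (⟨g, hg⟩ : H)) (fun h : H => (h : T) • v)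
  have h2 : ∑ h : H, ((h : T) • v - v) ∈ C :=
    AddSubgroup.sum_mem _ fun h _ => AddSubgroup.subset_closure ⟨h, h.2, v, rfl⟩
  rw [Finset.sum_sub_distrib, h1, zero_sub, Finset.sum_const, Finset.card_univ] at h2
  have h3 : Fintype.card H • v ∈ C := by simpa using C.neg_mem h2
  refine mem_of_nsmul_mem p C v (hpV v) _ ?_ h3
  intro hd
  apply hpT
  refine hd.trans ?_
  rw [← Nat.card_eq_fintype_card]
  exact Subgroup.card_subgroup_dvd_card H

/-- Subgroups of small index of `V ⋊ T` contain `V` and their abelianization is that of their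
linear part. -/
theorem aff_A (p : ℕ) [Fact p.Prime] (hpV : ∀ v : V, p • v = 0) (hpT : ¬ p ∣ Nat.card T)
    (N : ℕ) (hNp : N ≤ p)
    (hfix : ∀ H : Subgroup T, H.index < N → ∀ v : V, (∀ h ∈ H, h • v = v) → v = 0)
    (H : Subgroup (Aff T V)) (hH : H.index < N) :
    ∃ H0 : Subgroup T, H0.index = H.index ∧
      Nat.card (Abelianization H) ≤ Nat.card (Abelianization H0) := by
  have hp : p.Prime := Fact.out
  have hfinA : Finite (Aff T V) := Finite.of_equiv _ Aff.equivProd.symm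
  have hVH : ∀ v : V, (⟨v, 1⟩ : Aff T V) ∈ H := by
    intro v
    obtain ⟨n, hn0, hn1, hn⟩ := Subgroup.exists_pow_mem_of_index_ne_zero
      (H := H) Subgroup.index_ne_zero_of_finite (⟨v, 1⟩ : Aff T V)
    have hpow : ∀ k : ℕ, (⟨v, 1⟩ : Aff T V) ^ k = ⟨k • v, 1⟩ := by
      intro k
      induction k with
      | zero => rw [pow_zero, zero_smul]; rfl
      | succ k ih => rw [pow_succ, ih]; ext <;> simp [succ_nsmul]
    have hpp : (⟨v, 1⟩ : Aff T V) ^ p = 1 := by rw [hpow, hpV]; rfl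
    have hco : Nat.Coprime n p := by
      rw [Nat.coprime_comm, Nat.Prime.coprime_iff_not_dvd hp]
      intro hd
      have := Nat.le_of_dvd hn0 hd
      omega
    have hb := Nat.gcd_eq_gcd_ab n p
    rw [hco.gcd_eq_one] at hb
    have : (⟨v, 1⟩ : Aff T V) = ((⟨v, 1⟩ : Aff T V) ^ n) ^ (Nat.gcdA n p) *
        ((⟨v, 1⟩ : Aff T V) ^ p) ^ (Nat.gcdB n p) := by
      rw [← zpow_natCast, ← zpow_natCast, ← zpow_mul, ← zpow_mul, ← zpow_add, ← hb]
      simp
    rw [this]
    refine H.mul_mem (H.zpow_mem hn _) (H.zpow_mem ?_ _)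
    rw [hpp]
    exact H.one_mem
  have hsurj : Function.Surjective (Aff.lin : Aff T V →* T) := fun t => ⟨⟨0, t⟩, rfl⟩
  have hker : (Aff.lin : Aff T V →* T).ker ≤ H := by
    intro x hx
    have : x = ⟨x.v, 1⟩ := by
      ext
      · rfl
      · exact hx
    rw [this]
    exact hVH _
  have hidx : (H.map (Aff.lin : Aff T V →* T)).index = H.index :=
    Subgroup.index_map_eq _ hsurj hker
  refine ⟨H.map Aff.lin, hidx, ?_⟩
  set H0 := H.map (Aff.lin : Aff T V →* T) with hH0
  let φ : H →* H0 := Aff.lin.subgroupMap H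
  have hφ : Function.Surjective φ := Aff.lin.subgroupMap_surjective H
  have hco := coinv_top p hpV hpT H0 (hfix H0 (by rw [hidx]; exact hH))
  have hkφ : ∀ v : V, (⟨⟨v, 1⟩, hVH v⟩ : H) ∈ commutator H := by
    intro v
    have hv : v ∈ AddSubgroup.closure {x : V | ∃ h ∈ H0, ∃ v : V, x = h • v - v} := by
      rw [hco]; trivial
    induction hv using AddSubgroup.closure_induction with
    | mem x hx =>
      obtain ⟨h, hh, w, rfl⟩ := hx
      obtain ⟨g, hg, rfl⟩ := hh
      have : (⟨⟨Aff.lin g • w - w, 1⟩, hVH _⟩ : H) =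
          ⁅(⟨g, hg⟩ : H), (⟨⟨w, 1⟩, hVH w⟩ : H)⁆ := by
        apply Subtype.ext
        rw [commutatorElement_def]
        change (⟨g.t • w - w, 1⟩ : Aff T V) = g * ⟨w, 1⟩ * g⁻¹ * (⟨w, 1⟩ : Aff T V)⁻¹
        ext
        · simp
          abel
        · simp
      rw [this]
      exact Subgroup.commutator_mem_commutator (Subgroup.mem_top _) (Subgroup.mem_top _)
    | zero => exact (commutator H).one_mem
    | add a b _ _ ha hb =>
      have : (⟨⟨a + b, 1⟩, hVH _⟩ : H) = ⟨⟨a, 1⟩, hVH a⟩ * ⟨⟨b, 1⟩, hVH b⟩ := by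
        apply Subtype.ext
        change (⟨a + b, 1⟩ : Aff T V) = ⟨a, 1⟩ * ⟨b, 1⟩
        ext <;> simp
      rw [this]
      exact (commutator H).mul_mem ha hb
    | neg a _ ha =>
      have : (⟨⟨-a, 1⟩, hVH _⟩ : H) = (⟨⟨a, 1⟩, hVH a⟩ : H)⁻¹ := by
        apply Subtype.ext
        change (⟨-a, 1⟩ : Aff T V) = (⟨a, 1⟩ : Aff T V)⁻¹
        ext <;> simp
      rw [this]
      exact (commutator H).inv_mem ha
  have hkφ' : φ.ker ≤ commutator H := by
    intro x hx
    have h1 : (x : Aff T V).t = 1 := by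
      have := congrArg Subtype.val (MonoidHom.mem_ker.mp hx)
      exact this
    have : x = ⟨⟨(x : Aff T V).v, 1⟩, hVH _⟩ := by
      apply Subtype.ext
      ext
      · rfl
      · exact h1
    rw [this]
    exact hkφ _
  have hinj : Function.Injective (Abelianization.map φ) := by
    rw [injective_iff_map_eq_one]
    intro a
    induction a using QuotientGroup.induction_on with
    | H x =>
      intro hx
      have h1 : Abelianization.of (φ x) = 1 := hx
      have h2 : φ x ∈ commutator H0 := by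
        rw [← Abelianization.ker_of]
        exact h1
      have h3 : (commutator H).map φ = commutator H0 := by
        rw [commutator_def, commutator_def, Subgroup.map_commutator,
          Subgroup.map_top_of_surjective φ hφ]
      rw [← h3] at h2
      obtain ⟨y, hy, hxy⟩ := h2
      have h4 : x * y⁻¹ ∈ commutator H := hkφ' (by
        rw [MonoidHom.mem_ker, map_mul, map_inv, hxy, mul_inv_cancel])
      have h5 : x ∈ commutator H := by
        have := (commutator H).mul_mem h4 hy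
        simpa using this
      change Abelianization.of x = 1
      rw [← MonoidHom.mem_ker, Abelianization.ker_of]
      exact h5
  have : Finite (Abelianization H0) := Quotient.finite _
  exact Nat.card_le_card_of_injective _ hinj

/-- two-generation of `V ⋊ T` -/
theorem aff_gen (p : ℕ) [Fact p.Prime] (hpV : ∀ v : V, p • v = 0) (hpT : ¬ p ∣ Nat.card T)
    (x y : T) (hxy : Subgroup.closure ({x, y} : Set T) = ⊤) (n : ℕ) (hn : ¬ p ∣ n)
    (hnorm : ∀ w : V, ∑ j ∈ Finset.range n, x ^ j • w = 0) (v0 : V)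
    (hv0 : ∀ N : AddSubgroup V, (∀ (t : T), ∀ w ∈ N, t • w ∈ N) → v0 ∈ N → N = ⊤) :
    Subgroup.closure ({⟨0, x⟩, ⟨v0, y⟩} : Set (Aff T V)) = ⊤ := by
  classical
  have : Fintype T := Fintype.ofFinite T
  set L := Subgroup.closure ({⟨0, x⟩, ⟨v0, y⟩} : Set (Aff T V)) with hL
  have hx : (⟨0, x⟩ : Aff T V) ∈ L := Subgroup.subset_closure (by simp)
  have hy : (⟨v0, y⟩ : Aff T V) ∈ L := Subgroup.subset_closure (by simp)
  have hmap : L.map (Aff.lin : Aff T V →* T) = ⊤ := by
    rw [hL, MonoidHom.map_closure, Set.image_pair]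
    exact hxy
  have hc : ∀ t : T, ∃ c : V, (⟨c, t⟩ : Aff T V) ∈ L := by
    intro t
    have : t ∈ L.map (Aff.lin : Aff T V →* T) := by rw [hmap]; trivial
    obtain ⟨g, hg, rfl⟩ := this
    exact ⟨g.v, hg⟩
  choose c hc using hc
  let Mo : AddSubgroup V :=
    { carrier := {v | (⟨v, 1⟩ : Aff T V) ∈ L}
      zero_mem' := L.one_mem
      add_mem' := by
        intro a b ha hb
        have : (⟨a + b, 1⟩ : Aff T V) = ⟨a, 1⟩ * ⟨b, 1⟩ := by ext <;> simp
        change (⟨a + b, 1⟩ : Aff T V) ∈ L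
        rw [this]
        exact L.mul_mem ha hb
      neg_mem' := by
        intro a ha
        have : (⟨-a, 1⟩ : Aff T V) = (⟨a, 1⟩ : Aff T V)⁻¹ := by ext <;> simp
        change (⟨-a, 1⟩ : Aff T V) ∈ L
        rw [this]
        exact L.inv_mem ha }
  have hMo : ∀ v : V, v ∈ Mo ↔ (⟨v, 1⟩ : Aff T V) ∈ L := fun v => Iff.rfl
  have huniq : ∀ (t : T) (a b : V), (⟨a, t⟩ : Aff T V) ∈ L → (⟨b, t⟩ : Aff T V) ∈ L →
      a - b ∈ Mo := by
    intro t a b ha hb
    rw [hMo]
    have : (⟨a - b, 1⟩ : Aff T V) = ⟨a, t⟩ * (⟨b, t⟩ : Aff T V)⁻¹ := by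
      ext <;> simp [sub_eq_add_neg]
    rw [this]
    exact L.mul_mem ha (L.inv_mem hb)
  have hstab : ∀ (t : T), ∀ w ∈ Mo, t • w ∈ Mo := by
    intro t w hw
    rw [hMo] at hw ⊢
    have : (⟨t • w, 1⟩ : Aff T V) = ⟨c t, t⟩ * ⟨w, 1⟩ * (⟨c t, t⟩ : Aff T V)⁻¹ := by
      ext <;> simp
    rw [this]
    exact L.mul_mem (L.mul_mem (hc t) hw) (L.inv_mem (hc t))
  set S : V := ∑ t : T, c t with hS
  have hcoc : ∀ s : T, S - (Fintype.card T • c s + s • S) ∈ Mo := by
    intro s
    have h1 : S = ∑ t : T, c (s * t) := (Equiv.sum_comp (Equiv.mulLeft s) c).symm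
    have h2 : S - (Fintype.card T • c s + s • S) = ∑ t : T, (c (s * t) - (c s + s • c t)) := by
      rw [Finset.sum_sub_distrib, ← h1, Finset.sum_add_distrib, Finset.sum_const,
        Finset.card_univ, ← Finset.smul_sum]
    rw [h2]
    refine AddSubgroup.sum_mem _ fun t _ => huniq (s * t) _ _ (hc _) ?_
    have : (⟨c s + s • c t, s * t⟩ : Aff T V) = ⟨c s, s⟩ * ⟨c t, t⟩ := by ext <;> simp
    rw [this]
    exact L.mul_mem (hc s) (hc t)
  have hcx : c x ∈ Mo := by
    have := huniq x (c x) 0 (hc x) hx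
    simpa using this
  have hxS : ∀ j : ℕ, x ^ j • S - S ∈ Mo := by
    have h1 : x • S - S ∈ Mo := by
      have h2 := hcoc x
      have h3 := Mo.add_mem h2 (Mo.nsmul_mem hcx (Fintype.card T))
      have h4 := Mo.neg_mem h3
      convert h4 using 1
      abel
    intro j
    induction j with
    | zero => simp [Mo.zero_mem]
    | succ j ih =>
      have h2 := Mo.add_mem (hstab (x ^ j) _ h1) ih
      convert h2 using 1
      rw [smul_sub, smul_smul, ← pow_succ]
      abel
  have hnS : n • S ∈ Mo := by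
    have h1 : ∑ j ∈ Finset.range n, (x ^ j • S - S) ∈ Mo :=
      AddSubgroup.sum_mem _ fun j _ => hxS j
    rw [Finset.sum_sub_distrib, hnorm, zero_sub, Finset.sum_const, Finset.card_range] at h1
    simpa using Mo.neg_mem h1
  have hSM : S ∈ Mo := mem_of_nsmul_mem p Mo S (hpV S) n hn hnS
  have hcy : c y ∈ Mo := by
    refine mem_of_nsmul_mem p Mo (c y) (hpV _) (Fintype.card T) ?_ ?_
    · rw [← Nat.card_eq_fintype_card]; exact hpT
    · have h1 := hcoc y
      have h2 := Mo.sub_mem (Mo.sub_mem hSM (hstab y _ hSM)) h1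
      convert h2 using 1
      abel
  have hv0M : v0 ∈ Mo := by
    have h1 := huniq y v0 (c y) hy (hc y)
    have h2 := Mo.add_mem h1 hcy
    simpa using h2
  have hMtop := hv0 Mo hstab hv0M
  rw [eq_top_iff]
  rintro ⟨v, t⟩ -
  have h1 : v - c t ∈ Mo := by rw [hMtop]; trivial
  have : (⟨v, t⟩ : Aff T V) = ⟨v - c t, 1⟩ * ⟨c t, t⟩ := by ext <;> simp
  rw [this]
  exact L.mul_mem h1 (hc t)

end Pool.Agent.Lib.MP_5cc0c1_al
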