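import Mathlib

/-!
# MP_5cc0c1_al : definitions of the construction

`G = V ⋊ T`, `T = (X → Ico) ⋊ SL₂(𝔽_q)`, `X = ℙ¹(𝔽_q)`, `Ico ≤ SL₂(ℤ[ζ₅])` the binary icosahedral
group, `V = ⨂_{x ∈ X} (ℤ[ζ₅]/p)²`.
-/

namespace Pool.Agent.Lib.MP_5cc0c1_al

/-! ### The ring `K[ζ] = K[z]/(1+z+z²+z³+z⁴)` -/

/-- `⟨a,b,c,d⟩ = a + bζ + cζ² + dζ³`. -/
@[ext] structure C5 (K : Type) where
  a : K
  b : K
  c : K
  d : K

namespace C5

variable {K L : Type} [CommRing K] [CommRing L]

instance : Zero (C5 K) := ⟨⟨0, 0, 0, 0⟩⟩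
instance : One (C5 K) := ⟨⟨1, 0, 0, 0⟩⟩
instance : Add (C5 K) := ⟨fun x y => ⟨x.a + y.a, x.b + y.b, x.c + y.c, x.d + y.d⟩⟩
instance : Neg (C5 K) := ⟨fun x => ⟨-x.a, -x.b, -x.c, -x.d⟩⟩
instance : Sub (C5 K) := ⟨fun x y => ⟨x.a - y.a, x.b - y.b, x.c - y.c, x.d - y.d⟩⟩
instance : Mul (C5 K) := ⟨fun x y =>
  ⟨x.a * y.a - (x.b * y.d + x.c * y.c + x.d * y.b) + (x.c * y.d + x.d * y.c),
   (x.a * y.b + x.b * y.a) - (x.b * y.d + x.c * y.c + x.d * y.b) + x.d * y.d,
   (x.a * y.c + x.b * y.b + x.c * y.a) - (x.b * y.d + x.c * y.c + x.d * y.b),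
   (x.a * y.d + x.b * y.c + x.c * y.b + x.d * y.a) - (x.b * y.d + x.c * y.c + x.d * y.b)⟩⟩

@[simp] theorem zero_a : (0 : C5 K).a = 0 := rfl
@[simp] theorem zero_b : (0 : C5 K).b = 0 := rfl
@[simp] theorem zero_c : (0 : C5 K).c = 0 := rfl
@[simp] theorem zero_d : (0 : C5 K).d = 0 := rfl
@[simp] theorem one_a : (1 : C5 K).a = 1 := rfl
@[simp] theorem one_b : (1 : C5 K).b = 0 := rfl
@[simp] theorem one_c : (1 : C5 K).c = 0 := rfl
@[simp] theorem one_d : (1 : C5 K).d = 0 := rfl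
@[simp] theorem add_a (x y : C5 K) : (x + y).a = x.a + y.a := rfl
@[simp] theorem add_b (x y : C5 K) : (x + y).b = x.b + y.b := rfl
@[simp] theorem add_c (x y : C5 K) : (x + y).c = x.c + y.c := rfl
@[simp] theorem add_d (x y : C5 K) : (x + y).d = x.d + y.d := rfl
@[simp] theorem neg_a (x : C5 K) : (-x).a = -x.a := rfl
@[simp] theorem neg_b (x : C5 K) : (-x).b = -x.b := rfl
@[simp] theorem neg_c (x : C5 K) : (-x).c = -x.c := rfl
@[simp] theorem neg_d (x : C5 K) : (-x).d = -x.d := rfl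
@[simp] theorem sub_a (x y : C5 K) : (x - y).a = x.a - y.a := rfl
@[simp] theorem sub_b (x y : C5 K) : (x - y).b = x.b - y.b := rfl
@[simp] theorem sub_c (x y : C5 K) : (x - y).c = x.c - y.c := rfl
@[simp] theorem sub_d (x y : C5 K) : (x - y).d = x.d - y.d := rfl
@[simp] theorem mul_a (x y : C5 K) : (x * y).a =
  x.a * y.a - (x.b * y.d + x.c * y.c + x.d * y.b) + (x.c * y.d + x.d * y.c) := rfl
@[simp] theorem mul_b (x y : C5 K) : (x * y).b =
  (x.a * y.b + x.b * y.a) - (x.b * y.d + x.c * y.c + x.d * y.b) + x.d * y.d := rfl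
@[simp] theorem mul_c (x y : C5 K) : (x * y).c =
  (x.a * y.c + x.b * y.b + x.c * y.a) - (x.b * y.d + x.c * y.c + x.d * y.b) := rfl
@[simp] theorem mul_d (x y : C5 K) : (x * y).d =
  (x.a * y.d + x.b * y.c + x.c * y.b + x.d * y.a) - (x.b * y.d + x.c * y.c + x.d * y.b) := rfl

instance : CommRing (C5 K) where
  zero := 0
  one := 1
  add := (· + ·)
  neg := Neg.neg
  sub := Sub.sub
  mul := (· * ·)
  nsmul := nsmulRec
  zsmul := zsmulRec
  add_assoc x y z := by ext <;> simp <;> ring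
  zero_add x := by ext <;> simp
  add_zero x := by ext <;> simp
  add_comm x y := by ext <;> simp <;> ring
  neg_add_cancel x := by ext <;> simp
  sub_eq_add_neg x y := by ext <;> simp <;> ring
  left_distrib x y z := by ext <;> simp <;> ring
  right_distrib x y z := by ext <;> simp <;> ring
  zero_mul x := by ext <;> simp
  mul_zero x := by ext <;> simp
  mul_assoc x y z := by ext <;> simp <;> ring
  one_mul x := by ext <;> simp
  mul_one x := by ext <;> simp
  mul_comm x y := by ext <;> simp <;> ring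

/-- The primitive fifth root of unity `ζ`. -/
def ζ : C5 K := ⟨0, 1, 0, 0⟩

@[simp] theorem zeta_a : (ζ : C5 K).a = 0 := rfl
@[simp] theorem zeta_b : (ζ : C5 K).b = 1 := rfl
@[simp] theorem zeta_c : (ζ : C5 K).c = 0 := rfl
@[simp] theorem zeta_d : (ζ : C5 K).d = 0 := rfl

theorem zeta_rel : (1 : C5 K) + ζ + ζ ^ 2 + ζ ^ 3 + ζ ^ 4 = 0 := by
  ext <;> simp [pow_succ]

theorem zeta_pow_five : (ζ : C5 K) ^ 5 = 1 := by
  ext <;> simp [pow_succ]

/-- Functoriality in the coefficients. -/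
def map (f : K →+* L) : C5 K →+* C5 L where
  toFun x := ⟨f x.a, f x.b, f x.c, f x.d⟩
  map_zero' := by ext <;> simp
  map_one' := by ext <;> simp
  map_add' x y := by ext <;> simp
  map_mul' x y := by ext <;> simp

@[simp] theorem map_a (f : K →+* L) (x : C5 K) : (map f x).a = f x.a := rfl
@[simp] theorem map_b (f : K →+* L) (x : C5 K) : (map f x).b = f x.b := rfl
@[simp] theorem map_c (f : K →+* L) (x : C5 K) : (map f x).c = f x.c := rfl
@[simp] theorem map_d (f : K →+* L) (x : C5 K) : (map f x).d = f x.d := rfl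

theorem map_zeta (f : K →+* L) : map f ζ = ζ := by ext <;> simp

end C5

/-- The ring `ℤ[ζ₅]`. -/
abbrev R : Type := C5 ℤ

/-- `ℤ[ζ]/p` as a module over `ℤ[ζ]`. -/
instance instModR (p : ℕ) : Module R (C5 (ZMod p)) :=
  Module.compHom (C5 (ZMod p)) (C5.map (Int.castRingHom (ZMod p)))

theorem R_smul_def (p : ℕ) (r : R) (x : C5 (ZMod p)) :
    r • x = C5.map (Int.castRingHom (ZMod p)) r * x := rfl

/-! ### The binary icosahedral group inside `SL₂(ℤ[ζ₅])` -/

open Matrix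

/-- First generator, of order 5. -/
def sM : SpecialLinearGroup (Fin 2) R :=
  ⟨!![C5.ζ ^ 3, C5.ζ ^ 2; 0, C5.ζ ^ 2], by
    rw [Matrix.det_fin_two_of]; ext <;> simp [pow_succ]⟩

/-- Second generator, of order 5. -/
def tM : SpecialLinearGroup (Fin 2) R :=
  ⟨!![C5.ζ ^ 2, 0; -C5.ζ ^ 3, C5.ζ ^ 3], by
    rw [Matrix.det_fin_two_of]; ext <;> simp [pow_succ]⟩

/-- The binary icosahedral group. -/
abbrev IcoS : Subgroup (SpecialLinearGroup (Fin 2) R) := Subgroup.closure {sM, tM}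

/-- The binary icosahedral group. -/
abbrev Ico : Type := ↥IcoS

def sI : Ico := ⟨sM, Subgroup.subset_closure (by simp)⟩
def tI : Ico := ⟨tM, Subgroup.subset_closure (by simp)⟩

/-- The matrix entry of an element of `Ico`. -/
def ent (g : Ico) (i j : Fin 2) : R := g.1.1 i j

/-! ### The tensor power -/

/-- `Tens X M = (R²)^{⊗X} ⊗_R M`. -/
def Tens (X M : Type) : Type := (X → Fin 2) → M

instance (X M : Type) [AddCommGroup M] : AddCommGroup (Tens X M) :=
  inferInstanceAs (AddCommGroup ((X → Fin 2) → M))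

instance (X M : Type) [AddCommGroup M] [Module R M] : Module R (Tens X M) :=
  inferInstanceAs (Module R ((X → Fin 2) → M))

section act

variable {X : Type} [Fintype X] [DecidableEq X] {M : Type} [AddCommGroup M] [Module R M]

/-- Action of `Ico^X` on the tensor power. -/
def act (f : X → Ico) (w : Tens X M) : Tens X M :=
  fun a => ∑ b : X → Fin 2, (∏ x, ent (f x) (a x) (b x)) • w b

end act

end Pool.Agent.Lib.MP_5cc0c1_al
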