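import Pool.Agent.Lib.MP_5cc0c1_al.Ico

/-!
# MP_5cc0c1_al : subgroups of `Ico^X` fixing a nonzero vector of the tensor power have index `≥ 5^|X|`
-/

namespace Pool.Agent.Lib.MP_5cc0c1_al

open Matrix

namespace FixIndex

/-- every subgroup with an eigenvector has index at least `n` -/
def Good {T V : Type} [Group T] [AddCommGroup V] [Module R V] (ρ : T →* Module.End R V)
    (n : ℕ) : Prop :=
  ∀ (H : Subgroup T) (v : V), v ≠ 0 → (∀ h ∈ H, ∃ c : R, ρ h v = c • v) → n ≤ H.index

/-- proper subgroups of `Ico` have index at least 5 -/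
theorem Ico_index (P : Subgroup Ico) (hP : P ≠ ⊤) : 5 ≤ P.index := by
  by_contra hlt
  push Not at hlt
  apply hP
  have hne : P.index ≠ 0 := Subgroup.index_ne_zero_of_finite
  have : Finite (Ico ⧸ P) := inferInstance
  have : Fintype (Ico ⧸ P) := Fintype.ofFinite _
  classical
  let φ : Ico →* Equiv.Perm (Ico ⧸ P) := MulAction.toPermHom Ico (Ico ⧸ P)
  have hcard : Nat.card (Equiv.Perm (Ico ⧸ P)) = (P.index).factorial := by
    rw [Nat.card_perm]
    rfl
  have key : ∀ g : Ico, g ^ 5 = 1 → φ g = 1 := by
    intro g hg
    have h1 : φ g ^ 5 = 1 := by rw [← map_pow, hg, map_one]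
    have h2 : φ g ^ (P.index).factorial = 1 := by
      rw [← hcard]
      exact pow_card_eq_one'
    have h3 : Nat.Coprime 5 (P.index).factorial := by
      have h4 : P.index = 1 ∨ P.index = 2 ∨ P.index = 3 ∨ P.index = 4 := by omega
      rcases h4 with h | h | h | h <;> rw [h] <;> decide
    have h5 : orderOf (φ g) ∣ Nat.gcd 5 (P.index).factorial :=
      Nat.dvd_gcd (orderOf_dvd_of_pow_eq_one h1) (orderOf_dvd_of_pow_eq_one h2)
    rw [h3.gcd_eq_one] at h5
    exact orderOf_eq_one_iff.1 (Nat.dvd_one.1 h5)
  have hker : φ.ker = ⊤ := by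
    rw [eq_top_iff, ← closure_sI_tI, Subgroup.closure_le]
    rintro g hg
    rcases hg with hg | hg
    · subst hg
      exact key _ sI_pow
    · rw [Set.mem_singleton_iff] at hg
      subst hg
      exact key _ tI_pow
  rw [eq_top_iff]
  intro g _
  have h1 : φ g = 1 := by
    have : g ∈ φ.ker := by rw [hker]; trivial
    exact this
  have h2 : φ g ((1 : Ico) : Ico ⧸ P) = ((1 : Ico) : Ico ⧸ P) := by rw [h1]; rfl
  have h3 : ((g * 1 : Ico) : Ico ⧸ P) = ((1 : Ico) : Ico ⧸ P) := h2
  rw [QuotientGroup.eq] at h3
  simpa using h3

/-- the representation of `Ico × T` on `R² ⊗ V` -/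
def stepRep {T V : Type} [Group T] [AddCommGroup V] [Module R V] (ρ : T →* Module.End R V) :
    Ico × T →* Module.End R (Fin 2 → V) where
  toFun p :=
    { toFun := fun v i => ∑ j, ent p.1 i j • ρ p.2 (v j)
      map_add' := by
        intro v w
        funext i
        simp [smul_add, Finset.sum_add_distrib]
      map_smul' := by
        intro r v
        funext i
        simp only [Pi.smul_apply, map_smul, RingHom.id_apply, Finset.smul_sum]
        exact Finset.sum_congr rfl fun j _ => smul_comm _ _ _ }
  map_one' := by
    ext v i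
    simp [ent_one]
  map_mul' p q := by
    apply LinearMap.ext
    intro v
    funext i
    simp only [LinearMap.coe_mk, AddHom.coe_mk, Prod.fst_mul, Prod.snd_mul, map_mul,
      Module.End.mul_apply, ent_mul, Finset.sum_smul, map_sum, map_smul, Finset.smul_sum]
    rw [Finset.sum_comm]
    refine Finset.sum_congr rfl fun k _ => Finset.sum_congr rfl fun j _ => ?_
    rw [smul_smul]

theorem stepRep_apply {T V : Type} [Group T] [AddCommGroup V] [Module R V]
    (ρ : T →* Module.End R V) (p : Ico × T) (v : Fin 2 → V) (i : Fin 2) :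
    stepRep ρ p v i = ent p.1 i 0 • ρ p.2 (v 0) + ent p.1 i 1 • ρ p.2 (v 1) := by
  change ∑ j, ent p.1 i j • ρ p.2 (v j) = _
  rw [Fin.sum_univ_two]

theorem rho_inj {T V : Type} [Group T] [AddCommGroup V] [Module R V]
    (ρ : T →* Module.End R V) (t : T) (v : V) (h : ρ t v = 0) : v = 0 := by
  have h1 : ρ t⁻¹ (ρ t v) = v := by
    rw [← Module.End.mul_apply, ← map_mul, inv_mul_cancel, map_one, Module.End.one_apply]
  rw [← h1, h, map_zero]

theorem index_ge {T : Type} [Group T] [Finite T] (H : Subgroup (Ico × T)) :
    (H.map (MonoidHom.fst Ico T)).index * (H.comap (MonoidHom.inr Ico T)).index ≤ H.index := by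
  set P := H.map (MonoidHom.fst Ico T) with hP
  have h1 : H ≤ P.comap (MonoidHom.fst Ico T) := Subgroup.le_comap_map _ _
  rw [← Subgroup.relIndex_mul_index h1, mul_comm]
  have h2 : (P.comap (MonoidHom.fst Ico T)).index = P.index :=
    Subgroup.index_comap_of_surjective _ (fun x => ⟨(x, 1), rfl⟩)
  rw [h2]
  apply Nat.mul_le_mul_right
  rw [Subgroup.index_comap]
  apply Subgroup.relIndex_le_of_le_right
  · rintro x ⟨t, rfl⟩
    change (MonoidHom.fst Ico T) (MonoidHom.inr Ico T t) ∈ P
    simp
  · exact Subgroup.index_ne_zero_of_finite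

theorem step {T V : Type} [Group T] [Finite T] [AddCommGroup V] [Module R V]
    (h2 : ∀ v : V, v + v = 0 → v = 0) (ρ : T →* Module.End R V) (n : ℕ) (hG : Good ρ n) :
    Good (stepRep ρ) (5 * n) := by
  intro H v hv hH
  set P := H.map (MonoidHom.fst Ico T) with hPdef
  set K' := H.comap (MonoidHom.inr Ico T) with hK'def
  have hidx : P.index * K'.index ≤ H.index := index_ge H
  have hvi : ∃ i, v i ≠ 0 := by
    by_contra hcon
    push Not at hcon
    exact hv (funext hcon)
  have hK'mem : ∀ t, t ∈ K' ↔ ((1 : Ico), t) ∈ H := fun t => Iff.rfl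
  have hK'eig : ∀ i, ∀ t ∈ K', ∃ c : R, ρ t (v i) = c • v i := by
    intro i t ht
    obtain ⟨c, hc⟩ := hH _ ((hK'mem t).1 ht)
    refine ⟨c, ?_⟩
    have := congrFun hc i
    rw [stepRep_apply] at this
    fin_cases i <;> simpa [ent_one] using this
  by_cases hP : P = ⊤
  · -- the main case
    set K1 := H.comap (MonoidHom.inl Ico T) with hK1def
    have hK1mem : ∀ g, g ∈ K1 ↔ (g, (1 : T)) ∈ H := fun t => Iff.rfl
    have hproj : ∀ x : Ico, ∃ t : T, (x, t) ∈ H := by
      intro x
      have hx : x ∈ P := by rw [hP]; trivial
      obtain ⟨⟨y, t⟩, hy, hyx⟩ := hx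
      have : y = x := hyx
      subst this
      exact ⟨t, hy⟩
    have hK1norm : ∀ g ∈ K1, ∀ x : Ico, x * g * x⁻¹ ∈ K1 := by
      intro g hg x
      obtain ⟨t, ht⟩ := hproj x
      rw [hK1mem] at hg ⊢
      have := H.mul_mem (H.mul_mem ht hg) (H.inv_mem ht)
      simpa using this
    by_cases hK1 : K1 = ⊤
    · -- impossible
      exfalso
      have hall : ∀ g : Ico, ∃ c : R, stepRep ρ (g, 1) v = c • v := by
        intro g
        exact hH _ ((hK1mem g).1 (by rw [hK1]; trivial))
      let F : Subgroup Ico :=
        { carrier := {g | stepRep ρ (g, 1) v = v}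
          mul_mem' := by
            intro a b ha hb
            have hab : ((a * b, 1) : Ico × T) = (a, 1) * (b, 1) := by simp
            change stepRep ρ (a * b, 1) v = v
            rw [hab, map_mul, Module.End.mul_apply, hb, ha]
          one_mem' := by
            change stepRep ρ (1, 1) v = v
            have : ((1, 1) : Ico × T) = 1 := rfl
            rw [this, map_one, Module.End.one_apply]
          inv_mem' := by
            intro a ha
            have ha' : stepRep ρ (a, 1) v = v := ha
            change stepRep ρ (a⁻¹, 1) v = v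
            conv_lhs => rw [← ha']
            have hab : ((a⁻¹, 1) : Ico × T) * (a, 1) = 1 := by
              simp
            rw [← Module.End.mul_apply, ← map_mul, hab, map_one, Module.End.one_apply] }
      have hFmem : ∀ g, g ∈ F ↔ stepRep ρ (g, 1) v = v := fun g => Iff.rfl
      have hF : F = ⊤ := by
        rw [eq_top_iff, ← Ico_perfect, commutator_def, Subgroup.commutator_le]
        intro g _ h _
        rw [commutatorElement_def, hFmem]
        obtain ⟨a, ha⟩ := hall g
        obtain ⟨b, hb⟩ := hall h
        obtain ⟨a', ha'⟩ := hall g⁻¹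
        obtain ⟨b', hb'⟩ := hall h⁻¹
        have haa : (a' * a) • v = v := by
          have e1 : ((g, 1) : Ico × T) * (g⁻¹, 1) = 1 := by simp
          have e2 : stepRep ρ (g, 1) (stepRep ρ (g⁻¹, 1) v) = v := by
            rw [← Module.End.mul_apply, ← map_mul, e1, map_one, Module.End.one_apply]
          rw [ha', map_smul, ha, smul_smul] at e2
          exact e2
        have hbb : (b' * b) • v = v := by
          have e1 : ((h, 1) : Ico × T) * (h⁻¹, 1) = 1 := by simp
          have e2 : stepRep ρ (h, 1) (stepRep ρ (h⁻¹, 1) v) = v := by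
            rw [← Module.End.mul_apply, ← map_mul, e1, map_one, Module.End.one_apply]
          rw [hb', map_smul, hb, smul_smul] at e2
          exact e2
        have e3 : ((g * h * g⁻¹ * h⁻¹, 1) : Ico × T) =
            (g, 1) * (h, 1) * (g⁻¹, 1) * (h⁻¹, 1) := by
          simp
        rw [e3, map_mul, map_mul, map_mul, Module.End.mul_apply, Module.End.mul_apply,
          Module.End.mul_apply, hb']
        simp only [map_smul, ha', hb, ha, smul_smul]
        have e4 : b' * (a' * (b * a)) = (a' * a) * (b' * b) := by ring
        first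
          | (rw [e4, mul_smul, hbb, haa])
          | (have e5 : b' * a' * b * a = (a' * a) * (b' * b) := by ring
             rw [e5, mul_smul, hbb, haa])
      obtain ⟨z, hz⟩ := exists_neg
      have hzF : stepRep ρ (z, 1) v = v := by
        rw [← hFmem, hF]; trivial
      obtain ⟨i, hi⟩ := hvi
      apply hi
      apply h2
      have h3 := congrFun hzF i
      rw [stepRep_apply, hz, hz] at h3
      have h4 : -(v i) = v i := by
        fin_cases i <;> simpa using h3
      calc v i + v i = v i + -(v i) := by rw [h4]
        _ = 0 := add_neg_cancel _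
    · have hs : sI ∉ K1 := by
        intro hs
        apply hK1
        have ht : tI ∈ K1 := by
          have h3 := hK1norm sI hs (sI * tI)
          have h4 : sI * tI * sI * (sI * tI)⁻¹ = tI := by
            rw [braid]
            group
          rwa [h4] at h3
        rw [eq_top_iff, ← closure_sI_tI, Subgroup.closure_le]
        rintro g hg
        rcases hg with hg | hg
        · subst hg
          exact hs
        · rw [Set.mem_singleton_iff] at hg
          subst hg
          exact ht
      obtain ⟨t0, ht0⟩ := hproj sI
      have hζ : (C5.ζ : R) ^ 3 * C5.ζ ^ 2 = 1 := by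
        rw [← pow_add]
        exact C5.zeta_pow_five
      have ht0eig : ∃ c : R, ρ t0 (v 1) = c • v 1 := by
        obtain ⟨c, hc⟩ := hH _ ht0
        have h3 := congrFun hc 1
        rw [stepRep_apply] at h3
        have e0 : ent sI 1 0 = 0 := rfl
        have e1 : ent sI 1 1 = C5.ζ ^ 2 := rfl
        simp only [e0, e1, zero_smul, zero_add, Pi.smul_apply] at h3
        refine ⟨C5.ζ ^ 3 * c, ?_⟩
        rw [mul_smul, ← h3, smul_smul, hζ, one_smul]
      have hv1 : v 1 ≠ 0 := by
        intro hv1
        obtain ⟨τ, hτ⟩ := hproj tI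
        obtain ⟨c, hc⟩ := hH _ hτ
        have h3 := congrFun hc 1
        rw [stepRep_apply] at h3
        have e0 : ent tI 1 0 = - C5.ζ ^ 3 := rfl
        simp only [e0, hv1, map_zero, smul_zero, add_zero, Pi.smul_apply, neg_smul,
          neg_eq_zero] at h3
        have h4 : ρ τ (v 0) = 0 := by
          have h5 : (C5.ζ : R) ^ 2 • ((C5.ζ : R) ^ 3 • ρ τ (v 0)) = 0 := by rw [h3, smul_zero]
          rw [smul_smul, mul_comm, hζ, one_smul] at h5
          exact h5
        have h5 := rho_inj ρ τ _ h4
        obtain ⟨i, hi⟩ := hvi
        fin_cases i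
        · exact hi h5
        · exact hi hv1
      -- the eigen subgroup
      let E : Subgroup T :=
        { carrier := {t | ∃ c : R, ρ t (v 1) = c • v 1}
          mul_mem' := by
            rintro a b ⟨x, hx⟩ ⟨y, hy⟩
            exact ⟨y * x, by rw [map_mul, Module.End.mul_apply, hy, map_smul, hx, smul_smul]⟩
          one_mem' := ⟨1, by rw [map_one, Module.End.one_apply, one_smul]⟩
          inv_mem' := by
            rintro a ⟨x, hx⟩
            have h3 : a⁻¹ ∈ Submonoid.powers a :=
              (isOfFinOrder_of_finite a).mem_powers_iff_mem_zpowers.2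
                (Subgroup.inv_mem _ (Subgroup.mem_zpowers a))
            obtain ⟨k, hk⟩ := h3
            have hk' : a ^ k = a⁻¹ := hk
            change ∃ c : R, ρ a⁻¹ (v 1) = c • v 1
            rw [← hk']
            refine ⟨x ^ k, ?_⟩
            clear hk hk'
            induction k with
            | zero => simp
            | succ k ih =>
              rw [pow_succ, map_mul, Module.End.mul_apply, hx, map_smul, ih, smul_smul,
                pow_succ, mul_comm] }
      set L := K' ⊔ Subgroup.zpowers t0 with hLdef
      have hLE : L ≤ E := by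
        rw [hLdef, sup_le_iff]
        constructor
        · intro t ht
          exact hK'eig 1 t ht
        · rw [Subgroup.zpowers_le]
          exact ht0eig
      have hLidx : n ≤ L.index := hG L (v 1) hv1 (fun h hh => hLE hh)
      have ht0L : t0 ∈ L := by
        apply Subgroup.mem_sup_right
        exact Subgroup.mem_zpowers t0
      have hK'L : K' ≤ L := le_sup_left
      have hpow : ∀ j : ℕ, 0 < j → j < 5 → t0 ^ j ∉ K' := by
        intro j hj0 hj5 hmem
        rw [hK'mem] at hmem
        have h3 : (sI ^ j, (1 : T)) ∈ H := by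
          have h4 := H.mul_mem (H.pow_mem ht0 j) (H.inv_mem hmem)
          simpa using h4
        have h5 : sI ^ j ∈ K1 := (hK1mem _).2 h3
        apply hs
        have h6 : sI ^ 5 = 1 := sI_pow
        interval_cases j
        · simpa using h5
        · have h7 := K1.pow_mem h5 3
          have h8 : (sI ^ 2) ^ 3 = sI := by
            rw [← pow_mul, show 2 * 3 = 5 + 1 from rfl, pow_add, h6, one_mul, pow_one]
          rwa [h8] at h7
        · have h7 := K1.pow_mem h5 2
          have h8 : (sI ^ 3) ^ 2 = sI := by
            rw [← pow_mul, show 3 * 2 = 5 + 1 from rfl, pow_add, h6, one_mul, pow_one]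
          rwa [h8] at h7
        · have h7 := K1.inv_mem h5
          have h8 : (sI ^ 4)⁻¹ = sI := by
            rw [inv_eq_iff_mul_eq_one, ← pow_succ, h6]
          rwa [h8] at h7
      have hrel : 5 ≤ K'.relIndex L := by
        let φ : Fin 5 → L ⧸ (K'.subgroupOf L) := fun j =>
          QuotientGroup.mk ⟨t0 ^ (j : ℕ), L.pow_mem ht0L _⟩
        have hφ : Function.Injective φ := by
          have haux : ∀ i j : Fin 5, (i : ℕ) < j → φ i ≠ φ j := by
            intro i j hij heq
            have h3 : (⟨t0 ^ (i : ℕ), L.pow_mem ht0L _⟩ : L)⁻¹ * ⟨t0 ^ (j : ℕ), L.pow_mem ht0L _⟩ ∈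
              K'.subgroupOf L := QuotientGroup.eq.1 heq
            rw [Subgroup.mem_subgroupOf] at h3
            apply hpow (j - i) (by omega) (by omega)
            have h4 : t0 ^ ((j : ℕ) - i) = (t0 ^ (i : ℕ))⁻¹ * t0 ^ (j : ℕ) := by
              rw [eq_inv_mul_iff_mul_eq, ← pow_add]
              congr 1
              omega
            rw [h4]
            exact h3
          intro i j hij
          by_contra hne
          rcases lt_or_gt_of_ne (fun h => hne (Fin.ext h) : (i : ℕ) ≠ j) with h | h
          · exact haux i j h hij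
          · exact haux j i h hij.symm
        have h3 := Nat.card_le_card_of_injective φ hφ
        simpa [Subgroup.relIndex, Subgroup.index] using h3
      have h3 : K'.relIndex L * L.index = K'.index := Subgroup.relIndex_mul_index hK'L
      calc 5 * n ≤ K'.relIndex L * L.index := Nat.mul_le_mul hrel hLidx
        _ = K'.index := h3
        _ = P.index * K'.index := by rw [hP, Subgroup.index_top, one_mul]
        _ ≤ H.index := hidx
  · have h5 : 5 ≤ P.index := Ico_index P hP
    obtain ⟨i, hi⟩ := hvi
    have hn : n ≤ K'.index := hG K' (v i) hi (hK'eig i)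
    exact (Nat.mul_le_mul h5 hn).trans hidx

/-- transfer along an isomorphism -/
theorem Good.transfer {T T' V V' : Type} [Group T] [Group T'] [AddCommGroup V] [Module R V]
    [AddCommGroup V'] [Module R V'] {ρ : T →* Module.End R V} {ρ' : T' →* Module.End R V'}
    {n : ℕ} (hG : Good ρ' n) (e : T ≃* T') (ψ : V →ₗ[R] V') (hψ : Function.Injective ψ)
    (h : ∀ t v, ψ (ρ t v) = ρ' (e t) (ψ v)) : Good ρ n := by
  intro H v hv hH
  have h1 : (H.map (e : T →* T')).index = H.index := by
    rw [Subgroup.map_equiv_eq_comap_symm]
    exact Subgroup.index_comap_of_surjective _ e.symm.surjective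
  rw [← h1]
  apply hG (H.map (e : T →* T')) (ψ v)
  · intro h0
    exact hv (hψ (by rw [h0, map_zero]))
  · rintro _ ⟨t, ht, rfl⟩
    obtain ⟨c, hc⟩ := hH t ht
    refine ⟨c, ?_⟩
    have := h t v
    rw [hc, map_smul] at this
    exact this.symm

/-- The representation of `Ico^X`. -/
def actRep (X : Type) [Fintype X] [DecidableEq X] (M : Type) [AddCommGroup M] [Module R M] :
    (X → Ico) →* Module.End R (Tens X M) where
  toFun f :=
    { toFun := act f
      map_add' := act_add f
      map_smul' := fun r w => act_smul f r w }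
  map_one' := by
    apply LinearMap.ext
    intro w
    exact act_one w
  map_mul' f g := by
    apply LinearMap.ext
    intro w
    exact act_mul f g w

theorem good_of_equiv {X Y : Type} [Fintype X] [DecidableEq X] [Fintype Y] [DecidableEq Y]
    {M : Type} [AddCommGroup M] [Module R M] (e : X ≃ Y) (n : ℕ) (hG : Good (actRep Y M) n) :
    Good (actRep X M) n := by
  let eT : (X → Ico) ≃* (Y → Ico) :=
    { toFun := fun f y => f (e.symm y)
      invFun := fun f x => f (e x)
      left_inv := fun f => by funext x; simp
      right_inv := fun f => by funext x; simp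
      map_mul' := fun f g => rfl }
  let ψ : Tens X M →ₗ[R] Tens Y M :=
    { toFun := fun w b => w (fun x => b (e x))
      map_add' := fun v w => rfl
      map_smul' := fun r w => rfl }
  refine hG.transfer eT ψ ?_ ?_
  · intro v w h
    apply Tens.ext
    intro a
    have h1 := congrFun h (fun y => a (e.symm y))
    simpa [ψ] using h1
  · intro f w
    apply Tens.ext
    intro a
    change act f w (fun x => a (e x)) = act (eT f) (ψ w) a
    rw [act_apply, act_apply]
    let eb : (X → Fin 2) ≃ (Y → Fin 2) :=
      { toFun := fun b y => b (e.symm y)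
        invFun := fun b x => b (e x)
        left_inv := fun b => by funext x; simp
        right_inv := fun b => by funext x; simp }
    refine Fintype.sum_equiv eb _ _ fun b => ?_
    congr 1
    · refine Fintype.prod_equiv e _ _ fun x => ?_
      simp [eT, eb]
    · change w b = w (fun x => eb b (e x))
      congr 1
      funext x
      simp [eb]

theorem good_fin {M : Type} [AddCommGroup M] [Module R M]
    (h2 : ∀ m : M, m + m = 0 → m = 0) (n : ℕ) : Good (actRep (Fin n) M) (5 ^ n) := by
  induction n with
  | zero =>
    intro H v _ _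
    rw [pow_zero]
    exact Nat.one_le_iff_ne_zero.2 Subgroup.index_ne_zero_of_finite
  | succ n ih =>
    have h2' : ∀ v : Tens (Fin n) M, v + v = 0 → v = 0 := by
      intro v hv
      apply Tens.ext
      intro a
      exact h2 _ (congrFun hv a)
    have hstep := step h2' (actRep (Fin n) M) (5 ^ n) ih
    rw [pow_succ, mul_comm]
    let eT : (Fin (n + 1) → Ico) ≃* Ico × (Fin n → Ico) :=
      { toFun := fun f => (f 0, fun i => f i.succ)
        invFun := fun p => Fin.cons p.1 p.2
        left_inv := fun f => by
          funext x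
          refine Fin.cases ?_ (fun i => ?_) x <;> simp
        right_inv := fun p => by
          ext <;> simp
        map_mul' := fun f g => rfl }
    let ψ : Tens (Fin (n + 1)) M →ₗ[R] (Fin 2 → Tens (Fin n) M) :=
      { toFun := fun w i b => w (Fin.cons i b)
        map_add' := fun v w => rfl
        map_smul' := fun r w => rfl }
    refine hstep.transfer eT ψ ?_ ?_
    · intro v w h
      apply Tens.ext
      intro a
      have h1 := congrFun (congrFun h (a 0)) (fun i => a i.succ)
      have h3 : (Fin.cons (a 0) (fun i => a i.succ) : Fin (n + 1) → Fin 2) = a := by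
        funext x
        refine Fin.cases ?_ (fun i => ?_) x <;> simp
      have h4 : v (Fin.cons (a 0) (fun i => a i.succ)) = w (Fin.cons (a 0) (fun i => a i.succ)) :=
        h1
      rwa [h3] at h4
    · intro f w
      funext i
      apply Tens.ext
      intro a
      change act f w (Fin.cons i a) =
        (∑ j, ent (f 0) i j • act (fun i => f i.succ) (ψ w j)) a
      have hsum : (∑ j, ent (f 0) i j • act (fun i => f i.succ) (ψ w j)) a =
          ∑ j, ent (f 0) i j • (act (fun i => f i.succ) (ψ w j)) a := by
        rw [Fin.sum_univ_two, Fin.sum_univ_two]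
        rfl
      rw [hsum, act_apply, ← (Fin.consEquiv (fun _ : Fin (n + 1) => Fin 2)).sum_comp,
        Fintype.sum_prod_type]
      refine Finset.sum_congr rfl fun j _ => ?_
      rw [act_apply, Finset.smul_sum]
      refine Finset.sum_congr rfl fun b _ => ?_
      rw [smul_smul]
      congr 1
      rw [Fin.prod_univ_succ]
      simp [Fin.consEquiv]

end FixIndex

theorem fix_index {X : Type} [Fintype X] [DecidableEq X] {M : Type} [AddCommGroup M] [Module R M]
    (h2 : ∀ m : M, m + m = 0 → m = 0) (H : Subgroup (X → Ico)) (v : Tens X M) (hv : v ≠ 0)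
    (hfix : ∀ f ∈ H, act f v = v) : 5 ^ Fintype.card X ≤ H.index := by
  have e : X ≃ Fin (Fintype.card X) := Fintype.equivFin X
  have hG := FixIndex.good_of_equiv (M := M) e _ (FixIndex.good_fin h2 (Fintype.card X))
  exact hG H v hv (fun f hf => ⟨1, by rw [one_smul]; exact hfix f hf⟩)

end Pool.Agent.Lib.MP_5cc0c1_al
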