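import Pool.Agent.Lib.MP_5cc0c1_al.Wr

/-!
# MP_5cc0c1_al : the binary icosahedral group
-/

namespace Pool.Agent.Lib.MP_5cc0c1_al

open Matrix

namespace IcoAux

/-- decidable equality of `R`, componentwise -/
instance : DecidableEq (C5 ℤ) := fun x y =>
  decidable_of_iff (x.a = y.a ∧ x.b = y.b ∧ x.c = y.c ∧ x.d = y.d)
    ⟨fun h => C5.ext h.1 h.2.1 h.2.2.1 h.2.2.2, fun h => by subst h; exact ⟨rfl, rfl, rfl, rfl⟩⟩

/-- representatives of the 12 lines -/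
def l : Fin 12 → Fin 2 → R := ![
  ![⟨1, 0, 0, 0⟩, ⟨0, 0, 0, 0⟩],
  ![⟨0, 0, 0, 0⟩, ⟨1, 0, 0, 0⟩],
  ![⟨-1, 0, 0, 0⟩, ⟨-1, 0, 0, 0⟩],
  ![⟨-1, 0, 0, 0⟩, ⟨0, 1, 0, 0⟩],
  ![⟨-1, -1, 0, 0⟩, ⟨-1, 0, 0, 0⟩],
  ![⟨-1, -1, 0, 0⟩, ⟨0, 0, 1, 0⟩],
  ![⟨-1, 0, 0, 0⟩, ⟨0, 1, 1, 0⟩],
  ![⟨0, -1, 0, 0⟩, ⟨-1, -1, 0, 0⟩],
  ![⟨-1, -1, 0, 0⟩, ⟨-1, 0, 1, 0⟩],
  ![⟨-1, -1, 0, 0⟩, ⟨0, 0, 1, 1⟩],
  ![⟨-1, 0, 1, 0⟩, ⟨0, 1, 1, 0⟩],
  ![⟨0, -1, -1, 0⟩, ⟨-1, -1, 0, 0⟩]]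

/-- the ten units `± ζ^i` -/
def un (e : Fin 2) (i : Fin 5) : R := (-1) ^ (e : ℕ) * C5.ζ ^ (i : ℕ)

theorem un_mul : ∀ e i e' i', ∃ e'' i'', un e i * un e' i' = un e'' i'' := by
  decide +kernel

theorem s_l : ∀ j : Fin 12, ∃ e i k, sM.1 *ᵥ l j = un e i • l k := by
  decide +kernel

theorem t_l : ∀ j : Fin 12, ∃ e i k, tM.1 *ᵥ l j = un e i • l k := by
  decide +kernel

/-- the finite orbit -/
def O : Set (Fin 2 → R) := Set.range fun p : Fin 2 × Fin 5 × Fin 12 => un p.1 p.2.1 • l p.2.2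

theorem O_finite : O.Finite := Set.finite_range _

theorem un_smul_mem {v : Fin 2 → R} (hv : v ∈ O) (e : Fin 2) (i : Fin 5) : un e i • v ∈ O := by
  obtain ⟨⟨e', i', j⟩, rfl⟩ := hv
  obtain ⟨e'', i'', h⟩ := un_mul e i e' i'
  refine ⟨(e'', i'', j), ?_⟩
  simp only [smul_smul, h]

theorem mul_mem_of {g : Matrix (Fin 2) (Fin 2) R}
    (hg : ∀ j : Fin 12, ∃ e i k, g *ᵥ l j = un e i • l k) {v : Fin 2 → R} (hv : v ∈ O) :
    g *ᵥ v ∈ O := by
  obtain ⟨⟨e', i', j⟩, rfl⟩ := hv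
  obtain ⟨e, i, k, h⟩ := hg j
  show g *ᵥ (un e' i' • l j) ∈ O
  rw [Matrix.mulVec_smul, h]
  exact un_smul_mem ⟨(e, i, k), rfl⟩ e' i'

theorem s_mem {v : Fin 2 → R} (hv : v ∈ O) : sM.1 *ᵥ v ∈ O := mul_mem_of s_l hv

theorem t_mem {v : Fin 2 → R} (hv : v ∈ O) : tM.1 *ᵥ v ∈ O := mul_mem_of t_l hv

theorem sM_pow : sM ^ 5 = 1 := by
  apply Subtype.ext
  show sM.1 ^ 5 = 1
  decide +kernel

theorem tM_pow : tM ^ 5 = 1 := by
  apply Subtype.ext
  show tM.1 ^ 5 = 1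
  decide +kernel

theorem pow_mem {g : SpecialLinearGroup (Fin 2) R} (hg : ∀ v ∈ O, g.1 *ᵥ v ∈ O) (n : ℕ) :
    ∀ v ∈ O, (g ^ n).1 *ᵥ v ∈ O := by
  induction n with
  | zero =>
    intro v hv
    rw [pow_zero]
    show (1 : Matrix (Fin 2) (Fin 2) R) *ᵥ v ∈ O
    rwa [Matrix.one_mulVec]
  | succ n ih =>
    intro v hv
    rw [pow_succ]
    show ((g ^ n).1 * g.1) *ᵥ v ∈ O
    rw [← Matrix.mulVec_mulVec]
    exact ih _ (hg v hv)

theorem inv_mem {g : SpecialLinearGroup (Fin 2) R} (hg : ∀ v ∈ O, g.1 *ᵥ v ∈ O)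
    (h5 : g ^ 5 = 1) : ∀ v ∈ O, (g⁻¹).1 *ᵥ v ∈ O := by
  have : g⁻¹ = g ^ 4 := by
    rw [inv_eq_iff_mul_eq_one, ← pow_succ', h5]
  rw [this]
  exact pow_mem hg 4

theorem Ico_mem (g : SpecialLinearGroup (Fin 2) R) (hg : g ∈ IcoS) :
    (∀ v ∈ O, g.1 *ᵥ v ∈ O) ∧ (∀ v ∈ O, (g⁻¹).1 *ᵥ v ∈ O) := by
  induction hg using Subgroup.closure_induction with
  | mem x hx =>
    rcases hx with rfl | rfl
    · exact ⟨fun v hv => s_mem hv, inv_mem (fun v hv => s_mem hv) sM_pow⟩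
    · exact ⟨fun v hv => t_mem hv, inv_mem (fun v hv => t_mem hv) tM_pow⟩
  | one =>
    constructor
    · intro v hv
      show (1 : Matrix (Fin 2) (Fin 2) R) *ᵥ v ∈ O
      rwa [Matrix.one_mulVec]
    · intro v hv
      rw [inv_one]
      show (1 : Matrix (Fin 2) (Fin 2) R) *ᵥ v ∈ O
      rwa [Matrix.one_mulVec]
  | mul x y _ _ hx hy =>
    constructor
    · intro v hv
      show (x.1 * y.1) *ᵥ v ∈ O
      rw [← Matrix.mulVec_mulVec]
      exact hx.1 _ (hy.1 v hv)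
    · intro v hv
      rw [_root_.mul_inv_rev]
      show ((y⁻¹).1 * (x⁻¹).1) *ᵥ v ∈ O
      rw [← Matrix.mulVec_mulVec]
      exact hy.2 _ (hx.2 v hv)
  | inv x _ hx =>
    refine ⟨hx.2, ?_⟩
    rw [inv_inv]
    exact hx.1

theorem col_mem (g : Ico) (j : Fin 2) : (fun i => g.1.1 i j) ∈ O := by
  have h1 : (Pi.single j 1 : Fin 2 → R) ∈ O := by
    fin_cases j
    · refine ⟨(0, 0, 0), ?_⟩
      decide +kernel
    · refine ⟨(0, 0, 1), ?_⟩
      decide +kernel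
  have h2 := (Ico_mem g.1 g.2).1 _ h1
  rw [Matrix.mulVec_single_one] at h2
  exact h2

end IcoAux

open IcoAux

theorem sI_pow : sI ^ 5 = 1 := Subtype.ext sM_pow

theorem tI_pow : tI ^ 5 = 1 := Subtype.ext tM_pow

theorem braid : sI * tI * sI = tI * sI * tI := by
  apply Subtype.ext
  apply Subtype.ext
  show sM.1 * tM.1 * sM.1 = tM.1 * sM.1 * tM.1
  decide +kernel

theorem st_pow : (sI * tI) ^ 6 = 1 := by
  apply Subtype.ext
  apply Subtype.ext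
  show (sM.1 * tM.1) ^ 6 = 1
  decide +kernel

/-- there is an element acting as `-1` -/
theorem exists_neg : ∃ z : Ico, ∀ i j, ent z i j = if i = j then -1 else 0 := by
  refine ⟨(sI * tI) ^ 3, fun i j => ?_⟩
  have : ∀ i j : Fin 2, ((sM.1 * tM.1) ^ 3) i j = if i = j then -1 else 0 := by
    decide +kernel
  exact this i j

theorem closure_sI_tI : Subgroup.closure ({sI, tI} : Set Ico) = ⊤ := by
  have h := Subgroup.closure_closure_coe_preimage
    (k := ({sM, tM} : Set (SpecialLinearGroup (Fin 2) R)))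
  rw [← h]
  congr 1
  ext x
  simp only [Set.mem_insert_iff, Set.mem_singleton_iff, Set.mem_preimage]
  constructor
  · rintro (rfl | rfl)
    · exact Or.inl rfl
    · exact Or.inr rfl
  · rintro (h | h)
    · exact Or.inl (Subtype.ext h)
    · exact Or.inr (Subtype.ext h)

/-- `Ico` is perfect. -/
theorem Ico_perfect : commutator Ico = ⊤ := by
  rw [← Abelianization.ker_of, eq_top_iff, ← closure_sI_tI, Subgroup.closure_le]
  have hb : Abelianization.of sI = Abelianization.of tI := by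
    have h := congrArg Abelianization.of braid
    simp only [map_mul] at h
    have h2 : Abelianization.of sI * Abelianization.of tI * Abelianization.of sI =
      Abelianization.of sI * Abelianization.of tI * Abelianization.of tI := by
      rw [h, mul_comm (Abelianization.of tI) (Abelianization.of sI)]
    exact mul_left_cancel h2
  have h5 : Abelianization.of sI ^ 5 = 1 := by rw [← map_pow, sI_pow, map_one]
  have h12 : Abelianization.of sI ^ 12 = 1 := by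
    have h := congrArg Abelianization.of st_pow
    rw [map_pow, map_mul, ← hb, map_one, ← pow_two, ← pow_mul] at h
    exact h
  have h1 : Abelianization.of sI = 1 := by
    have h25 : Abelianization.of sI ^ 25 = 1 := by
      rw [show 25 = 5 * 5 from rfl, pow_mul, h5, one_pow]
    have h24 : Abelianization.of sI ^ 24 = 1 := by
      rw [show 24 = 12 * 2 from rfl, pow_mul, h12, one_pow]
    rw [show 25 = 24 + 1 from rfl, pow_succ, h24, one_mul] at h25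
    exact h25
  intro x hx
  rw [Set.mem_insert_iff, Set.mem_singleton_iff] at hx
  rcases hx with rfl | rfl
  · exact h1
  · show Abelianization.of tI = 1
    rw [← hb, h1]

instance Ico_finite : Finite Ico := by
  have : Finite O := O_finite.to_subtype
  refine Finite.of_injective (β := Fin 2 → O) (fun g j => ⟨_, col_mem g j⟩) ?_
  intro g h hgh
  apply Subtype.ext
  apply Subtype.ext
  ext1 i j
  have := congrFun hgh j
  have h2 := congrArg Subtype.val this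
  exact congrFun h2 i

/-- the coefficients of `x` are bounded by `B` in absolute value -/
def Bd (x : R) (B : ℕ) : Prop := |x.a| ≤ B ∧ |x.b| ≤ B ∧ |x.c| ≤ B ∧ |x.d| ≤ B

namespace IcoAux

/-- a bound for the multiplication by `r` -/
def nr (r : R) : ℕ := 6 * (r.a.natAbs + r.b.natAbs + r.c.natAbs + r.d.natAbs) + 1

theorem bd_mul (r x : R) (B : ℕ) (h : Bd x B) : Bd (r * x) (nr r * B) := by
  obtain ⟨h1, h2, h3, h4⟩ := h
  have key : ∀ u v : ℤ, |v| ≤ B → |u * v| ≤ |u| * B := fun u v hv => by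
    rw [abs_mul]
    exact mul_le_mul_of_nonneg_left hv (abs_nonneg u)
  have hB : (0 : ℤ) ≤ B := Int.natCast_nonneg B
  have ha := abs_nonneg r.a
  have hb := abs_nonneg r.b
  have hc := abs_nonneg r.c
  have hd := abs_nonneg r.d
  have e : ((nr r * B : ℕ) : ℤ) = (6 * (|r.a| + |r.b| + |r.c| + |r.d|) + 1) * B := by
    unfold nr
    push_cast
    rfl
  have k1 := mul_nonneg ha hB
  have k2 := mul_nonneg hb hB
  have k3 := mul_nonneg hc hB
  have k4 := mul_nonneg hd hB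
  have eq : (6 * (|r.a| + |r.b| + |r.c| + |r.d|) + 1) * (B : ℤ) =
    6 * (|r.a| * B) + 6 * (|r.b| * B) + 6 * (|r.c| * B) + 6 * (|r.d| * B) + B := by ring
  have aa := abs_le.1 (key r.a x.a h1)
  have ab := abs_le.1 (key r.a x.b h2)
  have ac := abs_le.1 (key r.a x.c h3)
  have ad := abs_le.1 (key r.a x.d h4)
  have ba := abs_le.1 (key r.b x.a h1)
  have bb := abs_le.1 (key r.b x.b h2)
  have bc := abs_le.1 (key r.b x.c h3)
  have bd := abs_le.1 (key r.b x.d h4)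
  have ca := abs_le.1 (key r.c x.a h1)
  have cb := abs_le.1 (key r.c x.b h2)
  have cc := abs_le.1 (key r.c x.c h3)
  have cd := abs_le.1 (key r.c x.d h4)
  have da := abs_le.1 (key r.d x.a h1)
  have db := abs_le.1 (key r.d x.b h2)
  have dc := abs_le.1 (key r.d x.c h3)
  have dd := abs_le.1 (key r.d x.d h4)
  unfold Bd
  rw [e, eq, C5.mul_a, C5.mul_b, C5.mul_c, C5.mul_d]
  refine ⟨abs_le.2 ⟨?_, ?_⟩, abs_le.2 ⟨?_, ?_⟩, abs_le.2 ⟨?_, ?_⟩, abs_le.2 ⟨?_, ?_⟩⟩ <;> linarith [aa.1, aa.2, ab.1, ab.2, ac.1, ac.2, ad.1, ad.2, ba.1, ba.2, bb.1, bb.2, bc.1, bc.2, bd.1, bd.2, ca.1, ca.2, cb.1, cb.2, cc.1, cc.2, cd.1, cd.2, da.1, da.2, db.1, db.2, dc.1, dc.2, dd.1, dd.2]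

end IcoAux

theorem exists_bd : ∃ c : ℕ, 1 ≤ c ∧ ∀ (g : Ico) (i j : Fin 2) (x : R) (B : ℕ),
    Bd x B → Bd (ent g i j * x) (c * B) := by
  have hfin : (Set.range fun p : Ico × Fin 2 × Fin 2 => nr (ent p.1 p.2.1 p.2.2)).Finite :=
    Set.finite_range _
  obtain ⟨c, hc⟩ := hfin.bddAbove
  have hle : ∀ (g : Ico) (i j : Fin 2), nr (ent g i j) ≤ c := fun g i j => hc ⟨(g, i, j), rfl⟩
  refine ⟨c, le_trans (by simp [nr]) (hle 1 0 0), fun g i j x B hx => ?_⟩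
  obtain ⟨h1, h2, h3, h4⟩ := bd_mul (ent g i j) x B hx
  have hm : ((nr (ent g i j) * B : ℕ) : ℤ) ≤ ((c * B : ℕ) : ℤ) := by
    exact_mod_cast Nat.mul_le_mul_right B (hle g i j)
  exact ⟨h1.trans hm, h2.trans hm, h3.trans hm, h4.trans hm⟩

end Pool.Agent.Lib.MP_5cc0c1_al
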