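import Pool.Agent.Lib.MP_5cc0c1_al.Wreath

/-!
# MP_5cc0c1_al : the module `V = Tens X (ℤ[ζ]/p)`
-/

namespace Pool.Agent.Lib.MP_5cc0c1_al

open Matrix

/-- The basis vector `e_0 = e_{0...0}`. -/
noncomputable def e0 (X : Type) (p : ℕ) : Tens X (C5 (ZMod p)) := fun a =>
  open Classical in if a = 0 then 1 else 0

namespace TensFacts

section single

variable {X : Type} [Fintype X] [DecidableEq X] {M : Type} [AddCommGroup M] [Module R M]

set_option linter.unusedSectionVars false

theorem act_single (x : X) (g : Ico) (w : Tens X M) (a : X → Fin 2) :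
    act (Pi.mulSingle x g) w a = ∑ i, ent g (a x) i • w (Function.update a x i) := by
  rw [act_apply]
  symm
  refine Finset.sum_of_injOn (fun i => Function.update a x i) ?_ ?_ ?_ ?_
  · intro i _ j _ h
    have := congrFun h x
    simpa using this
  · intro i _
    simp
  · intro b _ hb
    have : ∃ y, y ≠ x ∧ a y ≠ b y := by
      by_contra h
      push Not at h
      apply hb
      refine ⟨b x, by simp, ?_⟩
      funext y
      by_cases hy : y = x
      · subst hy; simp
      · simp [hy, h y hy]
    obtain ⟨y, hy, hab⟩ := this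
    rw [Finset.prod_eq_zero (Finset.mem_univ y), zero_smul]
    rw [Pi.mulSingle_eq_of_ne hy, ent_one, if_neg hab]
  · intro i _
    congr 1
    rw [Finset.prod_eq_single x]
    · simp
    · intro y _ hy
      rw [Pi.mulSingle_eq_of_ne hy, ent_one, Function.update_of_ne hy, if_pos rfl]
    · simp

/-- basis vectors -/
def E (a : X → Fin 2) (r : M) : Tens X M := fun b => if b = a then r else 0

omit [Module R M] in
theorem E_add (a : X → Fin 2) (r s : M) : E a (r + s) = E a r + E a s := by
  apply Tens.ext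
  intro b
  simp only [E, Tens.add_apply]
  split_ifs <;> simp

omit [Module R M] in
theorem E_zero (a : X → Fin 2) : E a (0 : M) = 0 := by
  apply Tens.ext
  intro b
  simp [E]

/-- `E a` as an additive homomorphism -/
def Ehom (a : X → Fin 2) : M →+ Tens X M where
  toFun := E a
  map_zero' := E_zero a
  map_add' := E_add a

theorem act_single_E (x : X) (g : Ico) (a : X → Fin 2) (r : M) :
    act (Pi.mulSingle x g) (E a r) =
      E (Function.update a x 0) (ent g 0 (a x) • r) +
        E (Function.update a x 1) (ent g 1 (a x) • r) := by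
  apply Tens.ext
  intro b
  rw [act_single, Fin.sum_univ_two, Tens.add_apply]
  simp only [E]
  by_cases h : ∀ y, y ≠ x → b y = a y
  · have h1 : ∀ i, (b = Function.update a x i ↔ i = b x) := by
      intro i
      constructor
      · intro hb; rw [hb]; simp
      · rintro rfl
        funext y
        by_cases hy : y = x
        · subst hy; simp
        · simp [hy, h y hy]
    have h2 : ∀ i, (Function.update b x i = a ↔ i = a x) := by
      intro i
      constructor
      · intro hb; rw [← hb]; simp
      · rintro rfl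
        funext y
        by_cases hy : y = x
        · subst hy; simp
        · simp [hy, h y hy]
    simp only [h1, h2]
    have e1 : a x = 0 ∨ a x = 1 := by
      have := (a x).isLt
      rcases Fin.exists_fin_two.mp ⟨a x, rfl⟩ with h | h
      · exact Or.inl h
      · exact Or.inr h
    have e2 : b x = 0 ∨ b x = 1 := by
      rcases Fin.exists_fin_two.mp ⟨b x, rfl⟩ with h | h
      · exact Or.inl h
      · exact Or.inr h
    rcases e1 with e1 | e1 <;> rcases e2 with e2 | e2 <;> simp [e1, e2]
  · push Not at h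
    obtain ⟨y, hy, hb⟩ := h
    have h1 : ∀ i, b ≠ Function.update a x i := by
      intro i hi
      apply hb
      rw [hi, Function.update_of_ne hy]
    have h2 : ∀ i, Function.update b x i ≠ a := by
      intro i hi
      apply hb
      rw [← hi, Function.update_of_ne hy]
    simp [h1, h2]

end single

/-! ### generation -/

theorem intCast_eq {K : Type} [CommRing K] (n : ℤ) : (n : C5 K) = ⟨n, 0, 0, 0⟩ := by
  induction n using Int.induction_on with
  | zero =>
    rw [Int.cast_zero, Int.cast_zero]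
    rfl
  | succ n ih =>
    rw [Int.cast_add, Int.cast_one, ih]
    ext <;> simp
  | pred n ih =>
    rw [Int.cast_sub, Int.cast_one, ih]
    ext <;> simp

theorem ent_sI_00 : ent sI 0 0 = C5.ζ ^ 3 := rfl
theorem ent_sI_10 : ent sI 1 0 = 0 := rfl
theorem ent_tI_00 : ent tI 0 0 = C5.ζ ^ 2 := rfl
theorem ent_tI_10 : ent tI 1 0 = -C5.ζ ^ 3 := rfl

end TensFacts

open TensFacts in
/-- `e_0` generates `V` as a `T`-module (any transitivity is not needed). -/
theorem e0_generates {X Q : Type} [Fintype X] [DecidableEq X] [Nonempty X] [Group Q] [MulAction Q X] (p : ℕ)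
    (N : AddSubgroup (Tens X (C5 (ZMod p)))) (hN : ∀ (t : Wr X Q), ∀ w ∈ N, t • w ∈ N)
    (h0 : e0 X p ∈ N) : N = ⊤ := by
  have hact : ∀ (x : X) (g : Ico) (w : Tens X (C5 (ZMod p))), w ∈ N →
      act (Pi.mulSingle x g) w ∈ N := by
    intro x g w hw
    have := hN (Wr.base (Pi.mulSingle x g)) w hw
    rwa [Wr.base_smul] at this
  have he : e0 X p = E 0 1 := by
    apply Tens.ext
    intro a
    simp only [e0, E]
    split_ifs <;> rfl
  obtain ⟨x0⟩ := ‹Nonempty X›
  -- powers of `ζ ^ 3`
  have hz : ∀ r : C5 (ZMod p), E (0 : X → Fin 2) r ∈ N → E (0 : X → Fin 2) (C5.ζ ^ 3 * r) ∈ N := by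
    intro r hr
    have h1 := hact x0 sI _ hr
    rw [act_single_E] at h1
    have e1 : Function.update (0 : X → Fin 2) x0 0 = 0 := by
      funext y
      by_cases hy : y = x0
      · subst hy; simp
      · simp [hy]
    rw [e1, Pi.zero_apply, ent_sI_00, ent_sI_10, zero_smul, E_zero, add_zero, R_smul_def,
      map_pow, C5.map_zeta] at h1
    exact h1
  have h1 : E (0 : X → Fin 2) (1 : C5 (ZMod p)) ∈ N := he ▸ h0
  have h3 := hz _ h1
  have h6 := hz _ h3
  have h9 := hz _ h6
  have h12 := hz _ h9
  have hbase : ∀ r : C5 (ZMod p), E (0 : X → Fin 2) r ∈ N := by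
    intro r
    have key : ∀ (n : ℤ) (s : C5 (ZMod p)), E (0 : X → Fin 2) s ∈ N →
        E (0 : X → Fin 2) (n • s) ∈ N := by
      intro n s hs
      have : E (0 : X → Fin 2) (n • s) = n • E (0 : X → Fin 2) s :=
        map_zsmul (Ehom (0 : X → Fin 2)) n s
      rw [this]
      exact N.zsmul_mem hs n
    obtain ⟨na, ha⟩ := ZMod.intCast_surjective r.a
    obtain ⟨nb, hb⟩ := ZMod.intCast_surjective r.b
    obtain ⟨nc, hc⟩ := ZMod.intCast_surjective r.c
    obtain ⟨nd, hd⟩ := ZMod.intCast_surjective r.d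
    have hadd : ∀ s t : C5 (ZMod p), E (0 : X → Fin 2) s ∈ N → E (0 : X → Fin 2) t ∈ N →
        E (0 : X → Fin 2) (s + t) ∈ N := by
      intro s t hs ht
      rw [E_add]
      exact N.add_mem hs ht
    have hr : r = na • (1 : C5 (ZMod p)) + nb • (C5.ζ ^ 3 * (C5.ζ ^ 3 * 1)) +
        nc • (C5.ζ ^ 3 * (C5.ζ ^ 3 * (C5.ζ ^ 3 * (C5.ζ ^ 3 * 1)))) + nd • (C5.ζ ^ 3 * 1) := by
      simp only [zsmul_eq_mul]
      simp only [intCast_eq]
      ext <;> simp [pow_succ, ha, hb, hc, hd]
    rw [hr]
    exact hadd _ _ (hadd _ _ (hadd _ _ (key _ _ h1) (key _ _ h6)) (key _ _ h12)) (key _ _ h3)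
  -- all basis vectors
  have hstep : ∀ (a : X → Fin 2) (x : X), a x = 0 → (∀ r : C5 (ZMod p), E a r ∈ N) →
      ∀ r : C5 (ZMod p), E (Function.update a x 1) r ∈ N := by
    intro a x hx ha r
    have h1 := hact x tI _ (ha (-(C5.ζ ^ 2) * r))
    rw [act_single_E, hx, ent_tI_00, ent_tI_10] at h1
    have e1 : Function.update a x 0 = a := by
      funext y
      by_cases hy : y = x
      · subst hy; simp [hx]
      · simp [hy]
    rw [e1] at h1
    have h2 := (N.add_mem_cancel_left (ha _)).mp h1
    have e2 : (-C5.ζ ^ 3 : R) • (-(C5.ζ ^ 2) * r : C5 (ZMod p)) = r := by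
      rw [R_smul_def, map_neg, map_pow, C5.map_zeta]
      have : (-C5.ζ ^ 3 * (-(C5.ζ ^ 2) * r) : C5 (ZMod p)) = C5.ζ ^ 5 * r := by ring
      rw [this, C5.zeta_pow_five, one_mul]
    rwa [e2] at h2
  have hset : ∀ (s : Finset X) (r : C5 (ZMod p)), E (fun x => if x ∈ s then 1 else 0) r ∈ N := by
    intro s
    induction s using Finset.induction_on with
    | empty =>
      intro r
      have : (fun x : X => if x ∈ (∅ : Finset X) then (1 : Fin 2) else 0) = 0 := by
        funext x; simp
      rw [this]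
      exact hbase r
    | insert x s hx ih =>
      intro r
      have e : (fun y : X => if y ∈ insert x s then (1 : Fin 2) else 0) =
          Function.update (fun y => if y ∈ s then 1 else 0) x 1 := by
        funext y
        by_cases hy : y = x
        · subst hy; simp
        · simp [hy]
      rw [e]
      exact hstep _ x (by simp [hx]) ih r
  have hall : ∀ (a : X → Fin 2) (r : C5 (ZMod p)), E a r ∈ N := by
    intro a r
    have h := hset (Finset.univ.filter fun x => a x = 1) r
    have e : (fun x : X => if x ∈ Finset.univ.filter (fun x => a x = 1) then (1 : Fin 2) else 0)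
        = a := by
      funext x
      simp only [Finset.mem_filter, Finset.mem_univ, true_and]
      split_ifs with h
      · exact h.symm
      · rcases Fin.exists_fin_two.mp ⟨a x, rfl⟩ with h' | h'
        · exact h'.symm
        · exact absurd h' h
    rwa [e] at h
  rw [eq_top_iff]
  intro w _
  have hw : w = ∑ a : X → Fin 2, E a (w a) := by
    apply Tens.ext
    intro b
    have : (∑ a : X → Fin 2, E a (w a)) b = ∑ a : X → Fin 2, (E a (w a)) b :=
      Finset.sum_apply b _ (fun a => (E a (w a) : (X → Fin 2) → C5 (ZMod p)))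
    rw [this]
    simp [E]
  rw [hw]
  exact N.sum_mem fun a _ => hall a _

namespace TensFacts

/-! ### the norm of `x` -/

theorem sum_sM_pow : ∑ i ∈ Finset.range 5, (sM.1 : Matrix (Fin 2) (Fin 2) R) ^ i = 0 := by
  simp only [Finset.sum_range_succ, Finset.sum_range_zero, pow_succ, pow_zero, sM]
  ext i j <;> fin_cases i <;> fin_cases j <;> simp

theorem ent_pow (g : Ico) (n : ℕ) (i j : Fin 2) : ent (g ^ n) i j = (g.1.1 ^ n) i j := by
  simp [ent]

variable {X : Type} [Fintype X] [DecidableEq X] {M : Type} [AddCommGroup M] [Module R M]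

theorem sum_act_sI (x : X) (w : Tens X M) :
    ∑ i ∈ Finset.range 5, act (Pi.mulSingle x (sI ^ i)) w = 0 := by
  apply Tens.ext
  intro a
  have : (∑ i ∈ Finset.range 5, act (Pi.mulSingle x (sI ^ i)) w) a =
      ∑ i ∈ Finset.range 5, (act (Pi.mulSingle x (sI ^ i)) w) a :=
    Finset.sum_apply a _ (fun i => (act (Pi.mulSingle x (sI ^ i)) w : (X → Fin 2) → M))
  rw [this]
  simp only [act_single, Tens.zero_apply]
  rw [Finset.sum_comm]
  refine Finset.sum_eq_zero fun k _ => ?_
  rw [← Finset.sum_smul]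
  have h : ∑ i ∈ Finset.range 5, ent (sI ^ i) (a x) k = 0 := by
    have h1 := congrFun (congrFun sum_sM_pow (a x)) k
    simp only [ent_pow]
    rw [Matrix.sum_apply] at h1
    exact h1
  rw [h, zero_smul]

end TensFacts

open TensFacts in
/-- `1 + x + ... + x^{5q-1} = 0` on `V` for `x = xT q`. -/
theorem norm_xT (q : ℕ) [Fact q.Prime] (hq : 7 ≤ q) {M : Type} [AddCommGroup M] [Module R M]
    (w : Tens (P1 q) M) : ∑ j ∈ Finset.range (5 * q), (xT q) ^ j • w = 0 := by
  set S : T q := Wr.base (Pi.mulSingle (OnePoint.infty : P1 q) sI) with hS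
  set U : T q := Wr.top (uQ q) with hU
  have hcomm : Commute S U := by
    apply Wr.ext'
    · intro i
      simp only [Wr.mul_f, hS, hU, Wr.base_f, Wr.top_f, Wr.base_σ, Wr.top_σ, Pi.one_apply,
        mul_one, one_mul]
      by_cases hi : i = OnePoint.infty
      · subst hi
        have : (uQ q)⁻¹ • (OnePoint.infty : P1 q) = OnePoint.infty := by
          rw [inv_smul_eq_iff, uQ_smul]
        rw [this]
      · have : (uQ q)⁻¹ • i ≠ (OnePoint.infty : P1 q) := by
          intro h
          rw [inv_smul_eq_iff, uQ_smul] at h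
          exact hi h
        rw [Pi.mulSingle_eq_of_ne hi, Pi.mulSingle_eq_of_ne this]
    · simp [hS, hU]
  have hx : xT q = S * U := rfl
  have hSn : ∀ n : ℕ, S ^ n = Wr.base (Pi.mulSingle (OnePoint.infty : P1 q) (sI ^ n)) := by
    intro n
    rw [hS, ← map_pow]
    congr 1
    exact (Pi.mulSingle_pow _ _ _).symm
  have hS5 : S ^ 5 = 1 := by
    rw [hSn, sI_pow, Pi.mulSingle_one, map_one]
  have hUq : U ^ q = 1 := by
    rw [hU, ← map_pow, uQ_pow, map_one]
  have hxq : (xT q) ^ q = S ^ q := by
    rw [hx, hcomm.mul_pow, hUq, mul_one]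
  have hsplit : ∀ m : ℕ, ∑ j ∈ Finset.range (m * q), (xT q) ^ j • w =
      ∑ i ∈ Finset.range m, ∑ k ∈ Finset.range q, (xT q) ^ (i * q + k) • w := by
    intro m
    induction m with
    | zero => simp
    | succ m ih =>
      rw [Nat.succ_mul, Finset.sum_range_add, ih, Finset.sum_range_succ]
  rw [hsplit, Finset.sum_comm]
  refine Finset.sum_eq_zero fun k _ => ?_
  have e : ∀ i, (xT q) ^ (i * q + k) • w = (S ^ q) ^ i • ((xT q) ^ k • w) := by
    intro i
    rw [pow_add, mul_comm i q, pow_mul, hxq, mul_smul]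
  simp only [e]
  generalize (xT q) ^ k • w = v
  have h0 : ∑ i ∈ Finset.range 5, S ^ i • v = 0 := by
    have := sum_act_sI (OnePoint.infty : P1 q) v
    simp only [hSn, Wr.base_smul]
    exact this
  have hq5 : q % 5 ≠ 0 := by
    intro h
    have h5 : 5 ∣ q := Nat.dvd_of_mod_eq_zero h
    have := (Nat.prime_dvd_prime_iff_eq (by norm_num) (Fact.out : q.Prime)).mp h5
    omega
  have hred : ∀ n, S ^ n = S ^ (n % 5) := by
    intro n
    conv_lhs => rw [← Nat.div_add_mod n 5]
    rw [pow_add, pow_mul, hS5, one_pow, one_mul]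
  have hr : S ^ q = S ^ (q % 5) := hred q
  have hlt : q % 5 < 5 := Nat.mod_lt _ (by norm_num)
  rw [hr]
  generalize q % 5 = r at hq5 hlt
  have h6 : S ^ 6 = S ^ 1 := hred 6
  have h8 : S ^ 8 = S ^ 3 := hred 8
  have h9 : S ^ 9 = S ^ 4 := hred 9
  have h12 : S ^ 12 = S ^ 2 := hred 12
  have h16 : S ^ 16 = S ^ 1 := hred 16
  simp only [← pow_mul]
  interval_cases r
  · exact absurd rfl hq5
  · simpa using h0
  · simp only [Finset.sum_range_succ, Finset.sum_range_zero] at h0 ⊢
    simp only [Nat.mul_zero, Nat.mul_one, Nat.reduceMul, h6, h8]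
    refine Eq.trans ?_ h0
    abel
  · simp only [Finset.sum_range_succ, Finset.sum_range_zero] at h0 ⊢
    simp only [Nat.mul_zero, Nat.mul_one, Nat.reduceMul, h6, h9, h12]
    refine Eq.trans ?_ h0
    abel
  · simp only [Finset.sum_range_succ, Finset.sum_range_zero] at h0 ⊢
    simp only [Nat.mul_zero, Nat.mul_one, Nat.reduceMul, h8, h12, h16]
    refine Eq.trans ?_ h0
    abel

namespace TensFacts

theorem bd_zero : Bd 0 0 := by simp [Bd]

theorem bd_add {x y : R} {B C : ℕ} (hx : Bd x B) (hy : Bd y C) : Bd (x + y) (B + C) := by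
  obtain ⟨h1, h2, h3, h4⟩ := hx
  obtain ⟨g1, g2, g3, g4⟩ := hy
  refine ⟨?_, ?_, ?_, ?_⟩
  · rw [C5.add_a]; exact (abs_add_le _ _).trans (by push_cast; exact add_le_add h1 g1)
  · rw [C5.add_b]; exact (abs_add_le _ _).trans (by push_cast; exact add_le_add h2 g2)
  · rw [C5.add_c]; exact (abs_add_le _ _).trans (by push_cast; exact add_le_add h3 g3)
  · rw [C5.add_d]; exact (abs_add_le _ _).trans (by push_cast; exact add_le_add h4 g4)

theorem bd_sum {ι : Type*} (s : Finset ι) (f : ι → R) (B : ℕ) (h : ∀ i ∈ s, Bd (f i) B) :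
    Bd (∑ i ∈ s, f i) (s.card * B) := by
  classical
  induction s using Finset.induction_on with
  | empty => simpa using bd_zero
  | insert i s hi ih =>
    rw [Finset.sum_insert hi, Finset.card_insert_of_notMem hi, Nat.succ_mul, add_comm _ B]
    exact bd_add (h i (Finset.mem_insert_self _ _)) (ih fun j hj => h j (Finset.mem_insert_of_mem hj))

end TensFacts

open TensFacts in
/-- growth of coefficients -/
theorem bd_smul {X Q : Type} [Fintype X] [DecidableEq X] [Group Q] [MulAction Q X] (c : ℕ)
    (hc : ∀ (g : Ico) (i j : Fin 2) (x : R) (B : ℕ), Bd x B → Bd (ent g i j * x) (c * B))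
    (t : Wr X Q) (w : Tens X R) (B : ℕ) (hw : ∀ a, Bd (w a) B) (a : X → Fin 2) :
    Bd ((t • w) a) ((2 * c) ^ Fintype.card X * B) := by
  have hprod : ∀ (s : Finset X) (f : X → Ico) (i j : X → Fin 2) (x : R), Bd x B →
      Bd ((∏ y ∈ s, ent (f y) (i y) (j y)) * x) (c ^ s.card * B) := by
    intro s f i j x hx
    induction s using Finset.induction_on with
    | empty => simpa using hx
    | insert y s hy ih =>
      rw [Finset.prod_insert hy, Finset.card_insert_of_notMem hy, pow_succ', mul_assoc, mul_assoc]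
      exact hc _ _ _ _ _ ih
  rw [Wr.smul_def, act_apply]
  have h := bd_sum (Finset.univ : Finset (X → Fin 2))
    (fun b => (∏ x, ent (t.f x) (a x) (b x)) • (Wr.perm t.σ w) b) (c ^ Fintype.card X * B)
    (fun b _ => hprod Finset.univ t.f a b _ (hw _))
  have e : (Finset.univ : Finset (X → Fin 2)).card = 2 ^ Fintype.card X := by
    rw [Finset.card_univ, Fintype.card_fun, Fintype.card_fin]
  rw [e] at h
  rw [mul_pow, mul_assoc]
  exact h

/-- reduction mod `p` -/
def red (X : Type) (p : ℕ) (w : Tens X R) : Tens X (C5 (ZMod p)) :=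
  fun a => C5.map (Int.castRingHom (ZMod p)) (w a)

theorem red_smul {X Q : Type} [Fintype X] [DecidableEq X] [Group Q] [MulAction Q X] (p : ℕ)
    (t : Wr X Q) (w : Tens X R) : red X p (t • w) = t • red X p w := by
  apply Tens.ext
  intro a
  simp only [red, Wr.smul_def, act_apply, map_sum, R_smul_def, smul_eq_mul, map_mul, Wr.perm]

theorem TensFacts.equivC5 (K : Type) : Nonempty (C5 K ≃ (Fin 4 → K)) :=
  ⟨{ toFun := fun x => ![x.a, x.b, x.c, x.d]
     invFun := fun f => ⟨f 0, f 1, f 2, f 3⟩
     left_inv := fun x => rfl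
     right_inv := fun f => by
      funext i
      fin_cases i <;> rfl }⟩

theorem card_V (X : Type) [Fintype X] (p : ℕ) [Fact p.Prime] :
    Nat.card (Tens X (C5 (ZMod p))) = p ^ (4 * 2 ^ Fintype.card X) := by
  classical
  obtain ⟨e⟩ := TensFacts.equivC5 (ZMod p)
  have h1 : Nat.card (C5 (ZMod p)) = p ^ 4 := by
    rw [Nat.card_congr e, Nat.card_fun]
    simp
  change Nat.card ((X → Fin 2) → C5 (ZMod p)) = _
  rw [Nat.card_fun, h1, ← pow_mul]
  congr 2
  rw [Nat.card_eq_fintype_card, Fintype.card_fun, Fintype.card_fin]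

instance (X : Type) [Fintype X] (p : ℕ) [Fact p.Prime] : Finite (Tens X (C5 (ZMod p))) := by
  obtain ⟨e⟩ := TensFacts.equivC5 (ZMod p)
  have : Finite (C5 (ZMod p)) := Finite.of_equiv _ e.symm
  exact inferInstanceAs (Finite ((X → Fin 2) → C5 (ZMod p)))

end Pool.Agent.Lib.MP_5cc0c1_al
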