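import Pool.Agent.Lib.MP_5cc0c1_al.Statement
import Pool.Agent.Lib.MP_5cc0c1_al.TensFacts

/-!
# MP_5cc0c1_al : the pigeonhole argument, non-expansion
-/

namespace Pool.Agent.Lib.MP_5cc0c1_al

open Matrix

namespace NonExp

/-- If all fibres of `f : G → ι` have `N` elements then the preimage of a finite set `A` has
`|A| N` elements. -/
theorem ncard_preimage {G ι : Type} [Finite G] (f : G → ι) (N : ℕ)
    (hN : ∀ i, (f ⁻¹' {i}).ncard = N) (A : Finset ι) :
    (f ⁻¹' (A : Set ι)).ncard = A.card * N := by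
  classical
  induction A using Finset.induction_on with
  | empty => simp
  | insert a A ha ih =>
    rw [Finset.coe_insert, Set.insert_eq, Set.preimage_union, Set.ncard_union_eq, hN, ih,
      Finset.card_insert_of_notMem ha]
    · ring
    · rw [Set.disjoint_left]
      intro x hx hx'
      simp only [Set.mem_preimage, Set.mem_singleton_iff] at hx
      simp only [Set.mem_preimage, Finset.mem_coe] at hx'
      exact ha (hx ▸ hx')

/-- Dirichlet's pigeonhole argument. -/
theorem dirichlet (p : ℕ) [Fact p.Prime] {ι : Type} [Fintype ι] (x : ι → ZMod p) (n B : ℕ)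
    (hB : 0 < B) (hn : Fintype.card ι ≤ n) (hBp : B ^ n < p) :
    ∃ lam : ZMod p, lam ≠ 0 ∧ ∀ i, ∃ e : ℤ, (e : ZMod p) = lam * x i ∧ |e| ≤ ((p / B : ℕ) : ℤ) := by
  classical
  have hp : 0 < p := (Fact.out : p.Prime).pos
  have hbox : ∀ a : ZMod p, B * a.val / p < B := by
    intro a
    rw [Nat.div_lt_iff_lt_mul hp]
    exact Nat.mul_lt_mul_of_pos_left (ZMod.val_lt a) hB
  let F : ZMod p → (ι → Fin B) := fun lam i => ⟨B * (lam * x i).val / p, hbox _⟩
  have hcard : Fintype.card (ι → Fin B) < Fintype.card (ZMod p) := by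
    rw [Fintype.card_fun, Fintype.card_fin, ZMod.card]
    exact (Nat.pow_le_pow_right hB hn).trans_lt hBp
  obtain ⟨l1, l2, hne, hF⟩ := Fintype.exists_ne_map_eq_of_card_lt F hcard
  refine ⟨l1 - l2, sub_ne_zero.2 hne, fun i => ?_⟩
  have h1 : B * (l1 * x i).val / p = B * (l2 * x i).val / p := by
    have := congrFun hF i
    simpa [F] using this
  refine ⟨((l1 * x i).val : ℤ) - ((l2 * x i).val : ℤ), ?_, ?_⟩
  · push_cast
    rw [ZMod.natCast_zmod_val, ZMod.natCast_zmod_val]
    ring
  · set a := (l1 * x i).val with ha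
    set b := (l2 * x i).val with hb
    have key : ∀ a b : ℕ, B * a / p = B * b / p → a ≤ b + p / B := by
      intro a b h
      have h2 : B * a < B * b + p := by
        have h3 := Nat.div_add_mod (B * a) p
        have h4 := Nat.div_add_mod (B * b) p
        have h5 := Nat.mod_lt (B * a) hp
        rw [h] at h3
        omega
      have h6 : (a - b) ≤ p / B := by
        rw [Nat.le_div_iff_mul_le hB]
        have : (a - b) * B = B * a - B * b := by
          rw [Nat.sub_mul, mul_comm a, mul_comm b]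
        omega
      omega
    have k1 := key a b h1
    have k2 := key b a h1.symm
    rw [abs_le]
    constructor <;> omega

theorem C5_nsmul_a {K : Type} [CommRing K] (n : ℕ) (x : C5 K) : (n • x).a = n * x.a := by
  induction n with
  | zero => simp
  | succ n ih => rw [succ_nsmul, C5.add_a, ih]; push_cast; ring

theorem C5_nsmul_b {K : Type} [CommRing K] (n : ℕ) (x : C5 K) : (n • x).b = n * x.b := by
  induction n with
  | zero => simp
  | succ n ih => rw [succ_nsmul, C5.add_b, ih]; push_cast; ring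

theorem C5_nsmul_c {K : Type} [CommRing K] (n : ℕ) (x : C5 K) : (n • x).c = n * x.c := by
  induction n with
  | zero => simp
  | succ n ih => rw [succ_nsmul, C5.add_c, ih]; push_cast; ring

theorem C5_nsmul_d {K : Type} [CommRing K] (n : ℕ) (x : C5 K) : (n • x).d = n * x.d := by
  induction n with
  | zero => simp
  | succ n ih => rw [succ_nsmul, C5.add_d, ih]; push_cast; ring

theorem Tens_nsmul_apply {X M : Type} [AddCommGroup M] (n : ℕ) (w : Tens X M) (a : X → Fin 2) :
    (n • w) a = n • w a := rfl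

/-- the four coordinates -/
def coord {K : Type} (j : Fin 4) (x : C5 K) : K :=
  match j with
  | 0 => x.a
  | 1 => x.b
  | 2 => x.c
  | 3 => x.d

end NonExp

open NonExp

theorem nonexp {X Q : Type} [Fintype X] [DecidableEq X] [Group Q] [Finite Q] [MulAction Q X]
    (p : ℕ) [Fact p.Prime] (hp : 3 ≤ p) (c : ℕ)
    (hc : ∀ (g : Ico) (i j : Fin 2) (x : R) (B : ℕ), Bd x B → Bd (ent g i j * x) (c * B))
    (K B : ℕ) (hB : 0 < B) (hBp : B ^ (4 * 2 ^ Fintype.card X * K) < p)
    (S : Set (Aff (Wr X Q) (Tens X (C5 (ZMod p))))) (hS : S.Finite) (hSK : S.ncard ≤ K) :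
    ∃ Y : Set (Aff (Wr X Q) (Tens X (C5 (ZMod p)))), Y.Nonempty ∧
      2 * Y.ncard ≤ Nat.card (Aff (Wr X Q) (Tens X (C5 (ZMod p)))) ∧
      (bdry S Y).ncard * B ≤ 8 * (2 * c) ^ Fintype.card X * Y.ncard := by
  classical
  have hp0 : 0 < p := by omega
  have hodd : p % 2 = 1 := by
    rcases (Fact.out : p.Prime).eq_two_or_odd with h | h
    · omega
    · exact h
  haveI : Finite (Wr X Q) := Finite.of_equiv _ (Wr.equivProd (X := X) (Q := Q)).symm
  haveI : Finite (Aff (Wr X Q) (Tens X (C5 (ZMod p)))) :=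
    Finite.of_equiv _ (Aff.equivProd (T := Wr X Q) (V := Tens X (C5 (ZMod p)))).symm
  haveI : Fintype S := hS.fintype
  -- Dirichlet
  obtain ⟨lam, hlam, hdir⟩ := dirichlet p (ι := S × (X → Fin 2) × Fin 4)
    (fun i => coord i.2.2 (i.1.1.v i.2.1)) (4 * 2 ^ Fintype.card X * K) B hB (by
      rw [Fintype.card_prod, Fintype.card_prod, Fintype.card_fun, Fintype.card_fin,
        Fintype.card_fin, ← Nat.card_eq_fintype_card, Nat.card_coe_set_eq]
      calc S.ncard * (2 ^ Fintype.card X * 4) ≤ K * (2 ^ Fintype.card X * 4) :=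
            Nat.mul_le_mul_right _ hSK
        _ = 4 * 2 ^ Fintype.card X * K := by ring) hBp
  choose e he1 he2 using hdir
  -- the lifts
  let w : S → Tens X R := fun s a => ⟨e (s, a, 0), e (s, a, 1), e (s, a, 2), e (s, a, 3)⟩
  have hw1 : ∀ s, red X p (w s) = lam.val • s.1.v := by
    intro s
    apply Tens.ext
    intro a
    rw [Tens_nsmul_apply]
    have h0 := he1 (s, a, 0)
    have h1 := he1 (s, a, 1)
    have h2 := he1 (s, a, 2)
    have h3 := he1 (s, a, 3)
    simp only [coord] at h0 h1 h2 h3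
    ext
    · rw [C5_nsmul_a, ZMod.natCast_zmod_val, ← h0]; simp [red, w]
    · rw [C5_nsmul_b, ZMod.natCast_zmod_val, ← h1]; simp [red, w]
    · rw [C5_nsmul_c, ZMod.natCast_zmod_val, ← h2]; simp [red, w]
    · rw [C5_nsmul_d, ZMod.natCast_zmod_val, ← h3]; simp [red, w]
  have hw2 : ∀ s a, Bd (w s a) (p / B) := by
    intro s a
    exact ⟨he2 (s, a, 0), he2 (s, a, 1), he2 (s, a, 2), he2 (s, a, 3)⟩
  set D : ℕ := (2 * c) ^ Fintype.card X * (p / B) with hD
  have hkey : ∀ (t : Wr X Q) (s : S), ∃ z : ℤ, (z : ZMod p) = lam * ((t • s.1.v) 0).a ∧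
      |z| ≤ (D : ℤ) := by
    intro t s
    refine ⟨((t • w s) 0).a, ?_, (bd_smul c hc t (w s) (p / B) (hw2 s) 0).1⟩
    have h1 := red_smul p t (w s)
    rw [hw1] at h1
    have h2 : t • (lam.val • s.1.v) = lam.val • (t • s.1.v) :=
      map_nsmul (DistribSMul.toAddMonoidHom _ t) lam.val s.1.v
    rw [h2] at h1
    have h3 := congrArg C5.a (congrFun h1 0)
    rw [Tens_nsmul_apply, C5_nsmul_a, ZMod.natCast_zmod_val] at h3
    rw [← h3]
    simp [red]
  -- the functional
  let ψ : Aff (Wr X Q) (Tens X (C5 (ZMod p))) → ZMod p := fun g => lam * (g.v 0).a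
  have hψmul : ∀ y s, ψ (y * s) = ψ y + lam * ((y.t • s.v) 0).a := by
    intro y s
    simp only [ψ, Aff.mul_v, Tens.add_apply, C5.add_a]
    ring
  -- fibres
  have hfib : ∀ i, (ψ ⁻¹' {i}).ncard = (ψ ⁻¹' {0}).ncard := by
    intro i
    let v : Tens X (C5 (ZMod p)) := fun _ => ⟨lam⁻¹ * i, 0, 0, 0⟩
    let τ : Aff (Wr X Q) (Tens X (C5 (ZMod p))) := ⟨v, 1⟩
    have hτ : ∀ g, ψ (τ * g) = i + ψ g := by
      intro g
      rw [hψmul]
      have : ψ τ = i := by
        simp only [ψ, τ, v]
        field_simp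
      rw [this]
      congr 1
      simp only [ψ, τ, one_smul]
    have himg : ψ ⁻¹' {i} = (fun g => τ * g) '' (ψ ⁻¹' {0}) := by
      ext g
      simp only [Set.mem_preimage, Set.mem_singleton_iff, Set.mem_image]
      constructor
      · intro h
        refine ⟨τ⁻¹ * g, ?_, by group⟩
        have := hτ (τ⁻¹ * g)
        rw [mul_inv_cancel_left, h] at this
        have h' : i + ψ (τ⁻¹ * g) = i + 0 := by rw [← this, add_zero]
        exact add_left_cancel h'
      · rintro ⟨g', h, rfl⟩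
        rw [hτ, h, add_zero]
    rw [himg]
    exact Set.ncard_image_of_injective _ (mul_right_injective τ)
  set N := (ψ ⁻¹' {0}).ncard with hN
  have hcardG : Nat.card (Aff (Wr X Q) (Tens X (C5 (ZMod p)))) = p * N := by
    have h := ncard_preimage ψ N hfib Finset.univ
    rw [Finset.coe_univ, Set.preimage_univ, Set.ncard_univ, Finset.card_univ, ZMod.card] at h
    exact h
  have hNpos : 0 < N := by
    have : 0 < Nat.card (Aff (Wr X Q) (Tens X (C5 (ZMod p)))) := Nat.card_pos
    rw [hcardG] at this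
    exact Nat.pos_of_mul_pos_left this
  -- the set
  let A : Finset (ZMod p) := Finset.univ.filter (fun r => 1 ≤ r.val ∧ r.val ≤ (p - 1) / 2)
  have hAcard : A.card = (p - 1) / 2 := by
    have : A = (Finset.Icc 1 ((p - 1) / 2)).image (fun n : ℕ => (n : ZMod p)) := by
      ext r
      simp only [A, Finset.mem_filter, Finset.mem_univ, true_and, Finset.mem_image,
        Finset.mem_Icc]
      constructor
      · intro h
        exact ⟨r.val, h, ZMod.natCast_zmod_val r⟩
      · rintro ⟨n, hn, rfl⟩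
        rw [ZMod.val_natCast, Nat.mod_eq_of_lt (by omega)]
        exact hn
    rw [this, Finset.card_image_of_injOn, Nat.card_Icc]
    · omega
    · intro m hm n hn hmn
      simp only [Finset.coe_Icc, Set.mem_Icc] at hm hn
      have := congrArg ZMod.val hmn
      simp only [ZMod.val_natCast] at this
      rwa [Nat.mod_eq_of_lt (by omega), Nat.mod_eq_of_lt (by omega)] at this
  have hYcard : (ψ ⁻¹' (A : Set (ZMod p))).ncard = (p - 1) / 2 * N := by
    rw [ncard_preimage ψ N hfib A, hAcard]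
  -- the boundary
  let A' : Finset (ZMod p) :=
    ((Finset.Ioc (((p - 1) / 2 : ℕ) : ℤ) (((p - 1) / 2 : ℕ) + D)) ∪
      (Finset.Ioc (-(D : ℤ)) 0)).image (fun n : ℤ => (n : ZMod p))
  have hA'card : A'.card ≤ 2 * D := by
    refine (Finset.card_image_le).trans ((Finset.card_union_le _ _).trans ?_)
    rw [Int.card_Ioc, Int.card_Ioc]
    omega
  have hbdry : bdry S (ψ ⁻¹' (A : Set (ZMod p))) ⊆ ψ ⁻¹' (A' : Set (ZMod p)) := by
    rintro g ⟨hg, y, hy, s, hs, rfl⟩
    obtain ⟨z, hz1, hz2⟩ := hkey y.t ⟨s, hs⟩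
    have h1 : ψ (y * s) = (((ψ y).val : ℤ) + z : ℤ) := by
      rw [hψmul]
      push_cast
      rw [ZMod.natCast_zmod_val, hz1]
    simp only [Set.mem_preimage, Finset.mem_coe, A, Finset.mem_filter, Finset.mem_univ,
      true_and] at hy hg
    rw [abs_le] at hz2
    simp only [Set.mem_preimage, Finset.mem_coe, A', Finset.mem_image, Finset.mem_union,
      Finset.mem_Ioc]
    refine ⟨((ψ y).val : ℤ) + z, ?_, h1.symm⟩
    by_contra hcon
    push Not at hcon
    apply hg
    have h2 : 1 ≤ ((ψ y).val : ℤ) + z ∧ ((ψ y).val : ℤ) + z ≤ (((p - 1) / 2 : ℕ) : ℤ) := by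
      omega
    have h3 : ((((ψ y).val : ℤ) + z).toNat : ℤ) = ((ψ y).val : ℤ) + z :=
      Int.toNat_of_nonneg (by omega)
    have h4 : (ψ (y * s)).val = (((ψ y).val : ℤ) + z).toNat := by
      rw [h1, ← h3, Int.cast_natCast, ZMod.val_natCast, Int.toNat_natCast]
      exact Nat.mod_eq_of_lt (by omega)
    rw [h4]
    omega
  have hbcard : (bdry S (ψ ⁻¹' (A : Set (ZMod p)))).ncard ≤ 2 * D * N := by
    calc (bdry S (ψ ⁻¹' (A : Set (ZMod p)))).ncard ≤ (ψ ⁻¹' (A' : Set (ZMod p))).ncard :=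
          Set.ncard_le_ncard hbdry (Set.toFinite _)
      _ = A'.card * N := ncard_preimage ψ N hfib A'
      _ ≤ 2 * D * N := Nat.mul_le_mul_right _ hA'card
  refine ⟨ψ ⁻¹' (A : Set (ZMod p)), ?_, ?_, ?_⟩
  · rw [← Set.ncard_pos (Set.toFinite _), hYcard]
    exact Nat.mul_pos (by omega) hNpos
  · rw [hYcard, hcardG, ← mul_assoc]
    exact Nat.mul_le_mul_right _ (by omega)
  · rw [hYcard]
    have h1 : p / B * B ≤ p := Nat.div_mul_le_self p B
    have h2 : p ≤ 3 * ((p - 1) / 2) := by omega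
    calc (bdry S (ψ ⁻¹' (A : Set (ZMod p)))).ncard * B ≤ 2 * D * N * B :=
          Nat.mul_le_mul_right _ hbcard
      _ = 2 * (2 * c) ^ Fintype.card X * N * (p / B * B) := by rw [hD]; ring
      _ ≤ 2 * (2 * c) ^ Fintype.card X * N * p := Nat.mul_le_mul_left _ h1
      _ ≤ 2 * (2 * c) ^ Fintype.card X * N * (3 * ((p - 1) / 2)) := Nat.mul_le_mul_left _ h2
      _ = 6 * (2 * c) ^ Fintype.card X * ((p - 1) / 2 * N) := by ring
      _ ≤ 8 * (2 * c) ^ Fintype.card X * ((p - 1) / 2 * N) := by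
        apply Nat.mul_le_mul_right
        apply Nat.mul_le_mul_right
        norm_num

end Pool.Agent.Lib.MP_5cc0c1_al
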