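import Pool.Agent.Lib.MP_5cc0c1_al.Affine

/-!
# MP_5cc0c1_al : representations of `V ⋊ T` of small degree
-/

namespace Pool.Agent.Lib.MP_5cc0c1_al

variable {T V : Type} [Group T] [Finite T] [AddCommGroup V] [Finite V] [DistribMulAction T V]

namespace RepAff

section

variable {A : Type} [AddCommGroup A] [Fintype A]
  {W : Type*} [AddCommGroup W] [Module ℂ W]

/-- The projection onto the `χ`-eigenspace of a family `U` of commuting operators. -/
noncomputable def P (U : A → (W →ₗ[ℂ] W)) (χ : AddChar A ℂ) : W →ₗ[ℂ] W :=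
  (Fintype.card A : ℂ)⁻¹ • ∑ v, χ (-v) • U v

variable {U : A → (W →ₗ[ℂ] W)}

theorem U_mul_P (hadd : ∀ v w, U (v + w) = U v * U w) (χ : AddChar A ℂ) (v : A) :
    U v * P U χ = χ v • P U χ := by
  unfold P
  rw [mul_smul_comm, smul_comm (χ v), Finset.mul_sum]
  congr 1
  rw [Finset.smul_sum]
  rw [← Equiv.sum_comp (Equiv.addLeft v) (fun x => χ v • χ (-x) • U x)]
  refine Finset.sum_congr rfl fun w _ => ?_
  rw [mul_smul_comm, ← hadd, smul_smul, ← AddChar.map_add_eq_mul]
  simp

theorem sum_P (h0 : U 0 = 1) : ∑ χ : AddChar A ℂ, P U χ = 1 := by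
  classical
  unfold P
  rw [← Finset.smul_sum, Finset.sum_comm]
  simp_rw [← Finset.sum_smul]
  have : ∀ v : A, ∑ χ : AddChar A ℂ, χ (-v) = if v = 0 then (Fintype.card A : ℂ) else 0 := by
    intro v
    rw [AddChar.sum_apply_eq_ite]
    simp
  simp_rw [this]
  simp only [ite_smul, zero_smul, Finset.sum_ite_eq', Finset.mem_univ, if_true, h0]
  rw [smul_smul, inv_mul_cancel₀, one_smul]
  exact_mod_cast Fintype.card_ne_zero

theorem P_apply_self {χ : AddChar A ℂ} {w : W} (hw : ∀ v, U v w = χ v • w) : P U χ w = w := by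
  unfold P
  simp only [LinearMap.smul_apply, LinearMap.sum_apply, hw, smul_smul]
  have : ∀ v : A, χ (-v) * χ v = 1 := by
    intro v
    rw [← AddChar.map_add_eq_mul]
    simp
  simp only [this, one_smul, Finset.sum_const, Finset.card_univ]
  rw [← Nat.cast_smul_eq_nsmul ℂ, smul_smul, inv_mul_cancel₀, one_smul]
  exact_mod_cast Fintype.card_ne_zero

theorem P_apply_ne {χ ψ : AddChar A ℂ} (hne : χ ≠ ψ) {w : W} (hw : ∀ v, U v w = ψ v • w) :
    P U χ w = 0 := by
  classical
  unfold P
  simp only [LinearMap.smul_apply, LinearMap.sum_apply, hw, smul_smul]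
  rw [← Finset.sum_smul]
  have h1 : ∀ v : A, χ (-v) * ψ v = (ψ - χ) v := by
    intro v
    rw [AddChar.sub_apply, mul_comm]
  simp_rw [h1]
  rw [AddChar.sum_eq_ite, if_neg, zero_smul, smul_zero]
  intro h
  apply hne
  exact (sub_eq_zero.1 h).symm

theorem linearIndependent {ι : Type*} (χ : ι → AddChar A ℂ) (hχ : Function.Injective χ)
    (w : ι → W) (hw0 : ∀ i, w i ≠ 0) (hw : ∀ i v, U v (w i) = χ i v • w i) :
    LinearIndependent ℂ w := by
  classical
  rw [linearIndependent_iff']
  intro s g hg i hi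
  have h := congrArg (P U (χ i)) hg
  rw [map_sum, map_zero, Finset.sum_eq_single_of_mem i hi, map_smul,
    P_apply_self (hw i)] at h
  · exact (smul_eq_zero.1 h).resolve_right (hw0 i)
  · intro j _ hji
    rw [map_smul, P_apply_ne (fun h' => hji (hχ h').symm) (hw j), smul_zero]

end

end RepAff

open RepAff in
/-- representations of `V ⋊ T` of small degree are trivial on `V` -/
theorem rep_aff (p : ℕ) [Fact p.Prime] (hpV : ∀ v : V, p • v = 0) (hpT : ¬ p ∣ Nat.card T)
    (N : ℕ) (hfix : ∀ H : Subgroup T, H.index < N → ∀ v : V, (∀ h ∈ H, h • v = v) → v = 0)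
    {W : Type*} [AddCommGroup W] [Module ℂ W] [FiniteDimensional ℂ W]
    (ρ : Representation ℂ (Aff T V) W) (hW : Module.finrank ℂ W < N) (v : V) :
    ρ ⟨v, 1⟩ = 1 := by
  classical
  cases nonempty_fintype V
  by_contra hne
  set U : V → (W →ₗ[ℂ] W) := fun v => ρ ⟨v, 1⟩ with hU
  have h0 : U 0 = 1 := map_one ρ
  have hadd : ∀ v w, U (v + w) = U v * U w := by
    intro v w
    simp only [hU]
    rw [← map_mul]
    congr 1
    ext <;> simp
  -- a nontrivial character with an eigenvector
  obtain ⟨χ, hχv, hχ⟩ : ∃ χ : AddChar V ℂ, χ v ≠ 1 ∧ P U χ ≠ 0 := by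
    by_contra hcon
    push Not at hcon
    apply hne
    have h1 : U v = ∑ χ : AddChar V ℂ, χ v • P U χ := by
      have := congrArg (fun A => U v * A) (sum_P h0)
      simp only [mul_one, Finset.mul_sum, U_mul_P hadd] at this
      exact this.symm
    change U v = 1
    rw [h1, ← sum_P h0]
    refine Finset.sum_congr rfl fun χ _ => ?_
    by_cases hc : χ v = 1
    · rw [hc, one_smul]
    · rw [hcon χ hc, smul_zero]
  obtain ⟨w', hw'⟩ : ∃ w', P U χ w' ≠ 0 := by
    by_contra hcon
    push Not at hcon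
    exact hχ (LinearMap.ext hcon)
  set w := P U χ w' with hwdef
  have hw : ∀ v, U v w = χ v • w := by
    intro v
    have := congrArg (fun A => A w') (U_mul_P hadd χ v)
    simpa using this
  -- translates of the eigenvector
  let χt : T → AddChar V ℂ := fun t =>
    { toFun := fun v => χ (t⁻¹ • v)
      map_zero_eq_one' := by simp
      map_add_eq_mul' := fun a b => by simp [AddChar.map_add_eq_mul] }
  have hχt : ∀ t v, χt t v = χ (t⁻¹ • v) := fun _ _ => rfl
  let wt : T → W := fun t => ρ ⟨0, t⟩ w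
  have hwt : ∀ t v, U v (wt t) = χt t v • wt t := by
    intro t v
    change ρ ⟨v, 1⟩ (ρ ⟨0, t⟩ w) = _
    rw [← Module.End.mul_apply, ← map_mul]
    have : (⟨v, 1⟩ : Aff T V) * ⟨0, t⟩ = ⟨0, t⟩ * ⟨t⁻¹ • v, 1⟩ := by
      ext <;> simp
    rw [this, map_mul, Module.End.mul_apply]
    change ρ ⟨0, t⟩ (U (t⁻¹ • v) w) = _
    rw [hw, map_smul, hχt]
  have hwt0 : ∀ t, wt t ≠ 0 := by
    intro t ht
    apply hw'
    have : ρ ⟨0, t⁻¹⟩ (wt t) = w := by
      change ρ ⟨0, t⁻¹⟩ (ρ ⟨0, t⟩ w) = w
      rw [← Module.End.mul_apply, ← map_mul]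
      have : (⟨0, t⁻¹⟩ : Aff T V) * ⟨0, t⟩ = 1 := by
        ext <;> simp
      rw [this, map_one]
      rfl
    rw [← this, ht, map_zero]
  -- the stabilizer of the character
  let H : Subgroup T :=
    { carrier := {h | ∀ v, χ (h • v) = χ v}
      one_mem' := by intro v; simp
      mul_mem' := by
        intro a b ha hb v
        rw [mul_smul, ha, hb]
      inv_mem' := by
        intro a ha v
        have := ha (a⁻¹ • v)
        rw [smul_inv_smul] at this
        exact this.symm }
  have hH : ∀ h, h ∈ H ↔ ∀ v, χ (h • v) = χ v := fun _ => Iff.rfl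
  have hinj : Function.Injective (fun q : T ⧸ H => χt q.out) := by
    intro q q' h
    rw [← q.out_eq', ← q'.out_eq']
    apply Quotient.sound'
    rw [QuotientGroup.leftRel_apply, hH]
    intro v
    have := DFunLike.congr_fun h (q'.out • v)
    simp only [hχt] at this
    rw [inv_smul_smul] at this
    rw [mul_smul, this]
  have hli : LinearIndependent ℂ (fun q : T ⧸ H => wt q.out) :=
    linearIndependent (U := U) (fun q => χt q.out) hinj _ (fun _ => hwt0 _) (fun _ v => hwt _ v)
  have hidx : H.index < N := by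
    refine lt_of_le_of_lt ?_ hW
    rw [Subgroup.index]
    haveI : Fintype (T ⧸ H) := Fintype.ofFinite _
    rw [Nat.card_eq_fintype_card]
    exact hli.fintype_card_le_finrank
  have htop := coinv_top p hpV hpT H (hfix H hidx)
  let K : AddSubgroup V :=
    { carrier := {v | χ v = 1}
      zero_mem' := by simp
      add_mem' := by
        intro a b ha hb
        simp only [Set.mem_ofPred_eq] at *
        rw [AddChar.map_add_eq_mul, ha, hb, one_mul]
      neg_mem' := by
        intro a ha
        simp only [Set.mem_ofPred_eq] at *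
        rw [AddChar.map_neg_eq_inv, ha, inv_one] }
  have hle : AddSubgroup.closure {x : V | ∃ h ∈ H, ∃ v : V, x = h • v - v} ≤ K := by
    rw [AddSubgroup.closure_le]
    rintro x ⟨h, hh, v, rfl⟩
    change χ (h • v - v) = 1
    rw [sub_eq_add_neg, AddChar.map_add_eq_mul, (hH h).1 hh v, ← AddChar.map_add_eq_mul]
    simp
  rw [htop] at hle
  exact hχv (hle (AddSubgroup.mem_top v))

end Pool.Agent.Lib.MP_5cc0c1_al
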