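import Pool.Agent.Lib.MP_5cc0c1_al.Statement

/-!
# MP_5cc0c1_al : counting irreducible representations
-/

namespace Pool.Agent.Lib.MP_5cc0c1_al

/-- If all irreducible representations of degree `≤ k` are trivial on the normal subgroup `N`, then
there are at most `|G : N|` of them. -/
theorem numIrreps_le (G : Type) [Group G] [Finite G] (k : ℕ) (N : Subgroup G) [N.Normal]
    (h : ∀ a : Irrep G k, ∀ n ∈ N, a.ρ n = 1) : numIrreps G k ≤ (N.index : ℕ∞) := by
  classical
  have : Fintype G := Fintype.ofFinite G
  have : Fintype (G ⧸ N) := Fintype.ofFinite _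
  have hcard : (Nat.card G : ℂ) ≠ 0 := by exact_mod_cast Nat.card_pos.ne'
  let : Invertible (Nat.card G : ℂ) := invertibleOfNonzero hcard
  -- the characters as functions on `G ⧸ N`
  let f : Quotient (irrepSetoid G k) → (G ⧸ N → ℂ) := fun q c => q.out.ρ.character c.out
  have hf : ∀ (q : Quotient (irrepSetoid G k)) (g : G), f q (g : G ⧸ N) = q.out.ρ.character g := by
    intro q g
    have h1 : ((Quotient.out (g : G ⧸ N)))⁻¹ * g ∈ N := by
      rw [← QuotientGroup.eq]
      exact QuotientGroup.out_eq' _
    have h2 : g = Quotient.out (g : G ⧸ N) * ((Quotient.out (g : G ⧸ N))⁻¹ * g) := by group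
    change q.out.ρ.character (Quotient.out (g : G ⧸ N)) = _
    conv_rhs => rw [h2]
    unfold Representation.character
    rw [map_mul, h q.out _ h1, mul_one]
  let φ : Quotient (irrepSetoid G k) → ((G ⧸ N → ℂ) →ₗ[ℂ] ℂ) := fun p =>
    { toFun := fun F => (Nat.card G : ℂ)⁻¹ * ∑ g : G, F (g : G ⧸ N) * p.out.ρ.character g⁻¹
      map_add' := by
        intro F F'
        simp only [Pi.add_apply, add_mul, Finset.sum_add_distrib, mul_add]
      map_smul' := by
        intro c F
        simp only [Pi.smul_apply, smul_eq_mul, RingHom.id_apply, Finset.mul_sum]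
        refine Finset.sum_congr rfl (fun g _ => ?_)
        ring }
  have hφ : ∀ p q, φ p (f q) = if p = q then 1 else 0 := by
    intro p q
    have := p.out.irr
    have := q.out.irr
    have h1 := Representation.char_orthonormal q.out.ρ p.out.ρ
    change (Nat.card G : ℂ)⁻¹ * ∑ g : G, f q (g : G ⧸ N) * p.out.ρ.character g⁻¹ = _
    simp_rw [hf]
    rw [h1]
    have h2 : Nonempty (p.out.ρ.Equiv q.out.ρ) ↔ p = q := by
      constructor
      · intro hne
        rw [← Quotient.out_eq p, ← Quotient.out_eq q]
        exact Quotient.sound hne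
      · rintro rfl
        exact ⟨Representation.Equiv.refl _⟩
    by_cases hpq : p = q
    · rw [if_pos (h2.2 hpq), if_pos hpq]
    · rw [if_neg (fun hh => hpq (h2.1 hh)), if_neg hpq]
  have hli : LinearIndependent ℂ f := by
    rw [linearIndependent_iff']
    intro s c hs i hi
    have h1 : φ i (∑ j ∈ s, c j • f j) = 0 := by rw [hs, map_zero]
    rw [map_sum] at h1
    simp only [map_smul, hφ, smul_eq_mul, mul_ite, mul_one, mul_zero, Finset.sum_ite_eq, hi,
      if_true] at h1
    exact h1
  have hfin : Finite (Quotient (irrepSetoid G k)) := hli.finite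
  have : Fintype (Quotient (irrepSetoid G k)) := Fintype.ofFinite _
  have h3 := hli.fintype_card_le_finrank
  rw [Module.finrank_fintype_fun_eq_card, ← Nat.card_eq_fintype_card, ← Nat.card_eq_fintype_card]
    at h3
  unfold numIrreps
  rw [Subgroup.index_eq_card, ENat.card_eq_coe_natCard]
  exact_mod_cast h3

end Pool.Agent.Lib.MP_5cc0c1_al
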