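import Pool.Agent.Lib.MP_5cc0c1_al.FixIndex
import Pool.Agent.Lib.MP_5cc0c1_al.RepAff
import Pool.Agent.Lib.MP_5cc0c1_al.RepCount
import Pool.Agent.Lib.MP_5cc0c1_al.NonExp

/-!
# MP_5cc0c1_al : assembly
-/

namespace Pool.Agent.Lib.MP_5cc0c1_al

open Filter

/-- the constant `16 |Ico|²` -/
noncomputable def cT : ℕ := 16 * Nat.card Ico ^ 2

/-- the constant for (A) -/
noncomputable def c0 : ℕ := 2 ^ 100 * cT

theorem card_Ico_pos : 0 < Nat.card Ico := Nat.card_pos

theorem cT_pos : 1 ≤ cT := by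
  have := card_Ico_pos
  unfold cT
  have : 0 < Nat.card Ico ^ 2 := pow_pos this 2
  omega

theorem c0_pos : 1 ≤ c0 := by
  have h := cT_pos
  unfold c0
  have : 0 < 2 ^ 100 * cT := by positivity
  omega

theorem cT_le_c0 : cT ≤ c0 := by
  unfold c0
  exact Nat.le_mul_of_pos_left _ (by positivity)

section single

variable (q : ℕ) [Fact q.Prime]

theorem card_T_le' : Nat.card (T q) ≤ cT ^ q := by
  refine (card_T_le q).trans ?_
  have hq : 2 ≤ q := (Fact.out : q.Prime).two_le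
  have h1 : Nat.card Ico ^ (q + 1) ≤ (Nat.card Ico ^ 2) ^ q := by
    rw [← pow_mul]
    exact Nat.pow_le_pow_right card_Ico_pos (by omega)
  have h2 : q ^ 4 ≤ 16 ^ q := by
    have : q ≤ 2 ^ q := (Nat.lt_two_pow_self).le
    calc q ^ 4 ≤ (2 ^ q) ^ 4 := Nat.pow_le_pow_left this 4
      _ = 16 ^ q := by rw [← pow_mul, mul_comm, pow_mul]; norm_num
  calc Nat.card Ico ^ (q + 1) * q ^ 4 ≤ (Nat.card Ico ^ 2) ^ q * 16 ^ q := Nat.mul_le_mul h1 h2
    _ = cT ^ q := by unfold cT; rw [mul_pow]; ring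

theorem growth (l : ℕ) : 8 * 4 ^ l * l ^ 2 ≤ 100 * 5 ^ l := by
  rcases lt_or_ge l 9 with h | h
  · interval_cases l <;> norm_num
  · induction l, h using Nat.le_induction with
    | base => norm_num
    | succ n hn ih =>
      have h1 : 4 * (n + 1) ^ 2 ≤ 5 * n ^ 2 := by nlinarith
      calc 8 * 4 ^ (n + 1) * (n + 1) ^ 2 = 8 * 4 ^ n * (4 * (n + 1) ^ 2) := by ring
        _ ≤ 8 * 4 ^ n * (5 * n ^ 2) := Nat.mul_le_mul_left _ h1
        _ = 5 * (8 * 4 ^ n * n ^ 2) := by ring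
        _ ≤ 5 * (100 * 5 ^ n) := Nat.mul_le_mul_left _ ih
        _ = 100 * 5 ^ (n + 1) := by ring

/-- The exponent `2^l l²`. -/
def ex (l : ℕ) : ℕ := 2 ^ l * l ^ 2

variable (p : ℕ) [Fact p.Prime]

/-- `V` -/
abbrev V : Type := Tens (P1 q) (C5 (ZMod p))

/-- `G = V ⋊ T` -/
abbrev Grp : Type := Aff (T q) (V q p)

instance : Finite (Grp q p) := Finite.of_equiv _ (Aff.equivProd (T := T q) (V := V q p)).symm

theorem card_Grp : Nat.card (Grp q p) = Nat.card (V q p) * Nat.card (T q) := by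
  rw [Nat.card_congr (Aff.equivProd (T := T q) (V := V q p)), Nat.card_prod]

theorem card_V_le (hp : p ≤ 2 * 2 ^ ex (q + 1)) : Nat.card (V q p) ≤ (2 ^ 100) ^ (5 ^ (q + 1)) := by
  rw [card_V, card_P1]
  calc p ^ (4 * 2 ^ (q + 1)) ≤ (2 * 2 ^ ex (q + 1)) ^ (4 * 2 ^ (q + 1)) := Nat.pow_le_pow_left hp _
    _ = 2 ^ ((ex (q + 1) + 1) * (4 * 2 ^ (q + 1))) := by rw [← pow_succ', ← pow_mul]
    _ ≤ 2 ^ (100 * 5 ^ (q + 1)) := by
        apply Nat.pow_le_pow_right (by norm_num)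
        refine le_trans ?_ (growth (q + 1))
        have h4 : (4 : ℕ) ^ (q + 1) = 2 ^ (q + 1) * 2 ^ (q + 1) := by
          rw [← mul_pow]; norm_num
        rw [h4]
        have h5 : 1 ≤ ex (q + 1) := by
          unfold ex
          exact Nat.mul_pos (by positivity) (by positivity)
        have h6 : ex (q + 1) + 1 ≤ 2 * ex (q + 1) := by omega
        calc (ex (q + 1) + 1) * (4 * 2 ^ (q + 1)) ≤ (2 * ex (q + 1)) * (4 * 2 ^ (q + 1)) :=
              Nat.mul_le_mul_right _ h6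
          _ = _ := by unfold ex; ring
    _ = _ := by rw [pow_mul]

theorem card_Grp_le (hp : p ≤ 2 * 2 ^ ex (q + 1)) :
    Nat.card (Grp q p) ≤ c0 ^ (5 ^ (q + 1)) := by
  rw [card_Grp]
  have hq5 : q ≤ 5 ^ (q + 1) := by
    calc q ≤ q + 1 := by omega
      _ ≤ 5 ^ (q + 1) := (Nat.lt_pow_self (by norm_num)).le
  calc Nat.card (V q p) * Nat.card (T q)
      ≤ (2 ^ 100) ^ (5 ^ (q + 1)) * cT ^ (5 ^ (q + 1)) :=
        Nat.mul_le_mul (card_V_le q p hp)
          ((card_T_le' q).trans (Nat.pow_le_pow_right cT_pos hq5))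
    _ = c0 ^ (5 ^ (q + 1)) := by unfold c0; rw [mul_pow]

/-- conditions on `(q,p)` -/
structure Good : Prop where
  hq : 7 ≤ q
  hqc : cT ≤ q
  hp1 : 2 ^ ex (q + 1) < p
  hp2 : p ≤ 2 * 2 ^ ex (q + 1)

variable {q p}

theorem Good.pow_le (h : Good q p) : 5 ^ (q + 1) ≤ p := by
  have h1 : (5 : ℕ) ^ (q + 1) ≤ 8 ^ (q + 1) := Nat.pow_le_pow_left (by norm_num) _
  have h2 : (8 : ℕ) ^ (q + 1) = 2 ^ (3 * (q + 1)) := by rw [pow_mul]; norm_num
  have h3 : 3 * (q + 1) ≤ ex (q + 1) := by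
    unfold ex
    have h7 := h.hq
    have h4 : 1 ≤ 2 ^ (q + 1) := Nat.one_le_two_pow
    have h5 : 3 * (q + 1) ≤ (q + 1) ^ 2 := by nlinarith
    calc 3 * (q + 1) ≤ (q + 1) ^ 2 := h5
      _ = 1 * (q + 1) ^ 2 := by ring
      _ ≤ 2 ^ (q + 1) * (q + 1) ^ 2 := Nat.mul_le_mul_right _ h4
  have h6 : 2 ^ (3 * (q + 1)) ≤ 2 ^ ex (q + 1) := Nat.pow_le_pow_right (by norm_num) h3
  have := h.hp1
  omega

theorem Good.three_le (h : Good q p) : 3 ≤ p := by
  have h1 := h.pow_le
  have h2 : 5 ^ 1 ≤ 5 ^ (q + 1) := Nat.pow_le_pow_right (by norm_num) (by omega)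
  omega

theorem Good.card_T_lt (h : Good q p) : Nat.card (T q) < p := by
  refine lt_of_le_of_lt (card_T_le' q) (lt_of_le_of_lt ?_ h.hp1)
  have h1 : cT ≤ 2 ^ cT := (Nat.lt_two_pow_self).le
  calc cT ^ q ≤ (2 ^ cT) ^ q := Nat.pow_le_pow_left h1 q
    _ = 2 ^ (cT * q) := by rw [pow_mul]
    _ ≤ 2 ^ ex (q + 1) := by
        apply Nat.pow_le_pow_right (by norm_num)
        unfold ex
        have h2 := h.hqc
        have h4 : 1 ≤ 2 ^ (q + 1) := Nat.one_le_two_pow
        calc cT * q ≤ q * q := Nat.mul_le_mul_right _ h2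
          _ ≤ (q + 1) ^ 2 := by nlinarith
          _ = 1 * (q + 1) ^ 2 := by ring
          _ ≤ 2 ^ (q + 1) * (q + 1) ^ 2 := Nat.mul_le_mul_right _ h4

theorem Good.not_dvd (h : Good q p) : ¬ p ∣ Nat.card (T q) := by
  intro hd
  exact absurd (Nat.le_of_dvd Nat.card_pos hd) (not_le.mpr h.card_T_lt)

theorem exponent_C5 (x : C5 (ZMod p)) : p • x = 0 := by
  let fa : C5 (ZMod p) →+ ZMod p := ⟨⟨C5.a, rfl⟩, fun _ _ => rfl⟩
  let fb : C5 (ZMod p) →+ ZMod p := ⟨⟨C5.b, rfl⟩, fun _ _ => rfl⟩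
  let fc : C5 (ZMod p) →+ ZMod p := ⟨⟨C5.c, rfl⟩, fun _ _ => rfl⟩
  let fd : C5 (ZMod p) →+ ZMod p := ⟨⟨C5.d, rfl⟩, fun _ _ => rfl⟩
  have h : ∀ f : C5 (ZMod p) →+ ZMod p, f (p • x) = 0 := by
    intro f
    rw [map_nsmul]
    simp
  ext
  · exact h fa
  · exact h fb
  · exact h fc
  · exact h fd

theorem exponent_V (v : V q p) : p • v = 0 := by
  apply Tens.ext
  intro a
  exact exponent_C5 (v a)

theorem Good.fix (h : Good q p) (H : Subgroup (T q)) (hH : H.index < 5 ^ (q + 1)) (v : V q p)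
    (hv : ∀ h ∈ H, h • v = v) : v = 0 := by
  by_contra hne
  have h2 : ∀ m : C5 (ZMod p), m + m = 0 → m = 0 := by
    intro m hm
    have h3 := h.three_le
    have hchar : (2 : ZMod p) ≠ 0 := by
      intro h20
      have : (p : ℕ) ∣ 2 := by
        rw [← ZMod.natCast_eq_zero_iff]
        exact_mod_cast h20
      exact absurd (Nat.le_of_dvd (by norm_num) this) (by omega)
    have key : ∀ x : ZMod p, x + x = 0 → x = 0 := by
      intro x hx
      rw [← two_mul] at hx
      exact (mul_eq_zero.mp hx).resolve_left hchar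
    ext
    · exact key _ (congrArg C5.a hm)
    · exact key _ (congrArg C5.b hm)
    · exact key _ (congrArg C5.c hm)
    · exact key _ (congrArg C5.d hm)
  have h5 := fix_index h2 (H.comap Wr.base) v hne (by
    intro f hf
    rw [← Wr.base_smul (Q := Q q)]
    exact hv _ hf)
  rw [card_P1] at h5
  have h6 : (H.comap (Wr.base : (P1 q → Ico) →* T q)).index ≤ H.index := by
    rw [Subgroup.index_comap, ← Subgroup.relIndex_top_right]
    apply Subgroup.relIndex_le_of_le_right le_top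
    rw [Subgroup.relIndex_top_right]
    exact Subgroup.index_ne_zero_of_finite
  omega

theorem card_abelianization_le (G : Type) [Group G] [Finite G] :
    Nat.card (Abelianization G) ≤ Nat.card G :=
  Nat.card_le_card_of_surjective Abelianization.of (QuotientGroup.mk'_surjective _)

theorem Good.condA (h : Good q p) (H : Subgroup (Grp q p)) :
    Nat.card (Abelianization H) ≤ c0 ^ H.index := by
  have hc0 := c0_pos
  rcases lt_or_ge H.index (5 ^ (q + 1)) with hlt | hge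
  · obtain ⟨H0, hi, hle⟩ := aff_A p exponent_V h.not_dvd (5 ^ (q + 1)) h.pow_le h.fix H hlt
    refine hle.trans ?_
    rw [← hi]
    rcases lt_or_ge H0.index q with h1 | h1
    · have htop := T_index q H0 h1
      subst htop
      have h3 : Nat.card (Abelianization (⊤ : Subgroup (T q))) =
          Nat.card (Abelianization (T q)) :=
        Nat.card_congr (MulEquiv.abelianizationCongr Subgroup.topEquiv).toEquiv
      have h4 : Nat.card (Abelianization (T q)) = (commutator (T q)).index := rfl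
      rw [h3, h4, T_perfect q (by have := h.hq; omega), Subgroup.index_top]
      exact Nat.one_le_pow _ _ hc0
    · calc Nat.card (Abelianization H0) ≤ Nat.card H0 := card_abelianization_le _
        _ ≤ Nat.card (T q) := Subgroup.card_le_card_group _
        _ ≤ cT ^ q := card_T_le' q
        _ ≤ c0 ^ q := Nat.pow_le_pow_left cT_le_c0 q
        _ ≤ c0 ^ H0.index := Nat.pow_le_pow_right hc0 h1
  · calc Nat.card (Abelianization H) ≤ Nat.card H := card_abelianization_le _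
      _ ≤ Nat.card (Grp q p) := Subgroup.card_le_card_group _
      _ ≤ c0 ^ (5 ^ (q + 1)) := card_Grp_le q p h.hp2
      _ ≤ c0 ^ H.index := Nat.pow_le_pow_right hc0 hge

theorem Good.condR (h : Good q p) (k : ℕ) (hk : 1 ≤ k) :
    numIrreps (Grp q p) k ≤ (((c0 ^ 3) ^ (k ^ 2) : ℕ) : ℕ∞) := by
  have hc0 := c0_pos
  have hkk : k ≤ k ^ 2 := Nat.le_self_pow (by norm_num) k
  rcases lt_or_ge k (5 ^ (q + 1)) with hlt | hge
  · have hV : ∀ (a : Irrep (Grp q p) k) (v : V q p), a.ρ ⟨v, 1⟩ = 1 := by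
      intro a v
      apply rep_aff p exponent_V h.not_dvd (5 ^ (q + 1)) h.fix
      rw [Module.finrank_fin_fun]
      exact lt_of_le_of_lt a.deg_le hlt
    rcases lt_or_ge (2 * k) (q - 1) with h1 | h1
    · have := numIrreps_le (Grp q p) k ⊤ (by
        intro a n _
        have hn : n = (⟨n.v, 1⟩ : Grp q p) * Aff.inc n.t := by
          ext <;> simp [Aff.inc]
        rw [hn, map_mul, hV, one_mul]
        have h2 := rep_trivial q (a.ρ.comp Aff.inc) (by
          rw [Module.finrank_fin_fun]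
          have := a.deg_le
          omega) n.t
        exact h2)
      refine this.trans ?_
      rw [Subgroup.index_top]
      exact_mod_cast Nat.one_le_pow _ _ (Nat.pos_of_ne_zero (by positivity))
    · have := numIrreps_le (Grp q p) k (Aff.lin (T := T q) (V := V q p)).ker (by
        intro a n hn
        have h2 : n = (⟨n.v, 1⟩ : Grp q p) := by
          ext
          · rfl
          · exact hn
        rw [h2, hV])
      refine this.trans ?_
      rw [Subgroup.index_ker]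
      have h3 : Nat.card (Aff.lin (T := T q) (V := V q p)).range ≤ Nat.card (T q) :=
        Subgroup.card_le_card_group _
      have h4 : q ≤ 3 * k ^ 2 := by omega
      norm_cast
      calc Nat.card (Aff.lin (T := T q) (V := V q p)).range ≤ Nat.card (T q) := h3
        _ ≤ cT ^ q := card_T_le' q
        _ ≤ c0 ^ q := Nat.pow_le_pow_left cT_le_c0 q
        _ ≤ c0 ^ (3 * k ^ 2) := Nat.pow_le_pow_right hc0 h4
        _ = (c0 ^ 3) ^ (k ^ 2) := by rw [pow_mul]
  · have := numIrreps_le (Grp q p) k ⊥ (by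
      intro a n hn
      rw [Subgroup.mem_bot] at hn
      rw [hn, map_one])
    refine this.trans ?_
    rw [Subgroup.index_bot]
    norm_cast
    calc Nat.card (Grp q p) ≤ c0 ^ (5 ^ (q + 1)) := card_Grp_le q p h.hp2
      _ ≤ c0 ^ (3 * k ^ 2) := Nat.pow_le_pow_right hc0 (by omega)
      _ = (c0 ^ 3) ^ (k ^ 2) := by rw [pow_mul]

theorem Good.gen (h : Good q p) : ∃ x y : Grp q p, Subgroup.closure {x, y} = ⊤ :=
  ⟨⟨0, xT q⟩, ⟨e0 (P1 q) p, yT q⟩, aff_gen p exponent_V h.not_dvd (xT q) (yT q)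
    (closure_xT_yT q h.hq) (5 * q) (by
      intro hd
      have h1 := h.pow_le
      have h2 : 5 * q < 5 ^ (q + 1) := by
        rw [pow_succ, mul_comm]
        exact Nat.mul_lt_mul_of_pos_right (Nat.lt_pow_self (by norm_num)) (by norm_num)
      have hq := h.hq
      exact absurd (Nat.le_of_dvd (by omega) hd) (by omega))
    (norm_xT q h.hq) (e0 (P1 q) p) (e0_generates p)⟩

theorem Good.nonexp (h : Good q p) (c : ℕ)
    (hc : ∀ (g : Ico) (i j : Fin 2) (x : R) (B : ℕ), Bd x B → Bd (ent g i j * x) (c * B))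
    (hc1 : 1 ≤ c) (K B0 : ℕ) (hB0 : 1 ≤ B0) (hl : 4 * K * (2 * c + B0) ≤ q)
    (S : Set (Grp q p)) (hS : S.Finite) (hSK : S.ncard ≤ K) :
    ∃ Y : Set (Grp q p), Y.Nonempty ∧ 2 * Y.ncard ≤ Nat.card (Grp q p) ∧
      (bdry S Y).ncard * B0 ≤ 8 * Y.ncard := by
  obtain ⟨Y, hY, hY2, hY3⟩ := Pool.Agent.Lib.MP_5cc0c1_al.nonexp (X := P1 q) (Q := Q q) p h.three_le c hc K
    ((2 * c) ^ (q + 1) * B0) (by positivity) (by
      rw [card_P1]
      refine lt_of_le_of_lt ?_ h.hp1
      have h1 : (2 * c) ^ (q + 1) * B0 ≤ 2 ^ ((2 * c + B0) * (q + 1)) := by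
        calc (2 * c) ^ (q + 1) * B0 ≤ (2 ^ (2 * c)) ^ (q + 1) * 2 ^ B0 :=
              Nat.mul_le_mul (Nat.pow_le_pow_left (Nat.lt_two_pow_self).le _)
                (Nat.lt_two_pow_self).le
          _ = 2 ^ (2 * c * (q + 1) + B0) := by rw [← pow_mul, ← pow_add]
          _ ≤ 2 ^ ((2 * c + B0) * (q + 1)) := by
              apply Nat.pow_le_pow_right (by norm_num)
              nlinarith
      calc ((2 * c) ^ (q + 1) * B0) ^ (4 * 2 ^ (q + 1) * K)
          ≤ (2 ^ ((2 * c + B0) * (q + 1))) ^ (4 * 2 ^ (q + 1) * K) := Nat.pow_le_pow_left h1 _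
        _ = 2 ^ ((4 * K * (2 * c + B0)) * (q + 1) * 2 ^ (q + 1)) := by
            rw [← pow_mul]
            congr 1
            ring
        _ ≤ 2 ^ ex (q + 1) := by
            apply Nat.pow_le_pow_right (by norm_num)
            unfold ex
            calc 4 * K * (2 * c + B0) * (q + 1) * 2 ^ (q + 1)
                ≤ q * (q + 1) * 2 ^ (q + 1) := by gcongr
              _ ≤ (q + 1) * (q + 1) * 2 ^ (q + 1) := by gcongr; omega
              _ = 2 ^ (q + 1) * (q + 1) ^ 2 := by ring) S hS hSK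
  refine ⟨Y, hY, hY2, ?_⟩
  rw [card_P1] at hY3
  have h2 : 0 < (2 * c) ^ (q + 1) := by positivity
  have h3 : (2 * c) ^ (q + 1) * ((bdry S Y).ncard * B0) ≤ (2 * c) ^ (q + 1) * (8 * Y.ncard) := by
    calc _ = (bdry S Y).ncard * ((2 * c) ^ (q + 1) * B0) := by ring
      _ ≤ _ := hY3
      _ = _ := by ring
  exact Nat.le_of_mul_le_mul_left h3 h2

end single

/-! ### The sequence -/

theorem exists_good (n : ℕ) : ∃ q p : ℕ, n ≤ q ∧ ∃ (_ : Fact q.Prime) (_ : Fact p.Prime), Good q p := by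
  obtain ⟨q, hq, hqp⟩ := Nat.exists_infinite_primes (n + cT + 7)
  obtain ⟨p, hp, hp1, hp2⟩ := Nat.exists_prime_lt_and_le_two_mul (2 ^ ex (q + 1)) (by positivity)
  exact ⟨q, p, by omega, ⟨hqp⟩, ⟨hp⟩, ⟨by omega, by omega, hp1, hp2⟩⟩

/-- `q_n` -/
noncomputable def qs (n : ℕ) : ℕ := (exists_good n).choose

/-- `p_n` -/
noncomputable def ps (n : ℕ) : ℕ := (exists_good n).choose_spec.choose

theorem le_qs (n : ℕ) : n ≤ qs n := (exists_good n).choose_spec.choose_spec.1

instance fact_qs (n : ℕ) : Fact (qs n).Prime := (exists_good n).choose_spec.choose_spec.2.choose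

instance fact_ps (n : ℕ) : Fact (ps n).Prime :=
  (exists_good n).choose_spec.choose_spec.2.choose_spec.choose

theorem good (n : ℕ) : Good (qs n) (ps n) :=
  (exists_good n).choose_spec.choose_spec.2.choose_spec.choose_spec

/-- The sequence of groups `G_n`. -/
abbrev Gs (n : ℕ) : Type := Grp (qs n) (ps n)

theorem card_tendsto : Tendsto (fun n => Nat.card (Gs n)) atTop atTop := by
  apply tendsto_atTop_mono _ tendsto_id
  intro n
  change n ≤ Nat.card (Grp (qs n) (ps n))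
  rw [card_Grp, card_V]
  have h1 := le_qs n
  have h2 := (good n).pow_le
  have h3 : qs n ≤ 5 ^ (qs n + 1) :=
    (Nat.le_succ _).trans (Nat.lt_pow_self (by norm_num)).le
  have h4 : ps n ≤ ps n ^ (4 * 2 ^ Fintype.card (P1 (qs n))) :=
    Nat.le_self_pow (by positivity) _
  have h5 : 0 < Nat.card (T (qs n)) := Nat.card_pos
  calc n ≤ ps n ^ (4 * 2 ^ Fintype.card (P1 (qs n))) * 1 := by omega
    _ ≤ _ := Nat.mul_le_mul_left _ h5

theorem main : ∃ (G : ℕ → Type) (_ : ∀ n, Group (G n)),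
    (∀ n, Finite (G n)) ∧ Tendsto (fun n => Nat.card (G n)) atTop atTop ∧
    (∀ n, ∃ x y : G n, Subgroup.closure {x, y} = ⊤) ∧ CondA G ∧ CondR G ∧
    ∀ φ : ℕ → ℕ, StrictMono φ → ¬ IsExpanding (fun n => G (φ n)) := by
  refine ⟨Gs, fun n => inferInstance, fun n => inferInstance, card_tendsto,
    fun n => (good n).gen, ⟨c0, fun n H => ?_⟩, ⟨c0 ^ 3, fun n k hk => (good n).condR k hk⟩, ?_⟩
  · exact_mod_cast (good n).condA H
  · rintro φ hφ ⟨K, ε, hε, hexp⟩
    obtain ⟨c, hc1, hc⟩ := exists_bd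
    obtain ⟨B0, hB0⟩ := exists_nat_gt (8 / ε)
    have hB0' : 1 ≤ B0 := by
      have : (0 : ℝ) < B0 := lt_trans (by positivity) hB0
      exact_mod_cast this
    let n := 4 * K * (2 * c + B0)
    have hn : n ≤ qs (φ n) := (hφ.id_le n).trans (le_qs _)
    obtain ⟨S, hS, hSK, -, -, hE⟩ := hexp n
    obtain ⟨Y, hY, hY2, hY3⟩ := (good (φ n)).nonexp c hc hc1 K B0 hB0' hn S hS hSK
    have h1 := hE Y hY hY2
    have h2 : (0 : ℝ) < Y.ncard := by
      have : 0 < Y.ncard := (Set.ncard_pos (Set.toFinite Y)).mpr hY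
      exact_mod_cast this
    have h3 : ((bdry S Y).ncard : ℝ) * B0 ≤ 8 * Y.ncard := by exact_mod_cast hY3
    have h4 : 8 < ε * B0 := by
      rw [div_lt_iff₀ hε] at hB0
      linarith
    have h5 : (0 : ℝ) < B0 := by exact_mod_cast hB0'
    nlinarith [mul_le_mul_of_nonneg_right h1 h5.le]

end Pool.Agent.Lib.MP_5cc0c1_al
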