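import Pool.Agent.Lib.MP_5cc0c1_al.Wr

/-!
# MP_5cc0c1_al : `SL₂(𝔽_q)` acting on the projective line
-/

set_option linter.unusedSectionVars false

namespace Pool.Agent.Lib.MP_5cc0c1_al

open Matrix

variable (q : ℕ) [Fact q.Prime]

/-- `SL₂(𝔽_q)` -/
abbrev Q : Type := SpecialLinearGroup (Fin 2) (ZMod q)

/-- the projective line over `𝔽_q` -/
abbrev P1 : Type := OnePoint (ZMod q)

instance instActP1 : MulAction (Q q) (P1 q) :=
  MulAction.compHom (P1 q) (SpecialLinearGroup.toGL (n := Fin 2) (R := ZMod q))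

instance : Fintype (P1 q) := inferInstanceAs (Fintype (Option (ZMod q)))
instance : DecidableEq (P1 q) := inferInstanceAs (DecidableEq (Option (ZMod q)))

/-- upper unipotent element -/
def uQ : Q q := ⟨!![1, 1; 0, 1], by simp [Matrix.det_fin_two_of]⟩

/-- lower unipotent element -/
def lQ : Q q := ⟨!![1, 0; 1, 1], by simp [Matrix.det_fin_two_of]⟩

theorem card_P1 : Fintype.card (P1 q) = q + 1 := by
  have : Fintype.card (Option (ZMod q)) = q + 1 := by
    rw [Fintype.card_option, ZMod.card]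
  exact this

/-- smart constructor -/
def mk2 (a b c d : ZMod q) (h : a * d - b * c = 1) : Q q :=
  ⟨!![a, b; c, d], by rw [Matrix.det_fin_two_of]; exact h⟩

theorem mk2_coe (a b c d : ZMod q) (h : a * d - b * c = 1) :
    ((mk2 q a b c d h : Q q) : Matrix (Fin 2) (Fin 2) (ZMod q)) = !![a, b; c, d] := rfl

theorem uQ_coe : ((uQ q : Q q) : Matrix (Fin 2) (Fin 2) (ZMod q)) = !![1, 1; 0, 1] := rfl

theorem lQ_coe : ((lQ q : Q q) : Matrix (Fin 2) (Fin 2) (ZMod q)) = !![1, 0; 1, 1] := rfl

/-- the upper unipotent with entry `x` -/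
def UU (x : ZMod q) : Q q := mk2 q 1 x 0 1 (by ring)

/-- the lower unipotent with entry `x` -/
def LL (x : ZMod q) : Q q := mk2 q 1 0 x 1 (by ring)

theorem UU_coe (x : ZMod q) : ((UU q x : Q q) : Matrix (Fin 2) (Fin 2) (ZMod q)) = !![1, x; 0, 1] :=
  rfl

theorem LL_coe (x : ZMod q) : ((LL q x : Q q) : Matrix (Fin 2) (Fin 2) (ZMod q)) = !![1, 0; x, 1] :=
  rfl

theorem ext2 {g h : Q q} (h00 : g.1 0 0 = h.1 0 0) (h01 : g.1 0 1 = h.1 0 1)
    (h10 : g.1 1 0 = h.1 1 0) (h11 : g.1 1 1 = h.1 1 1) : g = h := by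
  apply Subtype.ext
  ext i j
  fin_cases i <;> fin_cases j
  · exact h00
  · exact h01
  · exact h10
  · exact h11

theorem mul_val (g h : Q q) (i j : Fin 2) :
    (g * h).1 i j = g.1 i 0 * h.1 0 j + g.1 i 1 * h.1 1 j := by
  change (g.1 * h.1) i j = _
  rw [Matrix.mul_apply, Fin.sum_univ_two]

theorem UU_mul (x y : ZMod q) : UU q x * UU q y = UU q (x + y) := by
  apply ext2 <;> rw [mul_val] <;> simp [UU_coe, add_comm]

theorem LL_mul (x y : ZMod q) : LL q x * LL q y = LL q (x + y) := by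
  apply ext2 <;> rw [mul_val] <;> simp [LL_coe]

theorem UU_zero : UU q 0 = 1 := by
  apply ext2 <;> simp [UU_coe]

theorem LL_zero : LL q 0 = 1 := by
  apply ext2 <;> simp [LL_coe]

theorem uQ_pow_nat (n : ℕ) : uQ q ^ n = UU q n := by
  induction n with
  | zero => simp [UU_zero]
  | succ n ih =>
    rw [pow_succ, ih]
    have : uQ q = UU q 1 := rfl
    rw [this, UU_mul]
    simp

theorem lQ_pow_nat (n : ℕ) : lQ q ^ n = LL q n := by
  induction n with
  | zero => simp [LL_zero]
  | succ n ih =>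
    rw [pow_succ, ih]
    have : lQ q = LL q 1 := rfl
    rw [this, LL_mul]
    simp

theorem uQ_pow : uQ q ^ q = 1 := by
  rw [uQ_pow_nat]
  simp [UU_zero]

theorem lQ_pow : lQ q ^ q = 1 := by
  rw [lQ_pow_nat]
  simp [LL_zero]

theorem uQ_ne_one : uQ q ≠ 1 := by
  intro h
  have h1 : (uQ q).1 0 1 = (1 : Q q).1 0 1 := by rw [h]
  simp [uQ] at h1

theorem lQ_ne_one : lQ q ≠ 1 := by
  intro h
  have h1 : (lQ q).1 1 0 = (1 : Q q).1 1 0 := by rw [h]
  simp [lQ] at h1

theorem UU_eq (x : ZMod q) : UU q x = uQ q ^ x.val := by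
  rw [uQ_pow_nat, ZMod.natCast_zmod_val]

theorem LL_eq (x : ZMod q) : LL q x = lQ q ^ x.val := by
  rw [lQ_pow_nat, ZMod.natCast_zmod_val]

theorem closure_uQ_lQ : Subgroup.closure ({uQ q, lQ q} : Set (Q q)) = ⊤ := by
  set N := Subgroup.closure ({uQ q, lQ q} : Set (Q q)) with hN
  have hu : uQ q ∈ N := Subgroup.subset_closure (by simp)
  have hl : lQ q ∈ N := Subgroup.subset_closure (by simp)
  have hU : ∀ x, UU q x ∈ N := fun x => by rw [UU_eq]; exact pow_mem hu _
  have hL : ∀ x, LL q x ∈ N := fun x => by rw [LL_eq]; exact pow_mem hl _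
  have key : ∀ g : Q q, g.1 1 0 ≠ 0 → g ∈ N := by
    intro g hc
    have hdet := g.2
    rw [Matrix.det_fin_two] at hdet
    have : g = UU q ((g.1 0 0 - 1) / g.1 1 0) * LL q (g.1 1 0) *
        UU q ((g.1 1 1 - 1) / g.1 1 0) := by
      apply ext2 <;> simp only [mul_val] <;> simp [UU_coe, LL_coe] <;> field_simp
      · ring
      · linear_combination -hdet
      · ring
    rw [this]
    exact mul_mem (mul_mem (hU _) (hL _)) (hU _)
  rw [eq_top_iff]
  intro g _
  by_cases hc : g.1 1 0 = 0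
  · have h2 : lQ q * g ∈ N := by
      apply key
      have hdet := g.2
      rw [Matrix.det_fin_two, hc] at hdet
      have : (lQ q * g).1 1 0 = g.1 0 0 := by
        rw [mul_val]
        simp [lQ_coe, hc]
      rw [this]
      intro h0
      rw [h0] at hdet
      simp at hdet
    have := mul_mem (inv_mem hl) h2
    simpa using this
  · exact key g hc

theorem smul_def' (g : Q q) (x : P1 q) : g • x = (SpecialLinearGroup.toGL g) • x := rfl

theorem toGL_val (g : Q q) (i j : Fin 2) :
    (SpecialLinearGroup.toGL g : GL (Fin 2) (ZMod q)) i j = g.1 i j := rfl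

theorem smul_infty (g : Q q) : g • (OnePoint.infty : P1 q) =
    if g.1 1 0 = 0 then OnePoint.infty else ((g.1 0 0 / g.1 1 0 : ZMod q) : P1 q) := by
  rw [smul_def', OnePoint.smul_infty_eq_ite]
  rfl

theorem smul_some (g : Q q) (k : ZMod q) : g • (k : P1 q) =
    if g.1 1 0 * k + g.1 1 1 = 0 then OnePoint.infty else
      (((g.1 0 0 * k + g.1 0 1) / (g.1 1 0 * k + g.1 1 1) : ZMod q) : P1 q) := by
  rw [smul_def', OnePoint.smul_some_eq_ite]
  rfl

theorem uQ_smul : uQ q • (OnePoint.infty : P1 q) = OnePoint.infty := by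
  rw [smul_infty]
  simp [uQ_coe]

theorem lQ_smul : lQ q • ((0 : ZMod q) : P1 q) = ((0 : ZMod q) : P1 q) := by
  rw [smul_some]
  simp [lQ_coe]

theorem conj_uQ : ∃ w : Q q, w * uQ q * w⁻¹ = (lQ q)⁻¹ := by
  refine ⟨mk2 q 0 1 (-1) 0 (by ring), ?_⟩
  have h1 : lQ q * mk2 q 0 1 (-1) 0 (by ring) * uQ q = mk2 q 0 1 (-1) 0 (by ring) := by
    apply ext2 <;> simp only [mul_val] <;> simp [mk2_coe, uQ_coe, lQ_coe]
  rw [mul_inv_eq_iff_eq_mul, eq_inv_mul_iff_mul_eq, ← mul_assoc]
  exact h1

theorem exists_to_infty (x : P1 q) : ∃ g : Q q, g • (OnePoint.infty : P1 q) = x := by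
  induction x using OnePoint.rec with
  | infty => exact ⟨1, one_smul _ _⟩
  | coe k =>
    refine ⟨mk2 q k (-1) 1 0 (by ring), ?_⟩
    rw [smul_infty]
    simp [mk2_coe]

theorem transitive (x y : P1 q) : ∃ g : Q q, g • x = y := by
  obtain ⟨g, hg⟩ := exists_to_infty q x
  obtain ⟨h, hh⟩ := exists_to_infty q y
  refine ⟨h * g⁻¹, ?_⟩
  rw [mul_smul, ← hg, inv_smul_smul, hh]

theorem card_Q_le : Nat.card (Q q) ≤ q ^ 4 := by
  have h1 : Nat.card (Q q) ≤ Nat.card (Fin 2 × Fin 2 → ZMod q) := by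
    apply Nat.card_le_card_of_injective (fun g ij => g.1 ij.1 ij.2)
    intro g h hgh
    apply ext2
    · exact congrFun hgh (0, 0)
    · exact congrFun hgh (0, 1)
    · exact congrFun hgh (1, 0)
    · exact congrFun hgh (1, 1)
  refine h1.trans ?_
  rw [Nat.card_fun]
  simp

theorem conj_sq (a : (ZMod q)ˣ) :
    ∃ h : Q q, h * uQ q * h⁻¹ = uQ q ^ (((a : ZMod q) ^ 2).val) := by
  obtain ⟨b, hb⟩ : ∃ b : ZMod q, (a : ZMod q) * b = 1 := ⟨_, a.mul_inv⟩
  generalize (a : ZMod q) = x at hb ⊢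
  refine ⟨mk2 q x 0 0 b (by rw [hb]; ring), ?_⟩
  rw [mul_inv_eq_iff_eq_mul, ← UU_eq]
  apply ext2 <;> simp only [mul_val] <;> simp [mk2_coe, uQ_coe, UU_coe]
  rw [pow_two, mul_assoc, hb, mul_one]

/-- a representation of `SL₂(𝔽_q)` of degree `< (q-1)/2` is trivial on unipotents -/
theorem rep_uQ {W : Type*} [AddCommGroup W] [Module ℂ W] [FiniteDimensional ℂ W]
    (ρ : Representation ℂ (Q q) W) (h : 2 * Module.finrank ℂ W < q - 1) : ρ (uQ q) = 1 := by
  by_contra hne
  set A : Module.End ℂ W := ρ (uQ q) with hA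
  have hAq : A ^ q = 1 := by rw [hA, ← map_pow, uQ_pow, map_one]
  have hq0 : q ≠ 0 := (Fact.out : q.Prime).ne_zero
  -- an eigenvalue different from 1
  obtain ⟨ω, hω1, v, hv0, hv⟩ : ∃ ω : ℂ, ω ≠ 1 ∧ ∃ v : W, v ≠ 0 ∧ A v = ω • v := by
    let P : Module.End ℂ W := ∑ i ∈ Finset.range q, A ^ i
    have hPA : P * (A - 1) = 0 := by
      have := geom_sum_mul A q
      rw [hAq, sub_self] at this
      exact this
    have hcomm : ∀ x, P (A x) = A (P x) := by
      intro x
      have h1 : P * A = A * P := by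
        simp only [P, Finset.sum_mul, Finset.mul_sum, ← pow_succ, ← pow_succ']
      exact congrArg (fun f : Module.End ℂ W => f x) h1
    let K : Submodule ℂ W := LinearMap.ker P
    have hK : ∀ x ∈ K, A x ∈ K := by
      intro x hx
      rw [LinearMap.mem_ker] at hx ⊢
      rw [hcomm, hx, map_zero]
    have hnt : Nontrivial K := by
      obtain ⟨w, hw⟩ : ∃ w, (A - 1) w ≠ 0 := by
        by_contra hcon
        push Not at hcon
        exact hne (sub_eq_zero.mp (LinearMap.ext hcon))
      refine ⟨⟨(A - 1) w, ?_⟩, 0, ?_⟩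
      · rw [LinearMap.mem_ker]
        exact congrArg (fun f : Module.End ℂ W => f w) hPA
      · intro h0
        exact hw (congrArg Subtype.val h0)
    obtain ⟨ω, hω⟩ := Module.End.exists_eigenvalue (A.restrict hK)
    obtain ⟨x, hx⟩ := hω.exists_hasEigenvector
    have hx1 : A x.1 = ω • x.1 := congrArg Subtype.val hx.apply_eq_smul
    have hx0 : (x.1 : W) ≠ 0 := fun h0 => hx.2 (Subtype.ext h0)
    refine ⟨ω, ?_, x.1, hx0, hx1⟩
    rintro rfl
    rw [one_smul] at hx1
    have hpow : ∀ i : ℕ, (A ^ i) x.1 = x.1 := by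
      intro i
      induction i with
      | zero => rfl
      | succ i ih => rw [pow_succ, Module.End.mul_apply, hx1, ih]
    have hPx : P x.1 = (q : ℂ) • x.1 := by
      simp only [P, LinearMap.sum_apply, hpow, Finset.sum_const, Finset.card_range]
      rw [Nat.cast_smul_eq_nsmul]
    have : P x.1 = 0 := x.2
    rw [hPx, smul_eq_zero] at this
    rcases this with h1 | h1
    · exact hq0 (by exact_mod_cast h1)
    · exact hx0 h1
  have hApow : ∀ n : ℕ, (A ^ n) v = ω ^ n • v := by
    intro n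
    induction n with
    | zero => simp
    | succ n ih => rw [pow_succ', Module.End.mul_apply, ih, map_smul, hv, smul_smul, pow_succ]
  have hωq : ω ^ q = 1 := by
    have h1 := hApow q
    rw [hAq, Module.End.one_apply] at h1
    have h2 : (ω ^ q - 1) • v = 0 := by rw [sub_smul, one_smul, ← h1, sub_self]
    rcases smul_eq_zero.mp h2 with h3 | h3
    · exact sub_eq_zero.mp h3
    · exact absurd h3 hv0
  have hord : orderOf ω = q := orderOf_eq_prime hωq hω1
  have hprim : IsPrimitiveRoot ω q := by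
    rw [← hord]
    exact IsPrimitiveRoot.orderOf ω
  -- the eigenvalues ω ^ (a²)
  have heig : ∀ a : (ZMod q)ˣ, ∃ w : W, w ≠ 0 ∧ A w = ω ^ (((a : ZMod q) ^ 2).val) • w := by
    intro a
    obtain ⟨h, hh⟩ := conj_sq q a⁻¹
    set n := (((a⁻¹ : (ZMod q)ˣ) : ZMod q) ^ 2).val with hn
    set m := ((a : ZMod q) ^ 2).val with hm
    let B : Module.End ℂ W := ρ h
    have hB : B * A = A ^ n * B := by
      have : h * uQ q = uQ q ^ n * h := by rw [← hh]; group
      have := congrArg ρ this
      simpa using this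
    have h1 : (A ^ n) (B v) = ω • B v := by
      have := congrArg (fun f : Module.End ℂ W => f v) hB
      simp only [Module.End.mul_apply] at this
      rw [← this, hv, map_smul]
    have h2 : ∀ k : ℕ, ((A ^ n) ^ k) (B v) = ω ^ k • B v := by
      intro k
      induction k with
      | zero => simp
      | succ k ih => rw [pow_succ', Module.End.mul_apply, ih, map_smul, h1, smul_smul, pow_succ]
    have h3 : (A ^ n) ^ m = A := by
      rw [← pow_mul]
      have hmod : n * m ≡ 1 [MOD q] := by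
        rw [← ZMod.natCast_eq_natCast_iff]
        rw [hn, hm]
        push_cast
        rw [ZMod.natCast_zmod_val, ZMod.natCast_zmod_val, ← mul_pow, inv_mul_cancel₀ a.ne_zero, one_pow]
      obtain ⟨k, hk⟩ : ∃ k, n * m = 1 + q * k := by
        have h4 : 1 % q = 1 := Nat.mod_eq_of_lt (Fact.out : q.Prime).one_lt
        have h5 : n * m % q = 1 := by rw [hmod, h4]
        exact ⟨n * m / q, by rw [← h5]; exact (Nat.mod_add_div _ _).symm⟩
      rw [hk, pow_add, pow_mul, hAq, one_pow, mul_one, pow_one]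
    refine ⟨B v, ?_, ?_⟩
    · intro h0
      have : (ρ h⁻¹) (B v) = v := by
        change (ρ h⁻¹ * ρ h) v = v
        rw [← map_mul, inv_mul_cancel, map_one]
        rfl
      rw [h0, map_zero] at this
      exact hv0 this.symm
    · have := h2 m
      rwa [h3] at this
  rcases (Fact.out : q.Prime).eq_two_or_odd' with h2 | hodd
  · have hf : Module.finrank ℂ W = 0 := by omega
    have : Subsingleton W := Module.finrank_zero_iff.mp hf
    exact hv0 (Subsingleton.elim _ _)
  · obtain ⟨m, hm⟩ := hodd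
    have hval : ∀ i : Fin m, ((i : ℕ) + 1 : ZMod q) ≠ 0 := by
      intro i h0
      have h1 : (((i : ℕ) + 1 : ℕ) : ZMod q) = 0 := by exact_mod_cast h0
      rw [ZMod.natCast_eq_zero_iff] at h1
      have := Nat.le_of_dvd (by omega) h1
      have := i.2
      omega
    let un : Fin m → (ZMod q)ˣ := fun i => Units.mk0 _ (hval i)
    choose w hw0 hw using heig
    have hinj : Function.Injective (fun i : Fin m => ω ^ (((un i : ZMod q) ^ 2).val)) := by
      intro i j hij
      have h1 := hprim.pow_inj (ZMod.val_lt _) (ZMod.val_lt _) hij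
      have h2 := ZMod.val_injective q h1
      have h3 : ((i : ℕ) + 1 : ZMod q) ^ 2 = ((j : ℕ) + 1 : ZMod q) ^ 2 := h2
      have hi := i.2
      have hj := j.2
      rcases sq_eq_sq_iff_eq_or_eq_neg.mp h3 with h4 | h4
      · have h5 : (((i : ℕ) + 1 : ℕ) : ZMod q) = (((j : ℕ) + 1 : ℕ) : ZMod q) := by
          exact_mod_cast h4
        rw [ZMod.natCast_eq_natCast_iff'] at h5
        rw [Nat.mod_eq_of_lt (by omega), Nat.mod_eq_of_lt (by omega)] at h5
        exact Fin.ext (by omega)
      · have h5 : (((i : ℕ) + 1 + ((j : ℕ) + 1) : ℕ) : ZMod q) = 0 := by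
          push_cast
          rw [h4]
          ring
        rw [ZMod.natCast_eq_zero_iff] at h5
        have := Nat.le_of_dvd (by omega) h5
        omega
    have hli := Module.End.eigenvectors_linearIndependent' A
      (fun i : Fin m => ω ^ (((un i : ZMod q) ^ 2).val)) hinj (fun i => w (un i))
      (fun i => ⟨Module.End.mem_eigenspace_iff.mpr (hw (un i)), hw0 _⟩)
    have := hli.fintype_card_le_finrank
    rw [Fintype.card_fin] at this
    omega

end Pool.Agent.Lib.MP_5cc0c1_al
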