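import Mathlib

/-!
# MP_5cc0c1_al : the notions of the problem
-/

namespace Pool.Agent.Lib.MP_5cc0c1_al

open Filter

/-- The vertices of the Cayley graph `Cay(G,S)` (vertex set `G`, an edge from `g` to `g * s` for
`g ∈ G`, `s ∈ S`) at distance exactly one from `Y`: the vertices outside `Y` which are joined
to a vertex of `Y` by an edge. -/
def bdry {G : Type} [Group G] (S Y : Set G) : Set G :=
  {g | g ∉ Y ∧ ∃ y ∈ Y, ∃ s ∈ S, g = y * s}

/-- `h(Cay(G,S)) ≥ ε` for a finite group `G`: every `Y` with `0 < |Y| ≤ |G|/2` satisfies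
`|∂Y| ≥ ε |Y|`. -/
def ExpansionAtLeast {G : Type} [Group G] (S : Set G) (ε : ℝ) : Prop :=
  ∀ Y : Set G, Y.Nonempty → 2 * Y.ncard ≤ Nat.card G → ε * Y.ncard ≤ (bdry S Y).ncard

/-- `(G_n)` is an expanding sequence: there are symmetric generating sets `S_n ⊆ G_n` of bounded
size such that the Cayley graphs `Cay(G_n,S_n)` are a sequence of expanders. -/
def IsExpanding (G : ℕ → Type) [∀ n, Group (G n)] : Prop :=
  ∃ (K : ℕ) (ε : ℝ), 0 < ε ∧ ∀ n, ∃ S : Set (G n), S.Finite ∧ S.ncard ≤ K ∧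
    (∀ s ∈ S, s⁻¹ ∈ S) ∧ Subgroup.closure S = ⊤ ∧ ExpansionAtLeast S ε

/-- Condition (A): there is a constant `c` with `|H : H'| ≤ c ^ |G_n : H|` for every `n` and every
subgroup `H ≤ G_n` (`Abelianization H` is `H / H'`). -/
def CondA (G : ℕ → Type) [∀ n, Group (G n)] : Prop :=
  ∃ c : ℝ, ∀ (n : ℕ) (H : Subgroup (G n)), (Nat.card (Abelianization H) : ℝ) ≤ c ^ H.index

/-- An irreducible complex (matrix) representation of degree at most `k`. -/
structure Irrep (G : Type) [Group G] (k : ℕ) where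
  deg : ℕ
  deg_le : deg ≤ k
  ρ : Representation ℂ G (Fin deg → ℂ)
  irr : ρ.IsIrreducible

/-- Isomorphism of irreducible representations. -/
instance irrepSetoid (G : Type) [Group G] (k : ℕ) : Setoid (Irrep G k) where
  r a b := Nonempty (a.ρ.Equiv b.ρ)
  iseqv :=
    ⟨fun _ => ⟨Representation.Equiv.refl _⟩, fun ⟨e⟩ => ⟨e.symm⟩, fun ⟨e⟩ ⟨f⟩ => ⟨e.trans f⟩⟩

/-- `Rep_k(G)`: the number of isomorphism classes of irreducible complex representations of `G` of
degree at most `k`. -/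
noncomputable def numIrreps (G : Type) [Group G] (k : ℕ) : ℕ∞ :=
  ENat.card (Quotient (irrepSetoid G k))

/-- Condition (R): there is a constant `c` with `Rep_k(G_n) ≤ c ^ (k²)` for all `n` and `k ≥ 1`. -/
def CondR (G : ℕ → Type) [∀ n, Group (G n)] : Prop :=
  ∃ c : ℕ, ∀ n k : ℕ, 1 ≤ k → numIrreps (G n) k ≤ ((c ^ (k ^ 2) : ℕ) : ℕ∞)

end Pool.Agent.Lib.MP_5cc0c1_al
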