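import Pool.Agent.Lib.MP_5cc0c1_al.Defs

/-!
# MP_5cc0c1_al : the wreath product `Wr X Q = Ico^X ⋊ Q`, its action on the tensor power, and
affine groups `Aff T V = V ⋊ T`.
-/

namespace Pool.Agent.Lib.MP_5cc0c1_al

open Matrix

section act

variable {X : Type} [Fintype X] [DecidableEq X] {M : Type} [AddCommGroup M] [Module R M]

theorem ent_mul (g h : Ico) (i j : Fin 2) :
    ent (g * h) i j = ∑ k, ent g i k * ent h k j := by
  simp [ent, Matrix.mul_apply]

theorem ent_one (i j : Fin 2) : ent 1 i j = if i = j then 1 else 0 := by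
  simp [ent, Matrix.one_apply]

omit [Fintype X] [DecidableEq X] [AddCommGroup M] [Module R M] in
theorem Tens.ext {v w : Tens X M} (h : ∀ a, v a = w a) : v = w := funext h

omit [Fintype X] [DecidableEq X] [Module R M] in
@[simp] theorem Tens.add_apply (v w : Tens X M) (a : X → Fin 2) : (v + w) a = v a + w a := rfl

omit [Fintype X] [DecidableEq X] [Module R M] in
@[simp] theorem Tens.zero_apply (a : X → Fin 2) : (0 : Tens X M) a = 0 := rfl

omit [Fintype X] [DecidableEq X] in
@[simp] theorem Tens.smul_apply (r : R) (w : Tens X M) (a : X → Fin 2) :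
    (r • w) a = r • w a := rfl

theorem act_apply (f : X → Ico) (w : Tens X M) (a : X → Fin 2) :
    act f w a = ∑ b : X → Fin 2, (∏ x, ent (f x) (a x) (b x)) • w b := rfl

theorem act_one (w : Tens X M) : act 1 w = w := by
  apply Tens.ext
  intro a
  rw [act_apply, Finset.sum_eq_single a]
  · simp [ent_one]
  · intro b _ hb
    have : ∃ x, a x ≠ b x := by
      by_contra h
      push Not at h
      exact hb (funext fun x => (h x).symm)
    obtain ⟨x, hx⟩ := this
    rw [Finset.prod_eq_zero (Finset.mem_univ x), zero_smul]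
    simp [ent_one, hx]
  · simp

theorem act_mul (f g : X → Ico) (w : Tens X M) : act (f * g) w = act f (act g w) := by
  apply Tens.ext
  intro a
  rw [act_apply, act_apply]
  simp only [act_apply, Finset.smul_sum]
  rw [Finset.sum_comm]
  apply Finset.sum_congr rfl
  intro c _
  simp only [smul_smul]
  rw [← Finset.sum_smul]
  congr 1
  simp only [Pi.mul_apply, ent_mul, ← Finset.prod_mul_distrib]
  rw [Finset.prod_univ_sum]
  simp

theorem act_add (f : X → Ico) (v w : Tens X M) : act f (v + w) = act f v + act f w := by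
  apply Tens.ext
  intro a
  simp [act_apply, smul_add, Finset.sum_add_distrib]

theorem act_zero (f : X → Ico) : act f (0 : Tens X M) = 0 := by
  apply Tens.ext
  intro a
  simp [act_apply]

theorem act_smul (f : X → Ico) (r : R) (w : Tens X M) : act f (r • w) = r • act f w := by
  apply Tens.ext
  intro a
  simp only [act_apply, Tens.smul_apply, Finset.smul_sum]
  refine Finset.sum_congr rfl fun b _ => ?_
  rw [smul_comm]

end act

section wreath

variable (X Q : Type) [Group Q] [MulAction Q X]

/-- The permutational wreath product `Ico ≀_X Q`. -/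
structure Wr where
  f : X → Ico
  σ : Q

namespace Wr

variable {X Q}

omit [Group Q] [MulAction Q X] in
theorem ext' {x y : Wr X Q} (h : ∀ i, x.f i = y.f i) (h' : x.σ = y.σ) : x = y := by
  cases x
  cases y
  simp only [Wr.mk.injEq]
  exact ⟨funext h, h'⟩

instance : Mul (Wr X Q) := ⟨fun x y => ⟨x.f * fun i => y.f (x.σ⁻¹ • i), x.σ * y.σ⟩⟩
instance : One (Wr X Q) := ⟨⟨1, 1⟩⟩
instance : Inv (Wr X Q) := ⟨fun x => ⟨fun i => (x.f (x.σ • i))⁻¹, x.σ⁻¹⟩⟩

theorem mul_f (x y : Wr X Q) (i : X) : (x * y).f i = x.f i * y.f (x.σ⁻¹ • i) := rfl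
@[simp] theorem mul_σ (x y : Wr X Q) : (x * y).σ = x.σ * y.σ := rfl
@[simp] theorem one_f : (1 : Wr X Q).f = 1 := rfl
@[simp] theorem one_σ : (1 : Wr X Q).σ = 1 := rfl
theorem inv_f (x : Wr X Q) (i : X) : (x⁻¹).f i = (x.f (x.σ • i))⁻¹ := rfl
@[simp] theorem inv_σ (x : Wr X Q) : (x⁻¹).σ = x.σ⁻¹ := rfl

instance : Group (Wr X Q) := Group.ofLeftAxioms
  (by
    intro x y z
    apply ext'
    · intro i
      simp [mul_f, mul_assoc, mul_smul]
    · simp [mul_assoc])
  (by
    intro x
    apply ext'
    · intro i
      simp [mul_f]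
    · simp)
  (by
    intro x
    apply ext'
    · intro i
      simp [mul_f, inv_f]
    · simp)

/-- The element of the base group `Ico^X` given by `f`. -/
def base : (X → Ico) →* Wr X Q where
  toFun f := ⟨f, 1⟩
  map_one' := rfl
  map_mul' f g := by
    apply ext'
    · intro i
      simp [mul_f]
    · simp

/-- The top group. -/
def top : Q →* Wr X Q where
  toFun σ := ⟨1, σ⟩
  map_one' := rfl
  map_mul' σ τ := by
    apply ext'
    · intro i
      simp [mul_f]
    · simp

@[simp] theorem base_f (f : X → Ico) : (base f : Wr X Q).f = f := rfl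
@[simp] theorem base_σ (f : X → Ico) : (base f : Wr X Q).σ = 1 := rfl
@[simp] theorem top_f (σ : Q) : (top σ : Wr X Q).f = 1 := rfl
@[simp] theorem top_σ (σ : Q) : (top σ : Wr X Q).σ = σ := rfl

theorem eq_base_mul_top (x : Wr X Q) : x = base x.f * top x.σ := by
  apply ext'
  · intro i
    simp [mul_f]
  · simp

/-- As a type. -/
def equivProd : Wr X Q ≃ (X → Ico) × Q where
  toFun x := (x.f, x.σ)
  invFun y := ⟨y.1, y.2⟩
  left_inv _ := rfl
  right_inv _ := rfl

/-- permutation of the tensor factors -/
def perm {M : Type} (σ : Q) (w : Tens X M) : Tens X M := fun a => w (fun x => a (σ • x))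

variable [Fintype X] [DecidableEq X] {M : Type} [AddCommGroup M] [Module R M]

theorem perm_act (σ : Q) (g : X → Ico) (w : Tens X M) :
    perm σ (act g w) = act (fun i => g (σ⁻¹ • i)) (perm σ w) := by
  apply Tens.ext
  intro a
  simp only [perm, act_apply]
  let e : (X → Fin 2) ≃ (X → Fin 2) :=
    { toFun := fun b x => b (σ⁻¹ • x)
      invFun := fun b x => b (σ • x)
      left_inv := fun b => by funext x; simp
      right_inv := fun b => by funext x; simp }
  rw [← e.sum_comp (fun b => (∏ x, ent (g (σ⁻¹ • x)) (a x) (b x)) • w fun x => b (σ • x))]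
  refine Finset.sum_congr rfl fun b _ => ?_
  have h1 : (fun x => e b (σ • x)) = b := by funext x; simp [e]
  rw [h1]
  congr 1
  rw [← Equiv.prod_comp (MulAction.toPerm σ⁻¹ : Equiv.Perm X)]
  refine Finset.prod_congr rfl fun x _ => ?_
  simp [e]

/-- The action of the wreath product on the tensor power. -/
instance : DistribMulAction (Wr X Q) (Tens X M) where
  smul g w := act g.f (perm g.σ w)
  one_smul w := by
    change act 1 (perm 1 w) = w
    rw [act_one]
    apply Tens.ext
    intro a
    simp [perm]
  mul_smul g h w := by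
    change act (g * h).f (perm (g.σ * h.σ) w) = act g.f (perm g.σ (act h.f (perm h.σ w)))
    rw [perm_act, ← act_mul]
    have : (g * h).f = g.f * fun i => h.f (g.σ⁻¹ • i) := rfl
    rw [this]
    congr 1
    apply Tens.ext
    intro a
    simp [perm, mul_smul]
  smul_zero g := by
    change act g.f (perm g.σ 0) = 0
    exact act_zero _
  smul_add g v w := by
    change act g.f (perm g.σ (v + w)) = act g.f (perm g.σ v) + act g.f (perm g.σ w)
    rw [← act_add]
    rfl

theorem smul_def (g : Wr X Q) (w : Tens X M) : g • w = act g.f (perm g.σ w) := rfl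

theorem base_smul (f : X → Ico) (w : Tens X M) : (base f : Wr X Q) • w = act f w := by
  rw [smul_def]
  congr 1
  apply Tens.ext
  intro a
  simp [perm]

theorem top_smul (σ : Q) (w : Tens X M) : (top σ : Wr X Q) • w = perm σ w := by
  rw [smul_def]
  exact act_one _

theorem smul_R_smul (g : Wr X Q) (r : R) (w : Tens X M) : g • (r • w) = r • (g • w) := by
  rw [smul_def, smul_def, ← act_smul]
  rfl

end Wr

end wreath

section aff

variable (T V : Type) [Group T] [AddCommGroup V] [DistribMulAction T V]

/-- The semidirect product `V ⋊ T`. -/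
@[ext] structure Aff where
  v : V
  t : T

namespace Aff

variable {T V}

instance : Mul (Aff T V) := ⟨fun x y => ⟨x.v + x.t • y.v, x.t * y.t⟩⟩
instance : One (Aff T V) := ⟨⟨0, 1⟩⟩
instance : Inv (Aff T V) := ⟨fun x => ⟨-(x.t⁻¹ • x.v), x.t⁻¹⟩⟩

@[simp] theorem mul_v (x y : Aff T V) : (x * y).v = x.v + x.t • y.v := rfl
@[simp] theorem mul_t (x y : Aff T V) : (x * y).t = x.t * y.t := rfl
@[simp] theorem one_v : (1 : Aff T V).v = 0 := rfl
@[simp] theorem one_t : (1 : Aff T V).t = 1 := rfl
@[simp] theorem inv_v (x : Aff T V) : (x⁻¹).v = -(x.t⁻¹ • x.v) := rfl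
@[simp] theorem inv_t (x : Aff T V) : (x⁻¹).t = x.t⁻¹ := rfl

instance : Group (Aff T V) := Group.ofLeftAxioms
  (by
    intro x y z
    ext
    · simp [add_assoc, mul_smul]
    · simp [mul_assoc])
  (by intro x; ext <;> simp)
  (by intro x; ext <;> simp)

/-- The translation by `v`. -/
def tr : Multiplicative V →* Aff T V where
  toFun v := ⟨Multiplicative.toAdd v, 1⟩
  map_one' := rfl
  map_mul' v w := by ext <;> simp

/-- The linear part. -/
def lin : Aff T V →* T where
  toFun x := x.t
  map_one' := rfl
  map_mul' _ _ := rfl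

/-- The complement `T`. -/
def inc : T →* Aff T V where
  toFun t := ⟨0, t⟩
  map_one' := rfl
  map_mul' s t := by ext <;> simp

/-- As a type. -/
def equivProd : Aff T V ≃ V × T where
  toFun x := (x.v, x.t)
  invFun y := ⟨y.1, y.2⟩
  left_inv _ := rfl
  right_inv _ := rfl

end Aff

end aff

end Pool.Agent.Lib.MP_5cc0c1_al
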