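import Pool.Agent.Lib.MP_5cc0c1_al.Ico
import Pool.Agent.Lib.MP_5cc0c1_al.SLq

/-!
# MP_5cc0c1_al : the group `T = Ico ≀ SL₂(𝔽_q)`
-/

namespace Pool.Agent.Lib.MP_5cc0c1_al

open Matrix

open scoped commutatorElement

variable (q : ℕ) [Fact q.Prime]

/-- `T = Ico ≀_{ℙ¹(𝔽_q)} SL₂(𝔽_q)` -/
abbrev T : Type := Wr (P1 q) (Q q)

instance : Finite (T q) := by
  have : Finite (Q q) := by
    have : Finite (Matrix (Fin 2) (Fin 2) (ZMod q)) := inferInstanceAs (Finite (Fin 2 → Fin 2 → ZMod q))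
    exact Subtype.finite
  exact Finite.of_equiv _ (Wr.equivProd (X := P1 q) (Q := Q q)).symm

theorem card_T_le : Nat.card (T q) ≤ Nat.card Ico ^ (q + 1) * q ^ 4 := by
  rw [Nat.card_congr (Wr.equivProd (X := P1 q) (Q := Q q)), Nat.card_prod, Nat.card_fun,
    Nat.card_eq_fintype_card (α := P1 q), card_P1]
  exact Nat.mul_le_mul_left _ (card_Q_le q)

namespace WreathAux

theorem top_conj_base (σ : Q q) (f : P1 q → Ico) :
    (Wr.top σ : T q) * Wr.base f * (Wr.top σ)⁻¹ = Wr.base (fun i => f (σ⁻¹ • i)) := by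
  apply Wr.ext'
  · intro i
    simp [Wr.mul_f, Wr.inv_f]
  · simp

theorem top_conj_single (σ : Q q) (x : P1 q) (g : Ico) :
    (Wr.top σ : T q) * Wr.base (Pi.mulSingle x g) * (Wr.top σ)⁻¹ =
      Wr.base (Pi.mulSingle (σ • x) g) := by
  rw [top_conj_base]
  congr 1
  funext i
  by_cases h : i = σ • x
  · subst h
    simp
  · rw [Pi.mulSingle_eq_of_ne h, Pi.mulSingle_eq_of_ne]
    intro h'
    exact h (by rw [← h', smul_inv_smul])

theorem top_uQ_pow : (Wr.top (uQ q) : T q) ^ q = 1 := by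
  rw [← map_pow, uQ_pow, map_one]

theorem top_lQ_pow : (Wr.top (lQ q) : T q) ^ q = 1 := by
  rw [← map_pow, lQ_pow, map_one]

omit [Fact q.Prime] in
theorem mulSingle_comm {X : Type} [DecidableEq X] {G : Type} [Group G] {x y : X} (h : x ≠ y)
    (a b : G) :
    (Pi.mulSingle x a : X → G) * Pi.mulSingle y b = Pi.mulSingle y b * Pi.mulSingle x a :=
  (Pi.mulSingle_commute (f := fun _ : X => G) h a b).eq

theorem mem_of_single (L : Subgroup (T q)) (h1 : ∀ σ : Q q, (Wr.top σ : T q) ∈ L)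
    (h2 : ∀ (x : P1 q) (g : Ico), (Wr.base (Pi.mulSingle x g) : T q) ∈ L) : L = ⊤ := by
  rw [eq_top_iff]
  intro g _
  rw [Wr.eq_base_mul_top g]
  refine L.mul_mem ?_ (h1 _)
  have : g.f ∈ L.comap (Wr.base : (P1 q → Ico) →* T q) := by
    apply Subgroup.pi_mem_of_mulSingle_mem
    intro i
    exact h2 i _
  exact this

end WreathAux

open WreathAux

/-- A homomorphism killing the unipotent element of the top group is trivial. -/
theorem hom_trivial {K : Type*} [Monoid K] (φ : T q →* K) (h : φ (Wr.top (uQ q)) = 1) (g : T q) :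
    φ g = 1 := by
  set ψ : T q →* Kˣ := φ.toHomUnits with hψ
  have hψφ : ∀ g, ((ψ g : Kˣ) : K) = φ g := fun g => rfl
  have hu : ψ (Wr.top (uQ q)) = 1 := by
    apply Units.ext
    rw [hψφ, h]; rfl
  have hl : ψ (Wr.top (lQ q)) = 1 := by
    obtain ⟨w, hw⟩ := conj_uQ q
    have h1 : ψ (Wr.top (lQ q)⁻¹) = 1 := by
      rw [← hw, map_mul, map_mul, map_mul, map_mul, hu, mul_one, ← map_mul, ← map_mul,
        mul_inv_cancel, map_one, map_one]
    rw [map_inv, map_inv, inv_eq_one] at h1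
    exact h1
  have htop : ∀ σ : Q q, (Wr.top σ : T q) ∈ ψ.ker := by
    intro σ
    have h1 : Subgroup.closure ({uQ q, lQ q} : Set (Q q)) ≤ ψ.ker.comap (Wr.top : Q q →* T q) := by
      rw [Subgroup.closure_le]
      rintro x (rfl | rfl)
      · exact hu
      · exact hl
    rw [closure_uQ_lQ] at h1
    exact h1 (Subgroup.mem_top σ)
  have htop' : ∀ σ : Q q, ψ (Wr.top σ) = 1 := fun σ => htop σ
  have heq : ∀ (x y : P1 q) (g : Ico), ψ (Wr.base (Pi.mulSingle x g)) =
      ψ (Wr.base (Pi.mulSingle y g)) := by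
    intro x y g
    obtain ⟨σ, rfl⟩ := transitive q x y
    rw [← top_conj_single, map_mul, map_mul, map_inv, htop', one_mul, inv_one, mul_one]
  have hcomm : ∀ (x : P1 q) (g h : Ico), Commute (ψ (Wr.base (Pi.mulSingle x g)))
      (ψ (Wr.base (Pi.mulSingle x h))) := by
    intro x g h
    obtain ⟨y, hy⟩ : ∃ y : P1 q, y ≠ x := by
      by_cases hx : x = OnePoint.infty
      · exact ⟨((0 : ZMod q) : P1 q), by rw [hx]; exact OnePoint.coe_ne_infty _⟩
      · exact ⟨OnePoint.infty, fun h => hx h.symm⟩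
    rw [heq x y h]
    have h1 : (Pi.mulSingle x g : P1 q → Ico) * Pi.mulSingle y h =
        Pi.mulSingle y h * Pi.mulSingle x g := mulSingle_comm hy.symm g h
    have h2 : ψ (Wr.base ((Pi.mulSingle x g : P1 q → Ico) * Pi.mulSingle y h)) =
        ψ (Wr.base (Pi.mulSingle y h * Pi.mulSingle x g)) := by rw [h1]
    rw [map_mul, map_mul, map_mul, map_mul] at h2
    exact h2
  have hsing : ∀ (x : P1 q) (g : Ico), (Wr.base (Pi.mulSingle x g) : T q) ∈ ψ.ker := by
    intro x g
    let η : Ico →* Kˣ := ψ.comp ((Wr.base : (P1 q → Ico) →* T q).comp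
      (MonoidHom.mulSingle (fun _ : P1 q => Ico) x))
    have hη : ∀ g, η g = ψ (Wr.base (Pi.mulSingle x g)) := fun g => rfl
    have h1 : commutator Ico ≤ η.ker := by
      rw [commutator_def, Subgroup.commutator_le]
      intro a _ b _
      have h2 : ⁅η a, η b⁆ = 1 := by
        rw [hη, hη]
        exact commutatorElement_eq_one_iff_commute.mpr (hcomm x a b)
      rw [MonoidHom.mem_ker, map_commutatorElement, h2]
    rw [Ico_perfect] at h1
    exact h1 (Subgroup.mem_top g)
  have hker : ψ.ker = ⊤ := mem_of_single q ψ.ker htop hsing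
  have h1 : ψ g = 1 := by
    rw [← MonoidHom.mem_ker, hker]; trivial
  rw [← hψφ, h1]
  rfl

theorem T_index (H : Subgroup (T q)) (h : H.index < q) : H = ⊤ := by
  have hq : q.Prime := Fact.out
  let φ : T q →* Equiv.Perm (T q ⧸ H) := MulAction.toPermHom (T q) (T q ⧸ H)
  have h1 : φ (Wr.top (uQ q)) = 1 := by
    have h2 : orderOf (φ (Wr.top (uQ q))) ∣ q := by
      apply orderOf_dvd_of_pow_eq_one
      rw [← map_pow, top_uQ_pow, map_one]
    rcases (Nat.dvd_prime hq).mp h2 with h3 | h3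
    · exact orderOf_eq_one_iff.mp h3
    · exfalso
      have h4 : orderOf (φ (Wr.top (uQ q))) ∣ Nat.card (Equiv.Perm (T q ⧸ H)) :=
        orderOf_dvd_natCard _
      rw [h3, Nat.card_perm, Nat.Prime.dvd_factorial hq] at h4
      change q ≤ H.index at h4
      omega
  rw [eq_top_iff]
  intro g _
  have h2 := hom_trivial q φ h1 g
  have h3 : φ g ((1 : T q) : T q ⧸ H) = ((1 : T q) : T q ⧸ H) := by rw [h2]; rfl
  change ((g * 1 : T q) : T q ⧸ H) = ((1 : T q) : T q ⧸ H) at h3
  rw [mul_one, eq_comm, QuotientGroup.eq] at h3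
  simpa using h3

theorem T_perfect (hq : 5 ≤ q) : commutator (T q) = ⊤ := by
  have hp : q.Prime := Fact.out
  have h2 : (2 : ZMod q) ≠ 0 := by
    intro h
    have : ((2 : ℕ) : ZMod q) = 0 := by exact_mod_cast h
    rw [ZMod.natCast_eq_zero_iff] at this
    have := Nat.le_of_dvd (by norm_num) this
    omega
  obtain ⟨w, hw⟩ := conj_sq q (Units.mk0 (2 : ZMod q) h2)
  have h4 : (((Units.mk0 (2 : ZMod q) h2 : (ZMod q)ˣ) : ZMod q) ^ 2).val = 4 := by
    have : (((Units.mk0 (2 : ZMod q) h2 : (ZMod q)ˣ) : ZMod q) ^ 2) = ((4 : ℕ) : ZMod q) := by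
      simp
      norm_num
    rw [this, ZMod.val_natCast, Nat.mod_eq_of_lt (by omega)]
  rw [h4] at hw
  have h1 : (Abelianization.of : T q →* _) (Wr.top (uQ q)) = 1 := by
    set a := (Abelianization.of : T q →* _) (Wr.top (uQ q)) with ha
    have h5 : a = a ^ 4 := by
      have := congrArg (fun g => (Abelianization.of : T q →* _) (Wr.top g)) hw
      simp only [map_mul, map_inv, map_pow] at this
      rw [mul_comm _ ((Abelianization.of : T q →* _) (Wr.top (uQ q))),
        mul_inv_cancel_right] at this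
      exact this
    have h6 : a ^ 3 = 1 := by
      have : a * 1 = a * a ^ 3 := by rw [mul_one, ← pow_succ']; exact h5
      exact (mul_left_cancel this).symm
    have h7 : a ^ q = 1 := by
      rw [ha, ← map_pow, top_uQ_pow, map_one]
    have h8 : orderOf a ∣ 3 := orderOf_dvd_of_pow_eq_one h6
    have h9 : orderOf a ∣ q := orderOf_dvd_of_pow_eq_one h7
    have hco : Nat.Coprime 3 q := by
      rw [Nat.coprime_primes Nat.prime_three hp]
      omega
    have h10 : orderOf a ∣ 1 := by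
      rw [← hco.gcd_eq_one]
      exact Nat.dvd_gcd h8 h9
    exact orderOf_eq_one_iff.mp (Nat.dvd_one.mp h10)
  rw [eq_top_iff]
  intro g _
  rw [← Abelianization.ker_of]
  exact hom_trivial q _ h1 g

/-- first generator -/
def xT : T q := Wr.base (Pi.mulSingle (OnePoint.infty : P1 q) sI) * Wr.top (uQ q)

/-- second generator -/
def yT : T q := Wr.base (Pi.mulSingle ((0 : ZMod q) : P1 q) tI) * Wr.top (lQ q)

namespace WreathAux

variable {q}

theorem mem_of_pow_coprime {G : Type*} [Group G] (L : Subgroup G) (a : G) {m n : ℕ}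
    (hmn : Nat.Coprime m n) (h1 : a ^ m ∈ L) (h2 : a ^ n ∈ L) : a ∈ L := by
  have hb := Nat.gcd_eq_gcd_ab m n
  rw [hmn.gcd_eq_one] at hb
  have : a = (a ^ m) ^ (Nat.gcdA m n) * (a ^ n) ^ (Nat.gcdB m n) := by
    rw [← zpow_natCast, ← zpow_natCast, ← _root_.zpow_mul, ← _root_.zpow_mul, ← _root_.zpow_add,
      ← hb]
    simp
  rw [this]
  exact L.mul_mem (L.zpow_mem h1 _) (L.zpow_mem h2 _)

theorem split_mem {G : Type*} [Group G] (L : Subgroup G) {S U : G} (hc : Commute S U) {m n : ℕ}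
    (hmn : Nat.Coprime m n) (hS : S ^ m = 1) (hU : U ^ n = 1) (h : S * U ∈ L) : S ∈ L ∧ U ∈ L := by
  have h1 : S ^ n ∈ L := by
    have := L.pow_mem h n
    rwa [hc.mul_pow, hU, mul_one] at this
  have h2 : U ^ m ∈ L := by
    have := L.pow_mem h m
    rwa [hc.mul_pow, hS, one_mul] at this
  refine ⟨mem_of_pow_coprime L S hmn (by rw [hS]; exact L.one_mem) h1,
    mem_of_pow_coprime L U hmn h2 (by rw [hU]; exact L.one_mem)⟩

end WreathAux

theorem closure_xT_yT (hq : 7 ≤ q) : Subgroup.closure ({xT q, yT q} : Set (T q)) = ⊤ := by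
  have hp : q.Prime := Fact.out
  set L := Subgroup.closure ({xT q, yT q} : Set (T q)) with hL
  have hx : xT q ∈ L := Subgroup.subset_closure (by simp)
  have hy : yT q ∈ L := Subgroup.subset_closure (by simp)
  have hco : Nat.Coprime 5 q := by
    rw [Nat.coprime_primes Nat.prime_five hp]
    omega
  have hc1 : Commute (Wr.base (Pi.mulSingle (OnePoint.infty : P1 q) sI) : T q)
      (Wr.top (uQ q)) := by
    have h1 := top_conj_single q (uQ q) (OnePoint.infty : P1 q) sI
    rw [uQ_smul, mul_inv_eq_iff_eq_mul] at h1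
    exact h1.symm
  have hc2 : Commute (Wr.base (Pi.mulSingle ((0 : ZMod q) : P1 q) tI) : T q)
      (Wr.top (lQ q)) := by
    have h1 := top_conj_single q (lQ q) ((0 : ZMod q) : P1 q) tI
    rw [lQ_smul, mul_inv_eq_iff_eq_mul] at h1
    exact h1.symm
  have hp1 : (Wr.base (Pi.mulSingle (OnePoint.infty : P1 q) sI) : T q) ^ 5 = 1 := by
    rw [← map_pow, ← Pi.mulSingle_pow, sI_pow, Pi.mulSingle_one, map_one]
  have hp2 : (Wr.base (Pi.mulSingle ((0 : ZMod q) : P1 q) tI) : T q) ^ 5 = 1 := by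
    rw [← map_pow, ← Pi.mulSingle_pow, tI_pow, Pi.mulSingle_one, map_one]
  obtain ⟨hS, hU⟩ := split_mem L hc1 hco hp1 (top_uQ_pow q) hx
  obtain ⟨hS', hU'⟩ := split_mem L hc2 hco hp2 (top_lQ_pow q) hy
  have htop : ∀ σ : Q q, (Wr.top σ : T q) ∈ L := by
    intro σ
    have h1 : Subgroup.closure ({uQ q, lQ q} : Set (Q q)) ≤ L.comap (Wr.top : Q q →* T q) := by
      rw [Subgroup.closure_le]
      rintro x (rfl | rfl)
      · exact hU
      · exact hU'
    rw [closure_uQ_lQ] at h1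
    exact h1 (Subgroup.mem_top σ)
  refine mem_of_single q L htop fun x g => ?_
  have h1 : Subgroup.closure ({sI, tI} : Set Ico) ≤
      L.comap ((Wr.base : (P1 q → Ico) →* T q).comp (MonoidHom.mulSingle (fun _ : P1 q => Ico) x)) := by
    rw [Subgroup.closure_le]
    rintro y (rfl | rfl)
    · obtain ⟨σ, rfl⟩ := transitive q (OnePoint.infty : P1 q) x
      change (Wr.base (Pi.mulSingle (σ • (OnePoint.infty : P1 q)) sI) : T q) ∈ L
      rw [← top_conj_single]
      exact L.mul_mem (L.mul_mem (htop _) hS) (L.inv_mem (htop _))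
    · obtain ⟨σ, rfl⟩ := transitive q ((0 : ZMod q) : P1 q) x
      change (Wr.base (Pi.mulSingle (σ • ((0 : ZMod q) : P1 q)) tI) : T q) ∈ L
      rw [← top_conj_single]
      exact L.mul_mem (L.mul_mem (htop _) hS') (L.inv_mem (htop _))
  rw [closure_sI_tI] at h1
  exact h1 (Subgroup.mem_top g)

theorem rep_trivial {W : Type*} [AddCommGroup W] [Module ℂ W] [FiniteDimensional ℂ W]
    (ρ : Representation ℂ (T q) W) (h : 2 * Module.finrank ℂ W < q - 1) (g : T q) : ρ g = 1 := by
  refine hom_trivial q ρ ?_ g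
  exact rep_uQ q (ρ.comp (Wr.top : Q q →* T q)) h

end Pool.Agent.Lib.MP_5cc0c1_al
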